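import Pool.Agent.Helper831.VN.St
import Pool.Agent.Helper970.SH.Defs
import Pool.Agent.RK.Defs

/-!
# The polytope invariant: definitions
-/

attribute [local instance] L2B.instRingN

set_option autoImplicit false

open scoped Pointwise TensorProduct

namespace W441PT

open TN970

/-! ### Polytopes -/

/-- A polytope in the real vector space `V`: the convex hull of a finite non-empty subset. -/
def IsPolytope {V : Type} [AddCommGroup V] [Module ℝ V] (P : Set V) : Prop :=
  ∃ s : Finset V, s.Nonempty ∧ P = convexHull ℝ (s : Set V)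

/-- The polytopes in `V`. -/
def Polytope (V : Type) [AddCommGroup V] [Module ℝ V] : Type := {P : Set V // IsPolytope P}

/-- The relations `[P + Q] = [P] + [Q]` (Minkowski sum) and `[v + P] = [P]` (translation). -/
def GRel (V : Type) [AddCommGroup V] [Module ℝ V] : Set (FreeAbelianGroup (Polytope V)) :=
  {x | (∃ P Q R : Polytope V, R.1 = P.1 + Q.1 ∧
        x = FreeAbelianGroup.of R - (FreeAbelianGroup.of P + FreeAbelianGroup.of Q)) ∨
      (∃ (v : V) (P Q : Polytope V), Q.1 = {v} + P.1 ∧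
        x = FreeAbelianGroup.of Q - FreeAbelianGroup.of P)}

/-- The Grothendieck group of the monoid of translation classes of polytopes in `V`, presented by
the generators `[P]` and the relations `[P + Q] = [P] + [Q]` and `[v + P] = [P]`. -/
abbrev GV (V : Type) [AddCommGroup V] [Module ℝ V] : Type :=
  FreeAbelianGroup (Polytope V) ⧸ AddSubgroup.closure (GRel V)

/-- The class of a polytope. -/
def GV.mk {V : Type} [AddCommGroup V] [Module ℝ V] (P : Polytope V) : GV V :=
  QuotientAddGroup.mk' (AddSubgroup.closure (GRel V)) (FreeAbelianGroup.of P)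

/-! ### The skew field `D(Γ)` -/

/-- `D`, with the homomorphism `u : Γ → Dˣ`, is the division closure `D(Γ)` of `ℤ[Γ]` in the
algebra `U` of operators affiliated with the group von Neumann algebra `N(Γ)`, that is in the
localisation of `N(Γ)` at its non-zero-divisors. -/
def IsDG {Γ : Type} [Group Γ] {D : Type} [DivisionRing D] (u : Γ →* Dˣ) : Prop :=
  ∃ (U : Type) (_ : Ring U) (ι : L2B.N Γ →+* U) (e : D →+* U), Pool.Agent.RK.Loc ι ∧
    (∀ g, e ((u g : Dˣ) : D) = ι (L2B.lam g)) ∧
    ∀ S : Subring U, (∀ g, ι (L2B.lam g) ∈ S) → (∀ x ∈ S, ∀ y, x * y = 1 → y * x = 1 → y ∈ S) →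
      ∀ d, e d ∈ S

/-- The image of `g` in `H_1(Γ; ℝ)`. -/
noncomputable def cl {Γ : Type} [Group Γ] (g : Γ) : H1R Γ :=
  (1 : ℝ) ⊗ₜ[ℤ] Additive.ofMul (Abelianization.of g)

theorem cl_mul {Γ : Type} [Group Γ] (g h : Γ) : cl (g * h) = cl g + cl h := by
  unfold cl
  rw [map_mul, ofMul_mul, TensorProduct.tmul_add]

theorem cl_one {Γ : Type} [Group Γ] : cl (1 : Γ) = 0 := by
  have h := cl_mul (1 : Γ) 1
  rw [mul_one] at h
  exact left_eq_add.1 h

theorem cl_inv {Γ : Type} [Group Γ] (g : Γ) : cl g⁻¹ = -cl g := by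
  have h := cl_mul g⁻¹ g
  rw [inv_mul_cancel, cl_one] at h
  exact (neg_eq_of_add_eq_zero_left h.symm).symm

/-- The kernel `K` of `Γ → H_1(Γ; ℝ)`, i.e. of the projection of `Γ` to `H_1(Γ; ℤ)` modulo
torsion. -/
def KK (Γ : Type) [Group Γ] : Subgroup Γ where
  carrier := {g | cl g = 0}
  mul_mem' := by
    intro g h hg hh
    have hg' : cl g = 0 := hg
    have hh' : cl h = 0 := hh
    show cl (g * h) = 0
    rw [cl_mul, hg', hh', add_zero]
  one_mem' := cl_one
  inv_mem' := by
    intro g hg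
    have hg' : cl g = 0 := hg
    show cl g⁻¹ = 0
    rw [cl_inv, hg', neg_zero]

/-- `P` is the Newton polytope in `H_1(Γ; ℝ)` of the non-zero element `f` of the crossed product
`D(K) * H ⊆ D(Γ)`: one has `f = ∑ a_g u(g)`, the sum over a finite non-empty set `s` of elements
`g` with different images in `H_1(Γ; ℝ)` and non-zero coefficients in the division ring `D(K)`
generated by the image of `K`, and `P` is the convex hull of the images of the `g ∈ s`. -/
def IsNewton {Γ : Type} [Group Γ] {D : Type} [DivisionRing D] (u : Γ →* Dˣ) (f : D)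
    (P : Polytope (H1R Γ)) : Prop :=
  ∃ (s : Finset Γ) (a : Γ → D), s.Nonempty ∧ Set.InjOn cl (s : Set Γ) ∧
    (∀ g ∈ s, a g ∈ Dc u (KK Γ) ∧ a g ≠ 0) ∧ f = ∑ g ∈ s, a g * ((u g : Dˣ) : D) ∧
    P.1 = convexHull ℝ (cl '' (s : Set Γ))

/-- `pol : K₁(D(Γ)) → 𝔊(H_1(Γ; ℝ))` is the homomorphism given by the Newton polytopes of the
elements of the crossed product. -/
def IsPol {Γ : Type} [Group Γ] {D : Type} [DivisionRing D] (u : Γ →* Dˣ)
    (pol : H970SH.K1 D →+ GV (H1R Γ)) : Prop :=
  ∀ (f : D) (P : Polytope (H1R Γ)), IsNewton u f P →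
    ∀ M : (Matrix (Fin 1) (Fin 1) D)ˣ, (M : Matrix (Fin 1) (Fin 1) D) 0 0 = f →
      pol (H970SH.K1.mk M) = GV.mk P

/-! ### Torsion -/

/-- `τ` is the torsion in `K₁(D)` of the acyclic based complex
`… → D^{r 2} → D^{r 1} → D^{r 0} → 0` of length at most `m`, whose differentials are the right
multiplications of row vectors by the matrices `d n`: the rows of `L n` are elements of `D^{r n}`
whose images form a basis of the image of the differential `D^{r n} → D^{r (n - 1)}`, and `τ` is
the alternating sum of the classes `x n` of the matrices whose rows are the resulting basis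
(the rows of `L (n + 1) * d n` and of `L n`) of `D^{r n}`. -/
def IsTorsion {D : Type} [DivisionRing D] (r : ℕ → ℕ)
    (d : ∀ n, Matrix (Fin (r (n + 1))) (Fin (r n)) D) (τ : H970SH.K1 D) : Prop :=
  ∃ (β : ℕ → ℕ) (L : ∀ n, Matrix (Fin (β n)) (Fin (r n)) D) (x : ℕ → H970SH.K1 D) (m : ℕ),
    β 0 = 0 ∧ (∀ n, m ≤ n → r n = 0) ∧
    (∀ n, ∃ (e : Fin (r n) ≃ Fin (β (n + 1)) ⊕ Fin (β n)) (M : (Matrix (Fin (r n)) (Fin (r n)) D)ˣ),
      (M : Matrix (Fin (r n)) (Fin (r n)) D) =
        (Matrix.fromRows (L (n + 1) * d n) (L n)).submatrix e id ∧ x n = H970SH.K1.mk M) ∧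
    τ = ∑ n ∈ Finset.range m, (-1 : ℤ) ^ n • x n

end W441PT
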