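import Pool.Agent.W441.PT.New
import Pool.Agent.W441.PT.Defs
import Pool.Agent.Helper831.VN.Fin
import Pool.Agent.Helper277.Sig
import Pool.Agent.Helper655.VNLight

attribute [local instance] VN831.bcFunctor_additive VN831.viaAdd VN831.viaMod
  Pool.Agent.Helper655.VN.kerM_hop V7N.bcF_additive V7N.rmAdd V7N.rmMod L2B.l2Add L2B.l2Mod
  L2B.instRingN L2B.instAddBC L2B.instModBC L2B.bcF_additive

/-! Properties of `D(Γ)`. -/

set_option autoImplicit false

open scoped ENNReal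

namespace W441PT

open L2B Pool.Agent.RK TN970 V6 VN831 Pool.Agent.Helper655.VN

theorem loc_comp {R R' U : Type} [Ring R] [Ring R'] [Ring U] (σ : R ≃+* R') {ι : R' →+* U}
    (h : Loc ι) : Loc (ι.comp (σ : R →+* R')) where
  inj := h.inj.comp σ.injective
  unit := fun s hs => h.unit _ (nz_map σ s hs)
  left := by
    intro y
    obtain ⟨s, x, hs, hx⟩ := h.left y
    refine ⟨σ.symm s, σ.symm x, nz_map σ.symm s hs, ?_⟩
    show ι (σ (σ.symm s)) * y = ι (σ (σ.symm x))
    rw [σ.apply_symm_apply, σ.apply_symm_apply, hx]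
  right := by
    intro y
    obtain ⟨s, x, hs, hx⟩ := h.right y
    refine ⟨σ.symm s, σ.symm x, nz_map σ.symm s hs, ?_⟩
    show y * ι (σ (σ.symm s)) = ι (σ (σ.symm x))
    rw [σ.apply_symm_apply, σ.apply_symm_apply, hx]

theorem nontrivial_N (Γ : Type) [Group Γ] : (1 : N Γ) ≠ 0 := by
  intro h
  have h1 : (1 : Module.End ℂ (L2 Γ)) = 0 := congrArg Subtype.val h
  have h2 : delta (1 : Γ) = 0 := LinearMap.congr_fun h1 (delta 1)
  have h3 : L2B.val (delta (1 : Γ)) 1 = 0 := by rw [h2]; rfl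
  have h4 : L2B.val (delta (1 : Γ)) 1 = 1 := by
    simp [L2B.val, delta]
  rw [h4] at h3
  exact one_ne_zero h3

theorem dg_facts {Γ : Type} [Group Γ] {D : Type} [DivisionRing D] {u : Γ →* Dˣ} (h : IsDG u) :
    ∃ (U : Type) (_ : Ring U) (ι : NG Γ →+* U) (e : D →+* U), Loc ι ∧
      (∀ g, e ((u g : Dˣ) : D) = ι (canL g)) ∧ (∀ a, e (ev u a) = ι (V7N.evM canL a)) ∧
      Dc u ⊤ = ⊤ ∧ Linnell u := by
  obtain ⟨U, hU, ι0, e, hι0, hu0, hmin⟩ := h
  have hι := loc_comp (Pool.Agent.Helper277.Sig.sig Γ) hι0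
  set ι : NG Γ →+* U := ι0.comp ((Pool.Agent.Helper277.Sig.sig Γ : NG Γ ≃+* N Γ) : NG Γ →+* N Γ)
    with hιdef
  have hu : ∀ g, e ((u g : Dˣ) : D) = ι (canL g) := by
    intro g
    rw [hu0]
    show _ = ι0 ((Pool.Agent.Helper277.Sig.sig Γ) (canL g))
    rw [Pool.Agent.Helper277.Sig.sig_canL]
  have hev : ∀ a, e (ev u a) = ι (V7N.evM canL a) := by
    have hcomp : e.comp (TN970.ev u) = ι.comp (V7N.evM canL) := by
      apply MonoidAlgebra.ringHom_ext
      · intro r
        have h1 : (e.comp (TN970.ev u)).comp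
            (MonoidAlgebra.singleOneRingHom : ℤ →+* MonoidAlgebra ℤ Γ) =
            (ι.comp (V7N.evM canL)).comp (MonoidAlgebra.singleOneRingHom : ℤ →+* MonoidAlgebra ℤ Γ) :=
          RingHom.ext_int _ _
        exact congrFun (congrArg DFunLike.coe h1) r
      · intro g
        have h2 : TN970.ev u (MonoidAlgebra.single g 1) = ((u g : Dˣ) : D) :=
          MonoidAlgebra.lift_of (R := ℤ) ((Units.coeHom D).comp u) g
        have h3 : V7N.evM (canL : Γ →* NG Γ) (MonoidAlgebra.single g 1) = canL g :=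
          MonoidAlgebra.lift_of (R := ℤ) (canL : Γ →* NG Γ) g
        show e (TN970.ev u (MonoidAlgebra.single g 1)) =
          ι (V7N.evM canL (MonoidAlgebra.single g 1))
        rw [h2, h3, hu]
    intro a
    exact congrFun (congrArg DFunLike.coe hcomp) a
  have hntU : Nontrivial U := by
    refine ⟨⟨1, 0, fun h => ?_⟩⟩
    apply nontrivial_N Γ
    apply hι0.inj
    rw [map_one, map_zero, h]
  refine ⟨U, hU, ι, e, hι, hu, hev, ?_, ?_⟩
  · rw [eq_top_iff]
    intro d _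
    have h1 : e d ∈ ((Dc u ⊤).toSubring.map e) := by
      refine hmin _ ?_ ?_ d
      · intro g
        rw [← hu0]
        exact ⟨_, Subfield.subset_closure ⟨g, trivial, rfl⟩, rfl⟩
      · rintro x ⟨y, hy, rfl⟩ z hz1 hz2
        refine ⟨y⁻¹, (Dc u ⊤).inv_mem hy, ?_⟩
        have hy0 : y ≠ 0 := by
          rintro rfl
          rw [map_zero, zero_mul] at hz1
          exact zero_ne_one hz1
        calc e y⁻¹ = e y⁻¹ * (e y * z) := by rw [hz1, mul_one]
          _ = z := by rw [← mul_assoc, ← map_mul, inv_mul_cancel₀ hy0, map_one, one_mul]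
    obtain ⟨y, hy, hyd⟩ := h1
    rw [← e.injective hyd]
    exact hy
  · refine Pool.Agent.RK.Linn.linnell_of hι e u canL hu fun N hN => ?_
    have S := setup_sub N hι hu
    exact ⟨NG N, inferInstance, inferInstance, tau N, Pool.Agent.Helper277.VN5.jN N, S.vn, S.jinj,
      S.jnz, S.hN, fun s x hs hx => S.indep s hs x hx⟩

/-- Exactness over `D(Γ)` in positive degrees. -/
theorem d_exact {Γ : Type} [Group Γ] {D : Type} [DivisionRing D] {u : Γ →* Dˣ} (h : IsDG u)
    (C : V7N.FreeRes Γ) (hl2 : ∀ n, L2B.l2Betti Γ n = 0) :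
    (∀ x : Fin (C.r 0) → D, ∃ y : Fin (C.r 1) → D, x = Matrix.vecMul y ((C.d 0).map (ev u))) ∧
    ∀ n, ∀ x : Fin (C.r (n + 1)) → D, Matrix.vecMul x ((C.d n).map (ev u)) = 0 →
      ∃ y : Fin (C.r (n + 1 + 1)) → D, x = Matrix.vecMul y ((C.d (n + 1)).map (ev u)) := by
  obtain ⟨U, hU, ι, e, hι, hu, hev, htop, hL⟩ := dg_facts h
  have hmem : ∀ x : D, x ∈ SN u ⊤ := by
    intro x
    apply SN_Dc
    rw [htop]
    trivial
  have htr : (L2B.tr : N Γ → ℝ) = ((tau Γ).comp
      ((Pool.Agent.Helper277.Sig.sig Γ).symm : N Γ →+ NG Γ) : N Γ → ℝ) := by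
    funext T
    have h1 := Pool.Agent.Helper277.Sig.sig_tr ((Pool.Agent.Helper277.Sig.sig Γ).symm T)
    rw [(Pool.Agent.Helper277.Sig.sig Γ).apply_symm_apply] at h1
    exact h1
  have hr : (MonoidHom.id Γ).range = ⊤ := by
    rw [MonoidHom.range_eq_top]
    exact Function.surjective_id
  obtain ⟨st, S⟩ := setup_transport (Pool.Agent.Helper277.Sig.sig Γ) (setup_top hι hu)
  have hc : ∀ k : Γ, ((RingHom.id (NG Γ)).comp
      ((Pool.Agent.Helper277.Sig.sig Γ).symm : N Γ →+* NG Γ)) (lam k) =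
        canL (MonoidHom.id Γ k) := by
    intro k
    show (Pool.Agent.Helper277.Sig.sig Γ).symm (lam k) = canL k
    rw [← Pool.Agent.Helper277.Sig.sig_canL k, (Pool.Agent.Helper277.Sig.sig Γ).symm_apply_apply]
  constructor
  · intro x
    obtain ⟨f⟩ := V7N.v7_zero C (MonoidHom.id Γ) Function.injective_id (lam : Γ →* N Γ)
      (canL : Γ →* NG Γ) ((RingHom.id (NG Γ)).comp
      ((Pool.Agent.Helper277.Sig.sig Γ).symm : N Γ →+* NG Γ)) hc (by rw [hr]; exact S.indep)
    have hex := L2B.hex_of_luckDim S (V7N.evM canL) hev (C.d 0)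
      (0 : Matrix (Fin (C.r 0)) (Fin 0) (MonoidAlgebra ℤ Γ)) (by
        rw [← htr, ← L2B.luckDim_congr _ f]
        exact hl2 0)
    obtain ⟨y, -, hy⟩ := hex x ⟨fun i => hmem _, by
      ext i
      exact i.elim0⟩
    exact ⟨y, hy⟩
  · intro n x hx
    obtain ⟨f⟩ := V7N.v7_succ C n (MonoidHom.id Γ) Function.injective_id (lam : Γ →* N Γ)
      (canL : Γ →* NG Γ) ((RingHom.id (NG Γ)).comp
      ((Pool.Agent.Helper277.Sig.sig Γ).symm : N Γ →+* NG Γ)) hc (by rw [hr]; exact S.indep)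
    have hex := L2B.hex_of_luckDim S (V7N.evM canL) hev (C.d (n + 1)) (C.d n) (by
        rw [← htr, ← L2B.luckDim_congr _ f]
        exact hl2 (n + 1))
    obtain ⟨y, -, hy⟩ := hex x ⟨fun i => hmem _, hx⟩
    exact ⟨y, hy⟩

/-- Existence of `D(Γ)`. -/
theorem exists_dg {Γ : Type} [Group Γ] (hA : L2B.Atiyah Γ) :
    ∃ (D : Type) (_ : DivisionRing D) (u : Γ →* Dˣ), IsDG u := by
  obtain ⟨U, hU, ι, D, hD, κ, u, hι, hu, hev, hL⟩ :=
    exists_D (Pool.Agent.Helper655.VNLight.atiyah_light hA)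
  have hinv : Loc (ι.comp ((Pool.Agent.Helper277.Sig.sig Γ).symm : N Γ →+* NG Γ)) :=
    loc_comp (Pool.Agent.Helper277.Sig.sig Γ).symm hι
  have hmem : ∀ g, ((u g : Dˣ) : D) ∈ Dc u ⊤ := fun g => Subfield.subset_closure ⟨g, trivial, rfl⟩
  let v : Γ →* Dc u ⊤ :=
    { toFun := fun g => ⟨((u g : Dˣ) : D), hmem g⟩
      map_one' := Subtype.ext (by
        show ((u 1 : Dˣ) : D) = 1
        rw [map_one, Units.val_one])
      map_mul' := fun g h => Subtype.ext (by
        show ((u (g * h) : Dˣ) : D) = ((u g : Dˣ) : D) * ((u h : Dˣ) : D)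
        rw [map_mul, Units.val_mul]) }
  refine ⟨Dc u ⊤, inferInstance, MonoidHom.toHomUnits v, U, hU,
    ι.comp ((Pool.Agent.Helper277.Sig.sig Γ).symm : N Γ →+* NG Γ), κ.comp (Dc u ⊤).subtype,
    hinv, ?_, ?_⟩
  · intro g
    show κ ((u g : Dˣ) : D) = ι ((Pool.Agent.Helper277.Sig.sig Γ).symm (lam g))
    rw [hu, ← Pool.Agent.Helper277.Sig.sig_canL g,
      (Pool.Agent.Helper277.Sig.sig Γ).symm_apply_apply]
  · rintro S hS1 hS2 ⟨d, hd⟩
    show κ d ∈ S
    have hntU : Nontrivial U := by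
      refine ⟨⟨1, 0, fun h => ?_⟩⟩
      apply nontrivial_N Γ
      apply hinv.inj
      rw [map_one, map_zero, h]
    replace hd : d ∈ Subfield.closure {x : D | ∃ g ∈ (⊤ : Subgroup Γ), x = ((u g : Dˣ) : D)} :=
      hd
    induction hd using Subfield.closure_induction with
    | mem x hx =>
      obtain ⟨g, -, rfl⟩ := hx
      have := hS1 g
      rw [hu]
      have h2 : (Pool.Agent.Helper277.Sig.sig Γ).symm (lam g) = canL g := by
        rw [← Pool.Agent.Helper277.Sig.sig_canL g,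
          (Pool.Agent.Helper277.Sig.sig Γ).symm_apply_apply]
      rw [← h2]
      exact this
    | one =>
      rw [map_one]
      exact S.one_mem
    | add x y _ _ hx hy =>
      rw [map_add]
      exact S.add_mem hx hy
    | neg x _ hx =>
      rw [map_neg]
      exact S.neg_mem hx
    | inv x _ hx =>
      by_cases hx0 : x = 0
      · rw [hx0, inv_zero, map_zero]
        exact S.zero_mem
      · refine hS2 _ hx _ ?_ ?_
        · rw [← map_mul, mul_inv_cancel₀ hx0, map_one]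
        · rw [← map_mul, inv_mul_cancel₀ hx0, map_one]
    | mul x y _ _ hx hy =>
      rw [map_mul]
      exact S.mul_mem hx hy

end W441PT
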