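import Pool.Agent.Helper970.V7.Defs

/-! Free resolutions of groups of cohomological dimension at most two. -/

set_option autoImplicit false

namespace W441PT

open CategoryTheory V7N

section mod

variable {R : Type} [Ring R]

theorem pd_ker {M N : Type} [AddCommGroup M] [Module R M] [AddCommGroup N] [Module R N]
    [Module.Projective R M] (f : M →ₗ[R] N) (hf : Function.Surjective f) (n : ℕ)
    (h : HasProjectiveDimensionLT (ModuleCat.of R N) (n + 2)) (K : Submodule R M)
    (hK : LinearMap.ker f = K) : HasProjectiveDimensionLT (ModuleCat.of R K) (n + 1) := by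
  subst hK
  have hS := LinearMap.shortExact_shortComplexKer hf
  have hP : Projective (ModuleCat.of R M) := inferInstance
  have h1 : HasProjectiveDimensionLT (ModuleCat.of R M) (n + 1) :=
    hasProjectiveDimensionLT_of_ge _ 1 (n + 1) (by omega)
  exact hS.hasProjectiveDimensionLT_X₁ (n + 1) h1 h

theorem proj_of_pd {M : Type} [AddCommGroup M] [Module R M]
    (h : HasProjectiveDimensionLT (ModuleCat.of R M) 1) : Module.Projective R M := by
  rw [IsProjective.iff_projective]
  exact projective_iff_hasProjectiveDimensionLT_one.2 h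

end mod

variable {Γ : Type} [Group Γ] (C : FreeRes Γ)

/-- The differential as a linear map. -/
noncomputable def dl (n : ℕ) : (Fin (C.r (n + 1)) → MonoidAlgebra ℤ Γ) →ₗ[MonoidAlgebra ℤ Γ]
    (Fin (C.r n) → MonoidAlgebra ℤ Γ) where
  toFun v := Matrix.vecMul v (C.d n)
  map_add' v w := Matrix.add_vecMul _ _ _
  map_smul' c v := Matrix.smul_vecMul _ _ _

theorem dl_apply (n : ℕ) (v : Fin (C.r (n + 1)) → MonoidAlgebra ℤ Γ) :
    dl C n v = Matrix.vecMul v (C.d n) := rfl

theorem dl_ker (n : ℕ) : LinearMap.ker (dl C n) = LinearMap.range (dl C (n + 1)) := by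
  ext v
  rw [LinearMap.mem_ker, LinearMap.mem_range, dl_apply, C.exact_succ n v]
  constructor
  · rintro ⟨w, rfl⟩
    exact ⟨w, rfl⟩
  · rintro ⟨w, rfl⟩
    exact ⟨w, rfl⟩

theorem trivG_smul (a : MonoidAlgebra ℤ Γ) (x : (trivG Γ : Type)) :
    a • x = (show ℤ from (augG Γ a * (show ℤ from x))) := rfl

theorem eps_smul (a : MonoidAlgebra ℤ Γ) (v : Fin (C.r 0) → MonoidAlgebra ℤ Γ) :
    C.ε (a • v) = augG Γ a * C.ε v := by
  induction a using MonoidAlgebra.induction_on with
  | of g =>
    have h1 : (MonoidAlgebra.of ℤ Γ g) • v = fun i => MonoidAlgebra.single g (1 : ℤ) * v i := rfl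
    rw [h1, C.ε_smul]
    have h2 : augG Γ (MonoidAlgebra.of ℤ Γ g) = 1 := by
      show MonoidAlgebra.lift ℤ ℤ Γ (1 : Γ →* ℤ) (MonoidAlgebra.of ℤ Γ g) = 1
      rw [MonoidAlgebra.lift_of]
      rfl
    rw [h2, one_mul]
  | add a b ha hb => rw [add_smul, map_add, ha, hb, map_add, add_mul]
  | smul r a ha =>
    rw [smul_assoc, map_zsmul, ha, map_zsmul, smul_eq_mul, smul_eq_mul, mul_assoc]

/-- The augmentation as a linear map. -/
noncomputable def el0 : (Fin (C.r 0) → MonoidAlgebra ℤ Γ) →ₗ[MonoidAlgebra ℤ Γ]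
    (trivG Γ : Type) where
  toFun v := (show (trivG Γ : Type) from (C.ε v))
  map_add' v w := C.ε.map_add v w
  map_smul' a v := eps_smul C a v

theorem el0_ker : LinearMap.ker (el0 C) = LinearMap.range (dl C 0) := by
  ext v
  rw [LinearMap.mem_ker, LinearMap.mem_range]
  constructor
  · intro h
    obtain ⟨w, rfl⟩ := (C.exact_zero v).1 h
    exact ⟨w, rfl⟩
  · rintro ⟨w, rfl⟩
    exact (C.exact_zero _).2 ⟨w, rfl⟩

theorem pd0 (h : HasProjectiveDimensionLE (trivG Γ) 2) :
    HasProjectiveDimensionLT (ModuleCat.of (MonoidAlgebra ℤ Γ) (LinearMap.range (dl C 0))) 2 :=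
  pd_ker (el0 C) C.ε_surj 1 h _ (el0_ker C)

theorem pd1 (h : HasProjectiveDimensionLE (trivG Γ) 2) (n : ℕ) :
    HasProjectiveDimensionLT
      (ModuleCat.of (MonoidAlgebra ℤ Γ) (LinearMap.range (dl C (n + 1)))) 1 := by
  induction n with
  | zero =>
    refine pd_ker (dl C 0).rangeRestrict (LinearMap.surjective_rangeRestrict _) 0 (pd0 C h) _ ?_
    rw [LinearMap.ker_rangeRestrict, dl_ker]
  | succ n ih =>
    refine pd_ker (dl C (n + 1)).rangeRestrict (LinearMap.surjective_rangeRestrict _) 0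
      (hasProjectiveDimensionLT_of_ge _ 1 2 (by omega)) _ ?_
    rw [LinearMap.ker_rangeRestrict, dl_ker]

/-- The differentials are regular in degrees at least `2`. -/
theorem reg (h : HasProjectiveDimensionLE (trivG Γ) 2) (n : ℕ) :
    ∃ S : Matrix (Fin (C.r (n + 2))) (Fin (C.r (n + 3))) (MonoidAlgebra ℤ Γ),
      C.d (n + 2) * S * C.d (n + 2) = C.d (n + 2) := by
  have hp1 : Module.Projective (MonoidAlgebra ℤ Γ) (LinearMap.range (dl C (n + 1))) :=
    proj_of_pd (pd1 C h n)
  have hp2 : Module.Projective (MonoidAlgebra ℤ Γ) (LinearMap.range (dl C (n + 2))) :=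
    proj_of_pd (pd1 C h (n + 1))
  obtain ⟨τ, hτ⟩ := Module.projective_lifting_property (dl C (n + 1)).rangeRestrict
    LinearMap.id (LinearMap.surjective_rangeRestrict _)
  obtain ⟨σ, hσ⟩ := Module.projective_lifting_property (dl C (n + 2)).rangeRestrict
    LinearMap.id (LinearMap.surjective_rangeRestrict _)
  let π : (Fin (C.r (n + 2)) → MonoidAlgebra ℤ Γ) →ₗ[MonoidAlgebra ℤ Γ]
      LinearMap.range (dl C (n + 2)) :=
    LinearMap.codRestrict _ (LinearMap.id - τ ∘ₗ (dl C (n + 1)).rangeRestrict) (by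
      intro x
      rw [← dl_ker, LinearMap.mem_ker]
      show dl C (n + 1) (x - τ ((dl C (n + 1)).rangeRestrict x)) = 0
      rw [map_sub]
      have h1 : (dl C (n + 1)).rangeRestrict (τ ((dl C (n + 1)).rangeRestrict x)) =
          (dl C (n + 1)).rangeRestrict x := LinearMap.congr_fun hτ _
      have h2 := congrArg Subtype.val h1
      have h3 : dl C (n + 1) (τ ((dl C (n + 1)).rangeRestrict x)) = dl C (n + 1) x := h2
      rw [h3, sub_self])
  have hπ : ∀ x, dl C (n + 1) x = 0 → ((π x : LinearMap.range (dl C (n + 2))) :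
      Fin (C.r (n + 2)) → MonoidAlgebra ℤ Γ) = x := by
    intro x hx
    show x - τ ((dl C (n + 1)).rangeRestrict x) = x
    have h1 : (dl C (n + 1)).rangeRestrict x = 0 := Subtype.ext hx
    rw [h1, map_zero, sub_zero]
  let s : (Fin (C.r (n + 2)) → MonoidAlgebra ℤ Γ) →ₗ[MonoidAlgebra ℤ Γ]
      (Fin (C.r (n + 3)) → MonoidAlgebra ℤ Γ) := σ ∘ₗ π
  have hs : ∀ y, dl C (n + 2) (s (dl C (n + 2) y)) = dl C (n + 2) y := by
    intro y
    have h1 : dl C (n + 1) (dl C (n + 2) y) = 0 := by
      have : dl C (n + 2) y ∈ LinearMap.ker (dl C (n + 1)) := by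
        rw [dl_ker]
        exact ⟨y, rfl⟩
      exact this
    have h2 : (dl C (n + 2)).rangeRestrict (σ (π (dl C (n + 2) y))) = π (dl C (n + 2) y) :=
      LinearMap.congr_fun hσ _
    have h3 := congrArg Subtype.val h2
    rw [hπ _ h1] at h3
    exact h3
  refine ⟨LinearMap.toMatrixRight' s, ?_⟩
  have hsm : ∀ v, s v = Matrix.vecMul v (LinearMap.toMatrixRight' s) := by
    intro v
    have h1 := LinearMap.toMatrixRight'.symm_apply_apply s
    have h2 := LinearMap.congr_fun h1 v
    exact h2.symm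
  apply Matrix.ext
  intro i j
  have h1 := congrFun (hs (Pi.single i 1)) j
  rw [dl_apply, dl_apply, hsm, Matrix.vecMul_vecMul, Matrix.vecMul_vecMul, ← Matrix.mul_assoc] at h1
  rw [Matrix.single_one_vecMul, Matrix.single_one_vecMul] at h1
  exact h1

end W441PT
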