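import Pool.Agent.W441.PT.K1b

/-! The Dieudonné determinant, for homomorphisms which kill `-1`. -/

set_option autoImplicit false

open scoped Classical

namespace W441PT

open H970SH

variable {D : Type} [DivisionRing D] {A : Type} [AddCommGroup A]

/-- The rows after clearing the first column with the row `i`, without the row `i`. -/
def Sc {ι : Type} {n : ℕ} (M : ι → Fin (n + 1) → D) (i : ι) : {ν : ι // ν ≠ i} → Fin n → D :=
  fun ν j => M ν j.succ - M ν 0 * (M i 0)⁻¹ * M i j.succ

/-- `x` is a value of the determinant of the matrix with rows `M`, computed by elimination. -/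
def Dt (Nm : D → A) : ∀ (n : ℕ) (ι : Type) (_ : ι → Fin n → D) (_ : A), Prop
  | 0, ι, _, x => IsEmpty ι ∧ x = 0
  | n + 1, ι, M, x => ∃ i : ι, M i 0 ≠ 0 ∧
      ∃ y, Dt Nm n {ν : ι // ν ≠ i} (Sc M i) y ∧ x = Nm (M i 0) + y

variable {Nm : D → A}

theorem Dt_re : ∀ (n : ℕ) (ι ι' : Type) (e : ι' ≃ ι) (M : ι → Fin n → D) (x : A),
    Dt Nm n ι M x → Dt Nm n ι' (fun ν => M (e ν)) x := by
  intro n
  induction n with
  | zero =>
    rintro ι ι' e M x ⟨h, rfl⟩
    exact ⟨e.isEmpty_congr.2 h, rfl⟩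
  | succ n ih =>
    rintro ι ι' e M x ⟨i, hi, y, hy, rfl⟩
    refine ⟨e.symm i, by simpa using hi, y, ?_, by simp⟩
    let e' : {ν' : ι' // ν' ≠ e.symm i} ≃ {ν : ι // ν ≠ i} :=
      e.subtypeEquiv (fun a => by rw [ne_eq, ne_eq, Equiv.eq_symm_apply])
    have h1 := ih _ _ e' _ _ hy
    have h2 : (fun ν => Sc M i (e' ν)) = Sc (fun ν => M (e ν)) (e.symm i) := by
      funext ν j
      show M (e ν) j.succ - M (e ν) 0 * (M i 0)⁻¹ * M i j.succ =
        M (e ν) j.succ - M (e ν) 0 * (M (e (e.symm i)) 0)⁻¹ * M (e (e.symm i)) j.succ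
      rw [e.apply_symm_apply]
    rwa [h2] at h1

/-- Properties of the determinant in size `n`. -/
structure QQ (Nm : D → A) (n : ℕ) : Prop where
  sc : ∀ (ι : Type) (M : ι → Fin n → D) (x : A) (j : ι) (c : D), c ≠ 0 → Dt Nm n ι M x →
    Dt Nm n ι (fun ν k => if ν = j then c * M ν k else M ν k) (Nm c + x)
  ad : ∀ (ι : Type) (M : ι → Fin n → D) (x : A) (j : ι) (c : ι → D), c j = 0 → Dt Nm n ι M x →
    Dt Nm n ι (fun ν k => M ν k + c ν * M j k) x
  un : ∀ (ι : Type) (M : ι → Fin n → D) (x y : A), Dt Nm n ι M x → Dt Nm n ι M y → x = y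

theorem alg1 (a b p q : D) (ha : a ≠ 0) (hb : b ≠ 0) :
    -(a * b⁻¹) * (q - b * a⁻¹ * p) = p - a * b⁻¹ * q := by
  have h1 : a * b⁻¹ * (b * a⁻¹ * p) = p := by
    rw [← mul_assoc, ← mul_assoc, mul_assoc a, inv_mul_cancel₀ hb, mul_one, mul_inv_cancel₀ ha,
      one_mul]
  rw [mul_sub, neg_mul, neg_mul, h1]
  abel

theorem alg2 (a b p q r s : D) (hb : b ≠ 0) :
    (s - r * a⁻¹ * p) + -(r * b⁻¹) * (q - b * a⁻¹ * p) = s - r * b⁻¹ * q := by
  have h1 : r * b⁻¹ * (b * a⁻¹ * p) = r * a⁻¹ * p := by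
    rw [← mul_assoc, ← mul_assoc, mul_assoc r, inv_mul_cancel₀ hb, mul_one]
  rw [mul_sub, neg_mul, neg_mul, h1]
  abel

theorem nm_one (hN : ∀ a b : D, a ≠ 0 → b ≠ 0 → Nm (a * b) = Nm a + Nm b) : Nm 1 = 0 := by
  have h := hN 1 1 one_ne_zero one_ne_zero
  rw [mul_one] at h
  exact left_eq_add.1 h

theorem nm_div (hN : ∀ a b : D, a ≠ 0 → b ≠ 0 → Nm (a * b) = Nm a + Nm b) (h1 : Nm (-1) = 0)
    {a b : D} (ha : a ≠ 0) (hb : b ≠ 0) : Nm (-(a * b⁻¹)) + Nm b = Nm a := by
  have hb' : b⁻¹ ≠ 0 := inv_ne_zero hb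
  rw [← hN _ _ (neg_ne_zero.2 (mul_ne_zero ha hb')) hb]
  have h2 : -(a * b⁻¹) * b = -1 * a := by
    rw [neg_mul, mul_assoc, inv_mul_cancel₀ hb, mul_one, neg_one_mul]
  rw [h2, hN _ _ (neg_ne_zero.2 one_ne_zero) ha, h1, zero_add]

/-- Change of the pivot. -/
theorem piv (hN : ∀ a b : D, a ≠ 0 → b ≠ 0 → Nm (a * b) = Nm a + Nm b) (hm1 : Nm (-1) = 0)
    {n : ℕ} (hQ : QQ Nm n) {ι : Type} {M : ι → Fin (n + 1) → D} {x : A}
    (h : Dt Nm (n + 1) ι M x) {k : ι} (hk : M k 0 ≠ 0) :
    ∃ y, Dt Nm n {ν : ι // ν ≠ k} (Sc M k) y ∧ x = Nm (M k 0) + y := by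
  obtain ⟨i, hi, y, hy, rfl⟩ := h
  by_cases hik : i = k
  · subst hik
    exact ⟨y, hy, rfl⟩
  · let κ : {ν : ι // ν ≠ i} := ⟨k, Ne.symm hik⟩
    have h1 := hQ.ad _ _ _ κ (fun ν => if ν = κ then 0 else -(M ν 0 * (M k 0)⁻¹)) (if_pos rfl) hy
    have hne : -(M i 0 * (M k 0)⁻¹) ≠ 0 := neg_ne_zero.2 (mul_ne_zero hi (inv_ne_zero hk))
    have h2 := hQ.sc _ _ _ κ (-(M i 0 * (M k 0)⁻¹)) hne h1
    let e : {ν : ι // ν ≠ k} ≃ {ν : ι // ν ≠ i} := (Equiv.swap i k).subtypeEquiv (fun a => by
      rw [ne_eq, ne_eq, Equiv.swap_apply_eq_iff, Equiv.swap_apply_left])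
    have h3 := Dt_re _ _ _ e _ _ h2
    refine ⟨Nm (-(M i 0 * (M k 0)⁻¹)) + y, ?_, ?_⟩
    · convert h3 using 1
      funext ν l
      by_cases hν : (ν : ι) = i
      · have he : e ν = κ := Subtype.ext (by
          show Equiv.swap i k (ν : ι) = k
          rw [hν, Equiv.swap_apply_left])
        rw [if_pos he, he, if_pos rfl, zero_mul, add_zero]
        show M ν l.succ - M ν 0 * (M k 0)⁻¹ * M k l.succ = _
        rw [hν]
        exact (alg1 _ _ _ _ hi hk).symm
      · have he' : ((e ν : {ν : ι // ν ≠ i}) : ι) = ν := by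
          show Equiv.swap i k (ν : ι) = ν
          exact Equiv.swap_apply_of_ne_of_ne hν ν.2
        have he : e ν ≠ κ := by
          intro hh
          exact ν.2 (he'.symm.trans (congrArg Subtype.val hh))
        rw [if_neg he, if_neg he]
        unfold Sc
        rw [he']
        exact (alg2 _ _ _ _ _ _ hk).symm
    · rw [← add_assoc, add_comm (Nm (M k 0)), nm_div hN hm1 hi hk]

theorem QQ_all (hN : ∀ a b : D, a ≠ 0 → b ≠ 0 → Nm (a * b) = Nm a + Nm b) (hm1 : Nm (-1) = 0) :
    ∀ n, QQ Nm n := by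
  intro n
  induction n with
  | zero =>
    exact
      { sc := fun ι M x j c _ h => (h.1.false j).elim
        ad := fun ι M x j c _ h => h
        un := fun ι M x y h h' => by rw [h.2, h'.2] }
  | succ n hQ =>
    refine ⟨?_, ?_, ?_⟩
    · intro ι M x j c hc h
      obtain ⟨i, hi, y, hy, rfl⟩ := h
      by_cases hij : i = j
      · subst hij
        refine ⟨i, ?_, y, ?_, ?_⟩
        · dsimp only
          rw [if_pos rfl]
          exact mul_ne_zero hc hi
        · have h4 : Sc (fun ν k => if ν = i then c * M ν k else M ν k) i = Sc M i := by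
            funext ν l
            unfold Sc
            dsimp only
            rw [if_neg ν.2, if_neg ν.2, if_pos rfl, if_pos rfl, mul_inv_rev, mul_assoc (M ν 0),
              mul_assoc (M i 0)⁻¹, ← mul_assoc c⁻¹, inv_mul_cancel₀ hc, one_mul, mul_assoc]
          rw [h4]
          exact hy
        · dsimp only
          rw [if_pos rfl, hN _ _ hc hi, add_assoc]
      · refine ⟨i, ?_, Nm c + y, ?_, ?_⟩
        · dsimp only
          rw [if_neg hij]
          exact hi
        · have h1 := hQ.sc _ _ _ ⟨j, Ne.symm hij⟩ c hc hy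
          have h4 : Sc (fun ν k => if ν = j then c * M ν k else M ν k) i =
              fun ν k => if ν = ⟨j, Ne.symm hij⟩ then c * Sc M i ν k else Sc M i ν k := by
            funext ν l
            unfold Sc
            dsimp only
            rw [if_neg hij, if_neg hij]
            by_cases hν : (ν : ι) = j
            · rw [if_pos hν, if_pos hν, if_pos (Subtype.ext hν)]
              noncomm_ring
            · rw [if_neg hν, if_neg hν, if_neg (fun hh => hν (congrArg Subtype.val hh))]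
          rw [h4]
          convert h1
        · dsimp only
          rw [if_neg hij]
          abel
    · intro ι M x j c hcj h
      by_cases hj0 : M j 0 = 0
      · obtain ⟨i, hi, y, hy, rfl⟩ := h
        have hij : j ≠ i := by
          rintro rfl
          exact hi hj0
        refine ⟨i, ?_, y, ?_, ?_⟩
        · dsimp only
          rw [hj0, mul_zero, add_zero]
          exact hi
        · have h1 := hQ.ad _ _ _ (⟨j, hij⟩ : {ν : ι // ν ≠ i}) (fun ν => c ν - M ν 0 * (M i 0)⁻¹ * c i) (by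
            dsimp only
            rw [hcj, hj0]
            noncomm_ring) hy
          have h4 : Sc (fun ν k => M ν k + c ν * M j k) i =
              fun ν k => Sc M i ν k + (c ν - M ν 0 * (M i 0)⁻¹ * c i) * Sc M i ⟨j, hij⟩ k := by
            funext ν l
            unfold Sc
            dsimp only
            rw [hj0]
            noncomm_ring
          rw [h4]
          exact h1
        · dsimp only
          rw [hj0, mul_zero, add_zero]
      · obtain ⟨y, hy, rfl⟩ := piv hN hm1 hQ h hj0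
        refine ⟨j, ?_, y, ?_, ?_⟩
        · dsimp only
          rw [hcj, zero_mul, add_zero]
          exact hj0
        · have h4 : Sc (fun ν k => M ν k + c ν * M j k) j = Sc M j := by
            funext ν l
            unfold Sc
            dsimp only
            rw [hcj, zero_mul, zero_mul, add_zero, add_zero, add_mul, add_mul, mul_assoc (c ν),
              mul_inv_cancel₀ hj0, mul_one]
            abel
          rw [h4]
          exact hy
        · dsimp only
          rw [hcj, zero_mul, add_zero]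
    · intro ι M x x' h h'
      obtain ⟨k, hk, y', hy', rfl⟩ := h'
      obtain ⟨y, hy, rfl⟩ := piv hN hm1 hQ h hk
      rw [hQ.un _ _ _ _ hy hy']

end W441PT
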