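import Pool.Agent.W441.PT.Dd

/-! The Dieudonné determinant as a homomorphism on `K₁`. -/

set_option autoImplicit false

open scoped Classical

namespace W441PT

open H970SH Matrix

variable {D : Type} [DivisionRing D] {A : Type} [AddCommGroup A] {Nm : D → A}

/-- Invertible matrices have a determinant. -/
theorem Dt_ex : ∀ (n : ℕ) (ι : Type) [Fintype ι] [DecidableEq ι] (M : Matrix ι (Fin n) D)
    (W : Matrix (Fin n) ι D), M * W = 1 → W * M = 1 → ∃ x, Dt Nm n ι M x := by
  intro n
  induction n with
  | zero =>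
    intro ι _ _ M W h _
    refine ⟨0, ⟨fun i => ?_⟩, rfl⟩
    have h1 := congrFun (congrFun h i) i
    rw [Matrix.mul_apply, Matrix.one_apply_eq, Finset.univ_eq_empty, Finset.sum_empty] at h1
    exact zero_ne_one h1
  | succ n ih =>
    intro ι _ _ M W h h'
    -- the pivot
    have hp : ∃ i, M i 0 ≠ 0 := by
      by_contra hcon
      push Not at hcon
      have h1 := congrFun (congrFun h' 0) 0
      rw [Matrix.mul_apply, Matrix.one_apply_eq, Finset.sum_eq_zero] at h1
      · exact zero_ne_one h1
      · intro i _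
        rw [hcon i, mul_zero]
    obtain ⟨i, hi⟩ := hp
    let S : Matrix {ν : ι // ν ≠ i} (Fin n) D := Sc M i
    let W' : Matrix (Fin n) {ν : ι // ν ≠ i} D := fun p ν => W p.succ ν
    have h1 : ∀ ν κ : ι, ∑ p : Fin n, M ν p.succ * W p.succ κ =
        (1 : Matrix ι ι D) ν κ - M ν 0 * W 0 κ := by
      intro ν κ
      have h2 := congrFun (congrFun h ν) κ
      rw [Matrix.mul_apply, Fin.sum_univ_succ] at h2
      rw [← h2, add_sub_cancel_left]
    have hSW : S * W' = 1 := by
      ext ν κ
      rw [Matrix.mul_apply]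
      show ∑ p : Fin n, (M ν p.succ - M ν 0 * (M i 0)⁻¹ * M i p.succ) * W p.succ κ = _
      have h2 : ∀ p : Fin n, (M ν p.succ - M ν 0 * (M i 0)⁻¹ * M i p.succ) * W p.succ κ =
          M ν p.succ * W p.succ κ - M ν 0 * (M i 0)⁻¹ * (M i p.succ * W p.succ κ) := by
        intro p
        rw [sub_mul, mul_assoc (M ν 0 * (M i 0)⁻¹)]
      rw [Finset.sum_congr rfl (fun p _ => h2 p), Finset.sum_sub_distrib, ← Finset.mul_sum, h1, h1,
        Matrix.one_apply_ne (Ne.symm κ.2), zero_sub, mul_neg, mul_assoc (M ν 0),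
        ← mul_assoc (M i 0)⁻¹, inv_mul_cancel₀ hi, one_mul, sub_neg_eq_add, sub_add_cancel]
      rw [Matrix.one_apply, Matrix.one_apply]
      by_cases hνκ : ν = κ
      · rw [if_pos hνκ, if_pos (congrArg Subtype.val hνκ)]
      · rw [if_neg hνκ, if_neg (fun hh => hνκ (Subtype.ext hh))]
    have hWS : W' * S = 1 := by
      ext p q
      rw [Matrix.mul_apply]
      show ∑ ν : {ν : ι // ν ≠ i}, W p.succ ν * (M ν q.succ - M ν 0 * (M i 0)⁻¹ * M i q.succ) = _
      have h2 := Fintype.sum_eq_add_sum_subtype_ne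
        (fun ν : ι => W p.succ ν * (M ν q.succ - M ν 0 * (M i 0)⁻¹ * M i q.succ)) i
      have h3 : W p.succ i * (M i q.succ - M i 0 * (M i 0)⁻¹ * M i q.succ) = 0 := by
        rw [mul_inv_cancel₀ hi, one_mul, sub_self, mul_zero]
      rw [h3, zero_add] at h2
      rw [← h2]
      have h4 : ∀ ν : ι, W p.succ ν * (M ν q.succ - M ν 0 * (M i 0)⁻¹ * M i q.succ) =
          W p.succ ν * M ν q.succ - W p.succ ν * M ν 0 * ((M i 0)⁻¹ * M i q.succ) := by
        intro ν
        rw [mul_sub]
        simp only [mul_assoc]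
      have h5 := congrFun (congrFun h' p.succ) q.succ
      have h6 := congrFun (congrFun h' p.succ) 0
      rw [Matrix.mul_apply] at h5 h6
      rw [Finset.sum_congr rfl (fun ν _ => h4 ν), Finset.sum_sub_distrib, ← Finset.sum_mul, h5, h6,
        Matrix.one_apply_ne (Fin.succ_ne_zero p), zero_mul, sub_zero]
      rw [Matrix.one_apply, Matrix.one_apply]
      by_cases hpq : p = q
      · rw [if_pos hpq, if_pos (congrArg Fin.succ hpq)]
      · rw [if_neg hpq, if_neg (fun hh => hpq (Fin.succ_injective _ hh))]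
    obtain ⟨y, hy⟩ := ih _ S W' hSW hWS
    exact ⟨_, i, hi, y, hy, rfl⟩

/-- Permutation matrices. -/
theorem Dt_perm (hN : ∀ a b : D, a ≠ 0 → b ≠ 0 → Nm (a * b) = Nm a + Nm b) :
    ∀ (n : ℕ) (ι : Type) (e : ι ≃ Fin n),
      Dt Nm n ι (fun ν j => if e ν = j then (1 : D) else 0) 0 := by
  intro n
  induction n with
  | zero =>
    intro ι e
    exact ⟨⟨fun i => (e i).elim0⟩, rfl⟩
  | succ n ih =>
    intro ι e
    have h1 : ∀ ν : {ν : ι // ν ≠ e.symm 0}, e ν ≠ 0 := by
      rintro ⟨ν, hν⟩ h
      exact hν (by rw [Equiv.eq_symm_apply]; exact h)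
    let e' : {ν : ι // ν ≠ e.symm 0} ≃ Fin n :=
      { toFun := fun ν => (e ν).pred (h1 ν)
        invFun := fun k => ⟨e.symm k.succ, by
          intro h
          exact Fin.succ_ne_zero k (e.symm.injective h)⟩
        left_inv := fun ν => Subtype.ext (by
          show e.symm ((e ν).pred (h1 ν)).succ = ν
          rw [Fin.succ_pred, e.symm_apply_apply])
        right_inv := fun k => by
          apply Fin.succ_injective
          show ((e (e.symm k.succ)).pred _).succ = k.succ
          rw [Fin.succ_pred, e.apply_symm_apply] }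
    have h0 : (if e (e.symm 0) = 0 then (1 : D) else 0) = 1 := if_pos (e.apply_symm_apply 0)
    refine ⟨e.symm 0, ?_, 0, ?_, ?_⟩
    · dsimp only
      rw [h0]
      exact one_ne_zero
    · have h2 := ih _ e'
      have h3 : Sc (fun ν j => if e ν = j then (1 : D) else 0) (e.symm 0) =
          fun ν j => if e' ν = j then (1 : D) else 0 := by
        funext ν j
        unfold Sc
        dsimp only
        rw [if_neg (h1 ν), zero_mul, zero_mul, sub_zero]
        by_cases h : e' ν = j
        · rw [if_pos h, if_pos]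
          rw [← h]
          exact (Fin.succ_pred _ (h1 ν)).symm
        · rw [if_neg h, if_neg]
          intro hh
          apply h
          apply Fin.succ_injective
          rw [← hh]
          exact Fin.succ_pred _ (h1 ν)
      rw [h3]
      exact h2
    · dsimp only
      rw [h0, nm_one hN, add_zero]

/-- The determinant of an invertible matrix. -/
noncomputable def dd (Nm : D → A) {n : ℕ} (M : (Matrix (Fin n) (Fin n) D)ˣ) : A :=
  (Dt_ex (Nm := Nm) n (Fin n) M.val M.inv M.val_inv M.inv_val).choose

theorem dd_spec (Nm : D → A) {n : ℕ} (M : (Matrix (Fin n) (Fin n) D)ˣ) :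
    Dt Nm n (Fin n) M.val (dd Nm M) :=
  (Dt_ex (Nm := Nm) n (Fin n) M.val M.inv M.val_inv M.inv_val).choose_spec

/-- A diagonal matrix with one entry different from `1`. -/
def dg1 {n : Type} [Fintype n] [DecidableEq n] (k : n) (c : D) (hc : c ≠ 0) : (Matrix n n D)ˣ :=
  dgU (fun j => if j = k then c else 1) (fun j => by split_ifs; exacts [hc, one_ne_zero])

theorem dg1_mul {n : Type} [Fintype n] [DecidableEq n] (k : n) (c : D) (hc : c ≠ 0)
    (M : Matrix n n D) : (dg1 k c hc).val * M = fun i j => if i = k then c * M i j else M i j := by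
  ext i j
  show (Matrix.diagonal (fun j => if j = k then c else 1) * M) i j = _
  rw [Matrix.diagonal_mul, ite_mul, one_mul]

theorem WU_mul {n : Type} [Fintype n] [DecidableEq n] (i : n) (q : n → D) (hq : q i = 0)
    (M : Matrix n n D) : (WU i q hq).val * M = fun j k => M j k + q j * M i k := by
  ext j k
  have h := WU_mulVec i q hq (fun l => M l k) j
  exact h

/-- Generation of the general linear group. -/
theorem gen {n : Type} [Fintype n] [DecidableEq n] (H : Subgroup (Matrix n n D)ˣ)
    (hW : ∀ i q hq, WU i q hq ∈ H) (hd : ∀ k c hc, dg1 k c hc ∈ H) (N : (Matrix n n D)ˣ) :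
    N ∈ H := by
  have key : ∀ s : Finset n, ∃ P ∈ H, ∀ j ∈ s, ∀ i, (P * N).val i j = (1 : Matrix n n D) i j := by
    intro s
    induction s using Finset.induction_on with
    | empty => exact ⟨1, H.one_mem, by simp⟩
    | insert k s hk ih =>
      obtain ⟨P, hP, hPs⟩ := ih
      -- a non-zero entry of the column `k` in a row outside `s`
      have hne : ∃ i, i ∉ s ∧ (P * N).val i k ≠ 0 := by
        by_contra hcon
        push Not at hcon
        set G := (P * N).inv with hG
        have hG1 : G * (P * N).val = 1 := (P * N).inv_val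
        have h1 : (P * N).val.mulVec (Pi.single k 1) =
            (P * N).val.mulVec (fun j => if j ∈ s then (P * N).val j k else 0) := by
          rw [Matrix.mulVec_single_one]
          funext i
          show (P * N).val i k = ∑ j, (P * N).val i j * (if j ∈ s then (P * N).val j k else 0)
          have h2 : ∀ j, (P * N).val i j * (if j ∈ s then (P * N).val j k else 0) =
              if j = i then (if i ∈ s then (P * N).val i k else 0) else 0 := by
            intro j
            by_cases hj : j ∈ s
            · rw [if_pos hj, hPs j hj i, Matrix.one_apply]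
              by_cases hij : i = j
              · subst hij
                rw [if_pos rfl, if_pos rfl, if_pos hj, one_mul]
              · rw [if_neg hij, if_neg (Ne.symm hij), zero_mul]
            · rw [if_neg hj, mul_zero]
              by_cases hij : j = i
              · rw [if_pos hij, if_neg (hij ▸ hj)]
              · rw [if_neg hij]
          rw [Finset.sum_congr rfl (fun j _ => h2 j), Finset.sum_ite_eq', if_pos (Finset.mem_univ _)]
          by_cases hi : i ∈ s
          · rw [if_pos hi]
          · rw [if_neg hi, hcon i hi]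
        have h2 := congrArg G.mulVec h1
        rw [Matrix.mulVec_mulVec, Matrix.mulVec_mulVec, hG1, Matrix.one_mulVec,
          Matrix.one_mulVec] at h2
        have h3 := congrFun h2 k
        rw [Pi.single_eq_same, if_neg hk] at h3
        exact one_ne_zero h3
      obtain ⟨i, his, hi⟩ := hne
      -- make the diagonal entry non-zero
      have h2 : ∃ P ∈ H, (∀ j ∈ s, ∀ i, (P * N).val i j = (1 : Matrix n n D) i j) ∧
          (P * N).val k k ≠ 0 := by
        by_cases hkk : (P * N).val k k = 0
        · have hik : i ≠ k := by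
            rintro rfl
            exact hi hkk
          have hq : (Pi.single k (1 : D) : n → D) i = 0 := Pi.single_eq_of_ne hik _
          refine ⟨WU i (Pi.single k 1) hq * P, H.mul_mem (hW _ _ _) hP, ?_, ?_⟩
          · intro j hj l
            rw [mul_assoc, Units.val_mul, WU_mul]
            show (P * N).val l j + (Pi.single k (1 : D) : n → D) l * (P * N).val i j = _
            have hij' : i ≠ j := fun h => his (by rw [h]; exact hj)
            rw [hPs j hj, hPs j hj, Matrix.one_apply_ne hij', mul_zero, add_zero]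
          · rw [mul_assoc, Units.val_mul, WU_mul]
            show (P * N).val k k + (Pi.single k (1 : D) : n → D) k * (P * N).val i k ≠ 0
            rw [hkk, Pi.single_eq_same, one_mul, zero_add]
            exact hi
        · exact ⟨P, hP, hPs, hkk⟩
      obtain ⟨P, hP, hPs, hkk⟩ := h2
      -- scale
      have hck : ((P * N).val k k)⁻¹ ≠ 0 := inv_ne_zero hkk
      set P2 := dg1 k ((P * N).val k k)⁻¹ hck * P with hP2
      have hP2m : P2 ∈ H := H.mul_mem (hd _ _ _) hP
      have hP2s : ∀ j ∈ s, ∀ i, (P2 * N).val i j = (1 : Matrix n n D) i j := by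
        intro j hj l
        rw [hP2, mul_assoc, Units.val_mul, dg1_mul]
        show (if l = k then _ * (P * N).val l j else (P * N).val l j) = _
        have hkj' : k ≠ j := fun h => hk (by rw [h]; exact hj)
        by_cases hl : l = k
        · rw [if_pos hl, hPs j hj, hl, Matrix.one_apply_ne hkj', mul_zero]
        · rw [if_neg hl, hPs j hj]
      have hP2k : (P2 * N).val k k = 1 := by
        rw [hP2, mul_assoc, Units.val_mul, dg1_mul]
        show (if k = k then _ * (P * N).val k k else (P * N).val k k) = _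
        rw [if_pos rfl, inv_mul_cancel₀ hkk]
      -- clear the column
      let q : n → D := fun j => if j = k then 0 else -(P2 * N).val j k
      have hq : q k = 0 := if_pos rfl
      refine ⟨WU k q hq * P2, H.mul_mem (hW _ _ _) hP2m, ?_⟩
      intro j hj l
      rw [mul_assoc, Units.val_mul, WU_mul]
      show (P2 * N).val l j + q l * (P2 * N).val k j = _
      rcases Finset.mem_insert.1 hj with rfl | hj
      · rw [hP2k, mul_one]
        by_cases hl : l = j
        · subst hl
          rw [hP2k, hq, add_zero, Matrix.one_apply_eq]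
        · have : q l = -(P2 * N).val l j := if_neg hl
          rw [this, add_neg_cancel, Matrix.one_apply_ne hl]
      · have hkj' : k ≠ j := fun h => hk (by rw [h]; exact hj)
        rw [hP2s j hj, hP2s j hj, Matrix.one_apply_ne hkj', mul_zero, add_zero]
  obtain ⟨P, hP, hPN⟩ := key Finset.univ
  have h1 : P * N = 1 := Units.ext (Matrix.ext fun i j => hPN j (Finset.mem_univ _) i)
  rw [eq_inv_of_mul_eq_one_right h1]
  exact H.inv_mem hP

section hom

variable (hN : ∀ a b : D, a ≠ 0 → b ≠ 0 → Nm (a * b) = Nm a + Nm b) (hm1 : Nm (-1) = 0)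

include hN hm1

theorem dd_eq {n : ℕ} {M : (Matrix (Fin n) (Fin n) D)ˣ} {x : A}
    (h : Dt Nm n (Fin n) M.val x) : dd Nm M = x :=
  (QQ_all hN hm1 n).un _ _ _ _ (dd_spec Nm M) h

theorem dd_one {n : ℕ} : dd Nm (1 : (Matrix (Fin n) (Fin n) D)ˣ) = 0 := by
  apply dd_eq hN hm1
  have h := Dt_perm hN n (Fin n) (Equiv.refl _)
  have h2 : (fun (ν j : Fin n) => if Equiv.refl (Fin n) ν = j then (1 : D) else 0) =
      (1 : (Matrix (Fin n) (Fin n) D)ˣ).val := by
    funext ν j
    show _ = (1 : Matrix (Fin n) (Fin n) D) ν j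
    rw [Matrix.one_apply]
    congr 1
  rwa [h2] at h

theorem dd_WU {n : ℕ} (i : Fin n) (q : Fin n → D) (hq : q i = 0)
    (M : (Matrix (Fin n) (Fin n) D)ˣ) : dd Nm (WU i q hq * M) = dd Nm M := by
  apply dd_eq hN hm1
  rw [Units.val_mul, WU_mul]
  exact (QQ_all hN hm1 n).ad _ _ _ i q hq (dd_spec Nm M)

theorem dd_dg {n : ℕ} (k : Fin n) (c : D) (hc : c ≠ 0)
    (M : (Matrix (Fin n) (Fin n) D)ˣ) : dd Nm (dg1 k c hc * M) = Nm c + dd Nm M := by
  apply dd_eq hN hm1
  rw [Units.val_mul, dg1_mul]
  have h := (QQ_all hN hm1 n).sc _ _ _ k c hc (dd_spec Nm M)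
  convert h

theorem dd_mul {n : ℕ} (P M : (Matrix (Fin n) (Fin n) D)ˣ) :
    dd Nm (P * M) = dd Nm P + dd Nm M := by
  let H : Subgroup (Matrix (Fin n) (Fin n) D)ˣ :=
    { carrier := {P | ∀ M, dd Nm (P * M) = dd Nm P + dd Nm M}
      mul_mem' := by
        intro P Q hP hQ M
        have hP' : ∀ M, dd Nm (P * M) = dd Nm P + dd Nm M := hP
        have hQ' : ∀ M, dd Nm (Q * M) = dd Nm Q + dd Nm M := hQ
        rw [mul_assoc, hP', hQ', hP', add_assoc]
      one_mem' := by
        intro M
        rw [one_mul, dd_one hN hm1, zero_add]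
      inv_mem' := by
        intro P hP M
        have hP' : ∀ M, dd Nm (P * M) = dd Nm P + dd Nm M := hP
        have h1 := hP' (P⁻¹ * M)
        have h2 := hP' P⁻¹
        rw [mul_inv_cancel, dd_one hN hm1] at h2
        rw [mul_inv_cancel_left] at h1
        rw [h1, ← add_assoc, add_comm (dd Nm P⁻¹), ← h2, zero_add] }
  have h := gen H (by
    intro i q hq M
    have h1 := dd_WU hN hm1 i q hq 1
    rw [mul_one, dd_one hN hm1] at h1
    rw [dd_WU hN hm1, h1, zero_add]) (by
    intro k c hc M
    have h1 := dd_dg hN hm1 k c hc 1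
    rw [mul_one, dd_one hN hm1, add_zero] at h1
    rw [dd_dg hN hm1, h1]) P
  exact h M

theorem dd_conj {n : ℕ} (P M : (Matrix (Fin n) (Fin n) D)ˣ) :
    dd Nm (P * M * P⁻¹) = dd Nm M := by
  have h1 := dd_mul hN hm1 P P⁻¹
  rw [mul_inv_cancel, dd_one hN hm1] at h1
  rw [dd_mul hN hm1, dd_mul hN hm1, add_assoc, add_comm (dd Nm M), ← add_assoc, ← h1, zero_add]

theorem dd_reU {n : ℕ} (e : Fin n ≃ Fin n) (M : (Matrix (Fin n) (Fin n) D)ˣ) :
    dd Nm (reU e M) = dd Nm M := by
  rw [reU_conj]
  exact dd_conj hN hm1 _ _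

theorem dd_stab {n : ℕ} (M : (Matrix (Fin n) (Fin n) D)ˣ)
    (N : (Matrix (Fin (n + 1)) (Fin (n + 1)) D)ˣ)
    (hNM : (N : Matrix (Fin (n + 1)) (Fin (n + 1)) D) =
          Matrix.reindex finSumFinEquiv finSumFinEquiv
            (Matrix.fromBlocks (M : Matrix (Fin n) (Fin n) D) 0 0 (1 : Matrix (Fin 1) (Fin 1) D))) :
    dd Nm N = dd Nm M := by
  rw [← dd_reU hN hm1 (finRotate (n + 1)) N]
  apply dd_eq hN hm1
  -- entries
  have hr0 : (finRotate (n + 1)).symm 0 = finSumFinEquiv (Sum.inr (0 : Fin 1)) := by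
    rw [Equiv.symm_apply_eq]
    have : (finSumFinEquiv (Sum.inr (0 : Fin 1)) : Fin (n + 1)) = Fin.last n := by
      ext
      simp
    rw [this, finRotate_last]
  have hrs : ∀ j : Fin n, (finRotate (n + 1)).symm j.succ = finSumFinEquiv (Sum.inl j) := by
    intro j
    rw [Equiv.symm_apply_eq]
    have : (finSumFinEquiv (Sum.inl j) : Fin (n + 1)) = j.castSucc := by
      ext
      simp
    rw [this]
    ext
    rw [coe_finRotate_of_ne_last (Fin.castSucc_lt_last j).ne]
    simp
  have he : ∀ a b, (reU (finRotate (n + 1)) N).val a b =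
      (Matrix.fromBlocks (M : Matrix (Fin n) (Fin n) D) 0 0 (1 : Matrix (Fin 1) (Fin 1) D))
        (finSumFinEquiv.symm ((finRotate (n + 1)).symm a))
        (finSumFinEquiv.symm ((finRotate (n + 1)).symm b)) := by
    intro a b
    rw [reU_val, hNM]
    rfl
  have h00 : (reU (finRotate (n + 1)) N).val 0 0 = 1 := by
    rw [he, hr0, Equiv.symm_apply_apply]
    rfl
  have hs0 : ∀ i : Fin n, (reU (finRotate (n + 1)) N).val i.succ 0 = 0 := by
    intro i
    rw [he, hr0, hrs, Equiv.symm_apply_apply, Equiv.symm_apply_apply]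
    rfl
  have hss : ∀ i j : Fin n, (reU (finRotate (n + 1)) N).val i.succ j.succ = M.val i j := by
    intro i j
    rw [he, hrs, hrs, Equiv.symm_apply_apply, Equiv.symm_apply_apply]
    rfl
  refine ⟨0, ?_, dd Nm M, ?_, ?_⟩
  · rw [h00]
    exact one_ne_zero
  · let e : {ν : Fin (n + 1) // ν ≠ 0} ≃ Fin n :=
      { toFun := fun ν => (ν : Fin (n + 1)).pred ν.2
        invFun := fun k => ⟨k.succ, Fin.succ_ne_zero k⟩
        left_inv := fun ν => Subtype.ext (Fin.succ_pred _ ν.2)
        right_inv := fun k => Fin.pred_succ k }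
    have h := Dt_re n _ _ e _ _ (dd_spec Nm M)
    have h2 : Sc (reU (finRotate (n + 1)) N).val 0 = fun ν => M.val (e ν) := by
      funext ν j
      obtain ⟨i, rfl⟩ := e.symm.surjective ν
      show (reU (finRotate (n + 1)) N).val i.succ j.succ - (reU (finRotate (n + 1)) N).val i.succ 0
        * _ * _ = M.val (e (e.symm i)) j
      rw [hss, hs0, zero_mul, zero_mul, sub_zero, e.apply_symm_apply]
    rw [h2]
    exact h
  · rw [h00, nm_one hN, zero_add]

/-- A homomorphism on the multiplicative group of a division ring which kills `-1` extends to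
`K₁`. -/
theorem exists_K1_hom : ∃ h : K1 D →+ A, ∀ d (hd : d ≠ 0), h (el d hd) = Nm d := by
  let f : FreeAbelianGroup (Σ n : ℕ, (Matrix (Fin n) (Fin n) D)ˣ) →+ A :=
    FreeAbelianGroup.lift fun p => dd Nm p.2
  refine ⟨QuotientAddGroup.lift _ f ?_, ?_⟩
  · rw [AddSubgroup.closure_le]
    rintro x (⟨n, M, N, rfl⟩ | ⟨n, M, N, h, rfl⟩)
    · show f _ = 0
      rw [map_sub, map_add, FreeAbelianGroup.lift_apply_of, FreeAbelianGroup.lift_apply_of,
        FreeAbelianGroup.lift_apply_of]
      dsimp only
      rw [dd_mul hN hm1, sub_self]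
    · show f _ = 0
      rw [map_sub, FreeAbelianGroup.lift_apply_of, FreeAbelianGroup.lift_apply_of]
      dsimp only
      rw [dd_stab hN hm1 M N h, sub_self]
  · intro d hd
    show f (FreeAbelianGroup.of ⟨1, oneU d hd⟩) = _
    rw [FreeAbelianGroup.lift_apply_of]
    dsimp only
    have h1 : oneU d hd = dg1 0 d hd * 1 := by
      rw [mul_one]
      apply Units.ext
      ext i j
      rw [Subsingleton.elim i 0, Subsingleton.elim j 0]
      show d = (Matrix.diagonal (fun j : Fin 1 => if j = 0 then d else 1)) 0 0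
      rw [Matrix.diagonal_apply_eq, if_pos rfl]
    rw [h1, dd_dg hN hm1, dd_one hN hm1, add_zero]

end hom

end W441PT
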