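import Mathlib

/-! A criterion for the difference of two polytopes to be a polytope. -/

set_option autoImplicit false

open scoped Pointwise Topology

namespace W441PT

variable {V : Type} [AddCommGroup V] [Module ℝ V]

/-- Separation of a point from a polytope. -/
theorem sep [Module.Finite ℝ V] (S : Finset V) (x : V) (hx : x ∉ convexHull ℝ (S : Set V)) :
    ∃ α : V →ₗ[ℝ] ℝ, ∀ s ∈ S, α s < α x := by
  let e := (Module.finBasis ℝ V).equivFun
  have h1 : e x ∉ convexHull ℝ (e '' (S : Set V)) := by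
    intro h
    have h2 : convexHull ℝ (e '' (S : Set V)) = e '' convexHull ℝ (S : Set V) :=
      (LinearMap.image_convexHull (𝕜 := ℝ) e.toLinearMap (S : Set V)).symm
    rw [h2] at h
    obtain ⟨y, hy, hyx⟩ := h
    exact hx (e.injective hyx ▸ hy)
  have h2 : IsClosed (convexHull ℝ (e '' (S : Set V))) :=
    ((S.finite_toSet.image e).isCompact_convexHull ℝ).isClosed
  obtain ⟨f, c, hf, hc⟩ := geometric_hahn_banach_closed_point (convex_convexHull ℝ _) h2 h1
  refine ⟨f.toLinearMap ∘ₗ e.toLinearMap, fun s hs => ?_⟩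
  exact (hf _ (subset_convexHull ℝ _ ⟨s, hs, rfl⟩)).trans hc

/-- A linear form which is injective on a finite set. -/
theorem exists_inj [Module.Finite ℝ V] (F : Finset V) :
    ∃ β : V →ₗ[ℝ] ℝ, ∀ x ∈ F, ∀ y ∈ F, x ≠ y → β x ≠ β y := by
  obtain ⟨β, hβ⟩ := Module.exists_dual_forall_apply_ne_zero (K := ℝ)
    (ι := {p : F × F // p.1 ≠ p.2}) (fun p => (p.1.1 : V) - (p.1.2 : V)) (by
      rintro ⟨⟨x, y⟩, h⟩
      exact sub_ne_zero.2 fun h' => h (Subtype.ext h'))
  refine ⟨β, fun x hx y hy hxy h => ?_⟩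
  have := hβ ⟨⟨⟨x, hx⟩, ⟨y, hy⟩⟩, fun h' => hxy (congrArg Subtype.val h')⟩
  apply this
  rw [map_sub, h, sub_self]

/-- Small perturbations keep strict inequalities. -/
theorem small_pert (α β : V →ₗ[ℝ] ℝ) (F : Finset (V × V)) (hF : ∀ p ∈ F, α p.1 < α p.2) :
    ∀ᶠ s : ℝ in 𝓝[>] 0, ∀ p ∈ F, (α + s • β) p.1 < (α + s • β) p.2 := by
  rw [Filter.eventually_all_finset]
  intro p hp
  have hc : Continuous fun s : ℝ => (α + s • β) p.2 - (α + s • β) p.1 := by
    simp only [LinearMap.add_apply, LinearMap.smul_apply, smul_eq_mul]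
    fun_prop
  have h0 : 0 < (fun s : ℝ => (α + s • β) p.2 - (α + s • β) p.1) 0 := by
    have := hF p hp
    simp only [LinearMap.add_apply, LinearMap.smul_apply, smul_eq_mul]
    linarith
  have h1 := (hc.tendsto 0).eventually (lt_mem_nhds h0)
  exact (h1.filter_mono nhdsWithin_le_nhds).mono fun s hs => by simpa using hs

/-- Generic perturbations. -/
theorem gen_pert [Module.Finite ℝ V] (α : V →ₗ[ℝ] ℝ) (G : Finset V) (F : Finset (V × V))
    (hF : ∀ p ∈ F, α p.1 < α p.2) :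
    ∃ α' : V →ₗ[ℝ] ℝ, (∀ p ∈ F, α' p.1 < α' p.2) ∧ ∀ x ∈ G, ∀ y ∈ G, x ≠ y → α' x ≠ α' y := by
  classical
  obtain ⟨β, hβ⟩ := exists_inj G
  have h2 : ∀ᶠ s : ℝ in 𝓝[>] 0, ∀ p ∈ (G ×ˢ G).filter fun p => p.1 ≠ p.2,
      (α + s • β) p.1 ≠ (α + s • β) p.2 := by
    rw [Filter.eventually_all_finset]
    rintro ⟨x, y⟩ hp
    rw [Finset.mem_filter, Finset.mem_product] at hp
    have hb : β x - β y ≠ 0 := sub_ne_zero.2 (hβ x hp.1.1 y hp.1.2 hp.2)
    by_cases ha : α x = α y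
    · filter_upwards [self_mem_nhdsWithin] with s hs
      have hs' : (0 : ℝ) < s := hs
      intro h
      simp only [LinearMap.add_apply, LinearMap.smul_apply, smul_eq_mul] at h
      rw [ha] at h
      have h3 : s * (β x - β y) = 0 := by linarith
      rcases mul_eq_zero.1 h3 with h4 | h4
      · exact hs'.ne' h4
      · exact hb h4
    · have hc : Continuous fun s : ℝ => (α + s • β) x - (α + s • β) y := by
        simp only [LinearMap.add_apply, LinearMap.smul_apply, smul_eq_mul]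
        fun_prop
      have h0 : (fun s : ℝ => (α + s • β) x - (α + s • β) y) 0 ≠ 0 := by
        simp only [LinearMap.add_apply, LinearMap.smul_apply, smul_eq_mul, zero_mul, add_zero]
        exact sub_ne_zero.2 ha
      have h1 := (hc.tendsto 0).eventually_ne h0
      exact (h1.filter_mono nhdsWithin_le_nhds).mono fun s hs => sub_ne_zero.1 hs
  obtain ⟨s, h1, h2⟩ := ((small_pert α β F hF).and h2).exists
  refine ⟨α + s • β, h1, fun x hx y hy hxy => h2 (x, y) ?_⟩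
  rw [Finset.mem_filter, Finset.mem_product]
  exact ⟨⟨hx, hy⟩, hxy⟩

/-- The maximum of a linear form on a finite set. -/
noncomputable def mx (A : Finset V) (α : V →ₗ[ℝ] ℝ) : ℝ := sSup (α '' (A : Set V))

theorem mx_spec (A : Finset V) (hA : A.Nonempty) (α : V →ₗ[ℝ] ℝ) :
    (∀ a ∈ A, α a ≤ mx A α) ∧ ∃ a ∈ A, mx A α = α a := by
  obtain ⟨a, ha, hmax⟩ := A.exists_max_image α hA
  have h : IsGreatest (α '' (A : Set V)) (α a) := by
    refine ⟨⟨a, ha, rfl⟩, ?_⟩
    rintro _ ⟨b, hb, rfl⟩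
    exact hmax b hb
  have h2 : mx A α = α a := h.csSup_eq
  exact ⟨fun b hb => by rw [h2]; exact hmax b hb, a, ha, h2⟩

theorem mx_eq (A : Finset V) (α : V →ₗ[ℝ] ℝ) (p : V) (hp : p ∈ A) (h : ∀ a ∈ A, α a ≤ α p) :
    mx A α = α p := by
  have h' : IsGreatest (α '' (A : Set V)) (α p) := by
    refine ⟨⟨p, hp, rfl⟩, ?_⟩
    rintro _ ⟨b, hb, rfl⟩
    exact h b hb
  exact h'.csSup_eq

/-- The tangent inequality. -/
theorem tangent (A B : Finset V) (Λ : Set (V →ₗ[ℝ] ℝ))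
    (hdens : ∀ (γ : V →ₗ[ℝ] ℝ) (F : Finset V) (ε : ℝ), 0 < ε → ∃ l ∈ Λ, ∀ v ∈ F, |γ v - l v| < ε)
    (hconv : ∀ l ∈ Λ, ∀ α : V →ₗ[ℝ] ℝ, ∀ s : ℝ, 0 ≤ s → s ≤ 1 →
      mx A (α + s • l) - mx B (α + s • l) ≤
        (1 - s) * (mx A α - mx B α) + s * (mx A (α + l) - mx B (α + l)))
    (α : V →ₗ[ℝ] ℝ) (p q : V) (hp : p ∈ A) (hq : q ∈ B) (hpm : ∀ a ∈ A, a ≠ p → α a < α p)
    (hqm : ∀ b ∈ B, b ≠ q → α b < α q) (β : V →ₗ[ℝ] ℝ) :
    β (p - q) ≤ mx A β - mx B β := by
  classical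
  -- the size of the perturbation
  have hε : ∃ ε : ℝ, 0 < ε ∧ (∀ a ∈ A, a ≠ p → α a + 2 * ε ≤ α p) ∧
      (∀ b ∈ B, b ≠ q → α b + 2 * ε ≤ α q) := by
    have h1 : ∀ᶠ ε : ℝ in 𝓝[>] 0, ∀ a ∈ A.filter (· ≠ p), α a + 2 * ε ≤ α p := by
      rw [Filter.eventually_all_finset]
      intro a ha
      rw [Finset.mem_filter] at ha
      have h2 := hpm a ha.1 ha.2
      have hc : Continuous fun ε : ℝ => α a + 2 * ε := by fun_prop
      have h3 := (hc.tendsto 0).eventually (gt_mem_nhds (a := α p) (by simpa using h2))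
      exact (h3.filter_mono nhdsWithin_le_nhds).mono fun ε hε => le_of_lt hε
    have h2 : ∀ᶠ ε : ℝ in 𝓝[>] 0, ∀ b ∈ B.filter (· ≠ q), α b + 2 * ε ≤ α q := by
      rw [Filter.eventually_all_finset]
      intro a ha
      rw [Finset.mem_filter] at ha
      have h2 := hqm a ha.1 ha.2
      have hc : Continuous fun ε : ℝ => α a + 2 * ε := by fun_prop
      have h3 := (hc.tendsto 0).eventually (gt_mem_nhds (a := α q) (by simpa using h2))
      exact (h3.filter_mono nhdsWithin_le_nhds).mono fun ε hε => le_of_lt hε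
    have h0 : ∀ᶠ ε : ℝ in 𝓝[>] 0, ε ∈ Set.Ioi (0 : ℝ) := self_mem_nhdsWithin
    obtain ⟨ε, h3, h4, h5⟩ := (h0.and (h1.and h2)).exists
    exact ⟨ε, h3, fun a ha hap => h4 a (Finset.mem_filter.2 ⟨ha, hap⟩),
      fun b hb hbq => h5 b (Finset.mem_filter.2 ⟨hb, hbq⟩)⟩
  obtain ⟨ε, hε0, hεp, hεq⟩ := hε
  obtain ⟨l, hl, hclose⟩ := hdens (β - α) (A ∪ B) ε hε0
  set α' := β - l with hα'
  have hα'c : ∀ v ∈ A ∪ B, |α' v - α v| < ε := by
    intro v hv
    have := hclose v hv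
    rw [LinearMap.sub_apply] at this
    rw [hα', LinearMap.sub_apply]
    have e : β v - l v - α v = β v - α v - l v := by ring
    rwa [e]
  have hp' : ∀ a ∈ A, a ≠ p → α' a < α' p := by
    intro a ha hap
    have h1 := abs_lt.1 (hα'c a (Finset.mem_union_left _ ha))
    have h2 := abs_lt.1 (hα'c p (Finset.mem_union_left _ hp))
    have h3 := hεp a ha hap
    linarith
  have hq' : ∀ b ∈ B, b ≠ q → α' b < α' q := by
    intro a ha hap
    have h1 := abs_lt.1 (hα'c a (Finset.mem_union_right _ ha))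
    have h2 := abs_lt.1 (hα'c q (Finset.mem_union_right _ hq))
    have h3 := hεq a ha hap
    linarith
  -- a small step in the direction `l`
  have hs1 := small_pert α' l ((A.filter (· ≠ p)).image fun a => (a, p)) (by
    intro x hx
    obtain ⟨a, ha, rfl⟩ := Finset.mem_image.1 hx
    rw [Finset.mem_filter] at ha
    exact hp' a ha.1 ha.2)
  have hs2 := small_pert α' l ((B.filter (· ≠ q)).image fun a => (a, q)) (by
    intro x hx
    obtain ⟨a, ha, rfl⟩ := Finset.mem_image.1 hx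
    rw [Finset.mem_filter] at ha
    exact hq' a ha.1 ha.2)
  have hs3 : ∀ᶠ s : ℝ in 𝓝[>] 0, s ≤ 1 := by
    have h3 := (Filter.tendsto_id (α := ℝ) (x := 𝓝 0)).eventually
      (gt_mem_nhds (a := (1 : ℝ)) (by norm_num))
    exact (h3.filter_mono nhdsWithin_le_nhds).mono fun ε hε => le_of_lt hε
  have hs0 : ∀ᶠ ε : ℝ in 𝓝[>] 0, ε ∈ Set.Ioi (0 : ℝ) := self_mem_nhdsWithin
  obtain ⟨s, hs0, hs1, hs2, hs3⟩ := (hs0.and (hs1.and (hs2.and hs3))).exists
  have hs0' : 0 < s := hs0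
  have hA1 : mx A (α' + s • l) = (α' + s • l) p := by
    apply mx_eq A _ p hp
    intro a ha
    by_cases hap : a = p
    · rw [hap]
    · exact le_of_lt (hs1 (a, p) (Finset.mem_image.2 ⟨a, Finset.mem_filter.2 ⟨ha, hap⟩, rfl⟩))
  have hB1 : mx B (α' + s • l) = (α' + s • l) q := by
    apply mx_eq B _ q hq
    intro a ha
    by_cases hap : a = q
    · rw [hap]
    · exact le_of_lt (hs2 (a, q) (Finset.mem_image.2 ⟨a, Finset.mem_filter.2 ⟨ha, hap⟩, rfl⟩))
  have hA2 : mx A α' = α' p := by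
    apply mx_eq A _ p hp
    intro a ha
    by_cases hap : a = p
    · rw [hap]
    · exact le_of_lt (hp' a ha hap)
  have hB2 : mx B α' = α' q := by
    apply mx_eq B _ q hq
    intro a ha
    by_cases hap : a = q
    · rw [hap]
    · exact le_of_lt (hq' a ha hap)
  have h := hconv l hl α' s hs0'.le hs3
  have hβ : α' + l = β := by rw [hα', sub_add_cancel]
  rw [hA1, hB1, hA2, hB2, hβ] at h
  simp only [LinearMap.add_apply, LinearMap.smul_apply, smul_eq_mul] at h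
  have hβp : β p = α' p + l p := by rw [← hβ, LinearMap.add_apply]
  have hβq : β q = α' q + l q := by rw [← hβ, LinearMap.add_apply]
  have h4 : s * (β p - β q) ≤ s * (mx A β - mx B β) := by
    rw [hβp, hβq]
    nlinarith
  rw [map_sub]
  exact le_of_mul_le_mul_left h4 hs0'

/-- The criterion. -/
theorem geo [Module.Finite ℝ V] (A B : Finset V) (hA : A.Nonempty) (hB : B.Nonempty)
    (Λ : Set (V →ₗ[ℝ] ℝ))
    (hdens : ∀ (γ : V →ₗ[ℝ] ℝ) (F : Finset V) (ε : ℝ), 0 < ε → ∃ l ∈ Λ, ∀ v ∈ F, |γ v - l v| < ε)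
    (hconv : ∀ l ∈ Λ, ∀ α : V →ₗ[ℝ] ℝ, ∀ s : ℝ, 0 ≤ s → s ≤ 1 →
      mx A (α + s • l) - mx B (α + s • l) ≤
        (1 - s) * (mx A α - mx B α) + s * (mx A (α + l) - mx B (α + l))) :
    ∃ R : Finset V, R.Nonempty ∧
      convexHull ℝ (A : Set V) = convexHull ℝ (B : Set V) + convexHull ℝ (R : Set V) := by
  classical
  -- strict maxima of generic linear forms
  have hmax : ∀ (C : Finset V), C.Nonempty → ∀ α : V →ₗ[ℝ] ℝ,
      (∀ x ∈ C, ∀ y ∈ C, x ≠ y → α x ≠ α y) → ∃ p ∈ C, ∀ a ∈ C, a ≠ p → α a < α p := by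
    intro C hC α hα
    obtain ⟨p, hp, hpm⟩ := C.exists_max_image α hC
    exact ⟨p, hp, fun a ha hap => lt_of_le_of_ne (hpm a ha) (hα a ha p hp hap)⟩
  set R : Finset V := ((A ×ˢ B).filter fun x => ∃ α : V →ₗ[ℝ] ℝ,
    (∀ a ∈ A, a ≠ x.1 → α a < α x.1) ∧ (∀ b ∈ B, b ≠ x.2 → α b < α x.2)).image
      fun x => x.1 - x.2 with hR
  have hRmem : ∀ (α : V →ₗ[ℝ] ℝ) (p q : V), p ∈ A → q ∈ B → (∀ a ∈ A, a ≠ p → α a < α p) →
      (∀ b ∈ B, b ≠ q → α b < α q) → p - q ∈ R := by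
    intro α p q hp hq h1 h2
    exact Finset.mem_image.2 ⟨(p, q), Finset.mem_filter.2 ⟨Finset.mem_product.2 ⟨hp, hq⟩,
      α, h1, h2⟩, rfl⟩
  refine ⟨R, ?_, ?_⟩
  · obtain ⟨α, -, hα⟩ := gen_pert (0 : V →ₗ[ℝ] ℝ) (A ∪ B) ∅ (by simp)
    obtain ⟨p, hp, hpm⟩ := hmax A hA α fun x hx y hy =>
      hα x (Finset.mem_union_left _ hx) y (Finset.mem_union_left _ hy)
    obtain ⟨q, hq, hqm⟩ := hmax B hB α fun x hx y hy =>
      hα x (Finset.mem_union_right _ hx) y (Finset.mem_union_right _ hy)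
    exact ⟨_, hRmem α p q hp hq hpm hqm⟩
  · rw [← convexHull_add, ← Finset.coe_add]
    apply Set.Subset.antisymm
    · apply convexHull_min _ (convex_convexHull ℝ _)
      intro a ha
      by_contra hcon
      obtain ⟨α0, hα0⟩ := sep (B + R) a hcon
      obtain ⟨α, hα1, hα2⟩ := gen_pert α0 (A ∪ B) ((B + R).image fun x => (x, a)) (by
        intro x hx
        obtain ⟨y, hy, rfl⟩ := Finset.mem_image.1 hx
        exact hα0 y hy)
      obtain ⟨p, hp, hpm⟩ := hmax A hA α fun x hx y hy =>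
        hα2 x (Finset.mem_union_left _ hx) y (Finset.mem_union_left _ hy)
      obtain ⟨q, hq, hqm⟩ := hmax B hB α fun x hx y hy =>
        hα2 x (Finset.mem_union_right _ hx) y (Finset.mem_union_right _ hy)
      have h1 : p ∈ B + R := by
        have := Finset.add_mem_add hq (hRmem α p q hp hq hpm hqm)
        rwa [add_sub_cancel] at this
      have h2 : α p < α a := hα1 (p, a) (Finset.mem_image.2 ⟨p, h1, rfl⟩)
      by_cases hap : a = p
      · rw [hap] at h2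
        exact lt_irrefl _ h2
      · exact lt_asymm h2 (hpm a ha hap)
    · apply convexHull_min _ (convex_convexHull ℝ _)
      intro x hx
      obtain ⟨b, hb, r, hr, rfl⟩ := Finset.mem_add.1 (Finset.mem_coe.1 hx)
      obtain ⟨⟨p, q⟩, hpq, rfl⟩ := Finset.mem_image.1 hr
      rw [Finset.mem_filter, Finset.mem_product] at hpq
      obtain ⟨⟨hp, hq⟩, α, hpm, hqm⟩ := hpq
      by_contra hcon
      obtain ⟨β, hβ⟩ := sep A _ hcon
      have h1 := tangent A B Λ hdens hconv α p q hp hq hpm hqm β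
      have h2 := (mx_spec B hB β).1 b hb
      obtain ⟨a, ha, h3⟩ := (mx_spec A hA β).2
      have h4 := hβ a ha
      rw [map_add] at h4
      dsimp only at h1 h4
      linarith

end W441PT
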