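import Pool.Agent.W441.PT.New
import Pool.Agent.W441.PT.Geo
import Pool.Agent.Helper970.TN.P_eval_surj
import Pool.Agent.Helper970.TN.P_hom_power
import Pool.Agent.Helper970.TN.P_exists_beta

/-! Density of the rational directions, and the second difference of support functions. -/

set_option autoImplicit false

open scoped Pointwise Topology TensorProduct

namespace W441PT

open TN970

section hom

variable {Γ : Type} [Group Γ]

theorem cl_ext {M : Type} [AddCommGroup M] [Module ℝ M] {f f' : H1R Γ →ₗ[ℝ] M}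
    (h : ∀ g, f (cl g) = f' (cl g)) : f = f' := by
  refine LinearMap.ext fun x => ?_
  induction x using TensorProduct.induction_on with
  | zero => rw [map_zero, map_zero]
  | add x y hx hy => rw [map_add, map_add, hx, hy]
  | tmul r a =>
    obtain ⟨g, hg⟩ := QuotientGroup.mk_surjective (Additive.toMul a)
    have h1 : r ⊗ₜ[ℤ] a = r • cl g := by
      unfold cl
      rw [TensorProduct.smul_tmul', smul_eq_mul, mul_one]
      congr 1
      rw [← ofMul_toMul a]
      exact congrArg Additive.ofMul hg.symm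
    rw [h1, map_smul, map_smul, h]

theorem linF_mul (φ ψ : Γ →* Multiplicative ℤ) : linF (φ * ψ) = linF φ + linF ψ := by
  apply cl_ext
  intro g
  rw [LinearMap.add_apply, linF_cl, linF_cl, linF_cl, MonoidHom.mul_apply, toAdd_mul,
    Int.cast_add]

theorem linF_one : linF (1 : Γ →* Multiplicative ℤ) = 0 := by
  apply cl_ext
  intro g
  rw [linF_cl, MonoidHom.one_apply, toAdd_one, Int.cast_zero, LinearMap.zero_apply]

theorem linF_zpow (φ : Γ →* Multiplicative ℤ) (k : ℤ) : linF (φ ^ k) = (k : ℝ) • linF φ := by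
  apply cl_ext
  intro g
  rw [LinearMap.smul_apply, linF_cl, linF_cl, eb_toAdd, Int.cast_mul, smul_eq_mul]

theorem linF_prod {ι : Type} (s : Finset ι) (φ : ι → Γ →* Multiplicative ℤ) :
    linF (∏ i ∈ s, φ i) = ∑ i ∈ s, linF (φ i) := by
  classical
  induction s using Finset.induction_on with
  | empty => rw [Finset.prod_empty, Finset.sum_empty, linF_one]
  | insert i s hi ih => rw [Finset.prod_insert hi, Finset.sum_insert hi, linF_mul, ih]

/-- The linear forms on `H_1(Γ; ℝ)` are combinations of homomorphisms to `ℤ`. -/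
theorem dual_span [Group.FG Γ] (γ : H1R Γ →ₗ[ℝ] ℝ) :
    ∃ (ι : Type) (_ : Fintype ι) (c : ι → ℝ) (φ : ι → Γ →* Multiplicative ℤ),
      γ = ∑ i, c i • linF (φ i) := by
  haveI := eval_surj_fg Γ
  let A := Additive (Abelianization Γ)
  let T := Submodule.torsion ℤ A
  haveI hfree : Module.Free ℤ (A ⧸ T) := inferInstance
  haveI hfin : Module.Finite ℤ (A ⧸ T) := inferInstance
  let b := Module.Free.chooseBasis ℤ (A ⧸ T)
  let γ' : A →ₗ[ℤ] ℝ :=
    { toFun := fun a => γ ((1 : ℝ) ⊗ₜ[ℤ] a)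
      map_add' := fun a b => by rw [TensorProduct.tmul_add, map_add]
      map_smul' := fun k a => by
        show γ ((1 : ℝ) ⊗ₜ[ℤ] (k • a)) = k • γ ((1 : ℝ) ⊗ₜ[ℤ] a)
        rw [TensorProduct.tmul_smul, map_zsmul] }
  have hT : T ≤ LinearMap.ker γ' := by
    intro x hx
    have hx' : x ∈ Submodule.torsion ℤ A := hx
    rw [Submodule.mem_torsion_iff] at hx'
    obtain ⟨a, ha⟩ := hx'
    rw [LinearMap.mem_ker]
    have h1 : γ' ((a : ℤ) • x) = 0 := by
      have : (a : ℤ) • x = a • x := rfl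
      rw [this, ha, map_zero]
    rw [map_smul] at h1
    rcases smul_eq_zero.1 h1 with h2 | h2
    · exact absurd h2 (nonZeroDivisors.coe_ne_zero a)
    · exact h2
  let g : (A ⧸ T) →ₗ[ℤ] ℝ := T.liftQ γ' hT
  refine ⟨_, inferInstance, fun i => g (b i), fun i => Additive.toMul (eval_surj_fw (b.coord i)), ?_⟩
  apply cl_ext
  intro x
  have h1 : γ (cl x) = g (Submodule.Quotient.mk (Additive.ofMul (Abelianization.of x))) := rfl
  rw [h1]
  conv_lhs => rw [← b.sum_repr (Submodule.Quotient.mk (Additive.ofMul (Abelianization.of x)))]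
  rw [map_sum, LinearMap.sum_apply]
  refine Finset.sum_congr rfl fun i _ => ?_
  rw [map_smul, LinearMap.smul_apply, linF_cl, smul_eq_mul, zsmul_eq_mul, mul_comm]
  rfl

theorem finite_H1R [Group.FG Γ] : Module.Finite ℝ (H1R Γ) := by
  haveI := eval_surj_fg Γ
  infer_instance

/-- Density of the rational directions. -/
theorem dense_dir [Group.FG Γ] (φ0 : Γ →* Multiplicative ℤ) (hφ0 : Function.Surjective φ0)
    (γ : H1R Γ →ₗ[ℝ] ℝ) (F : Finset (H1R Γ)) (ε : ℝ) (hε : 0 < ε) :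
    ∃ (c : ℝ) (φ : Γ →* Multiplicative ℤ), Function.Surjective φ ∧
      ∀ v ∈ F, |γ v - (c • linF φ) v| < ε := by
  obtain ⟨ι, hι, c, φ, rfl⟩ := dual_span γ
  -- a common denominator
  have hN : ∃ N : ℕ, 0 < N ∧ ∀ v ∈ F, (∑ i, |linF (φ i) v|) < ε * N := by
    have h1 : ∀ᶠ N : ℕ in Filter.atTop, ∀ v ∈ F, (∑ i, |linF (φ i) v|) < ε * N := by
      rw [Filter.eventually_all_finset]
      intro v _
      have h2 : Filter.Tendsto (fun N : ℕ => ε * (N : ℝ)) Filter.atTop Filter.atTop :=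
        Filter.Tendsto.const_mul_atTop hε tendsto_natCast_atTop_atTop
      exact h2.eventually_gt_atTop _
    obtain ⟨N, h2, h3⟩ := (h1.and (Filter.eventually_gt_atTop 0)).exists
    exact ⟨N, h3, h2⟩
  obtain ⟨N, hN0, hN⟩ := hN
  have hN0' : (0 : ℝ) < N := by exact_mod_cast hN0
  set ψ : Γ →* Multiplicative ℤ := ∏ i, φ i ^ ⌊(N : ℝ) * c i⌋ with hψ
  have hψF : linF ψ = ∑ i, (⌊(N : ℝ) * c i⌋ : ℝ) • linF (φ i) := by
    rw [hψ, linF_prod]
    refine Finset.sum_congr rfl fun i _ => ?_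
    rw [linF_zpow]
  have hclose : ∀ v ∈ F, |(∑ i, c i • linF (φ i)) v - ((N : ℝ)⁻¹ • linF ψ) v| < ε := by
    intro v hv
    have h1 : (∑ i, c i • linF (φ i)) v - ((N : ℝ)⁻¹ • linF ψ) v =
        ∑ i, (c i - (N : ℝ)⁻¹ * ⌊(N : ℝ) * c i⌋) * linF (φ i) v := by
      rw [hψF, LinearMap.smul_apply, LinearMap.sum_apply, LinearMap.sum_apply, smul_eq_mul,
        Finset.mul_sum, ← Finset.sum_sub_distrib]
      refine Finset.sum_congr rfl fun i _ => ?_
      rw [LinearMap.smul_apply, LinearMap.smul_apply, smul_eq_mul, smul_eq_mul]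
      ring
    rw [h1]
    have h2 : |∑ i, (c i - (N : ℝ)⁻¹ * ⌊(N : ℝ) * c i⌋) * linF (φ i) v| ≤
        ∑ i, (N : ℝ)⁻¹ * |linF (φ i) v| := by
      refine (Finset.abs_sum_le_sum_abs _ _).trans (Finset.sum_le_sum fun i _ => ?_)
      rw [abs_mul]
      refine mul_le_mul_of_nonneg_right ?_ (abs_nonneg _)
      have h3 := Int.floor_le ((N : ℝ) * c i)
      have h4 := Int.lt_floor_add_one ((N : ℝ) * c i)
      have h5 : c i - (N : ℝ)⁻¹ * ⌊(N : ℝ) * c i⌋ =
          (N : ℝ)⁻¹ * ((N : ℝ) * c i - ⌊(N : ℝ) * c i⌋) := by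
        field_simp
      rw [h5, abs_mul, abs_of_pos (inv_pos.2 hN0')]
      have h6 : |(N : ℝ) * c i - ⌊(N : ℝ) * c i⌋| ≤ 1 := by
        rw [abs_le]
        constructor <;> linarith
      calc (N : ℝ)⁻¹ * |(N : ℝ) * c i - ⌊(N : ℝ) * c i⌋| ≤ (N : ℝ)⁻¹ * 1 :=
            mul_le_mul_of_nonneg_left h6 (inv_pos.2 hN0').le
        _ = (N : ℝ)⁻¹ := mul_one _
    refine h2.trans_lt ?_
    rw [← Finset.mul_sum]
    have h7 := hN v hv
    calc (N : ℝ)⁻¹ * ∑ i, |linF (φ i) v| < (N : ℝ)⁻¹ * (ε * N) :=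
          mul_lt_mul_of_pos_left h7 (inv_pos.2 hN0')
      _ = ε := by field_simp
  by_cases h1 : ψ = 1
  · refine ⟨0, φ0, hφ0, fun v hv => ?_⟩
    have h2 := hclose v hv
    rw [h1, linF_one, smul_zero] at h2
    rw [zero_smul]
    exact h2
  · obtain ⟨χ, k, hχ, hk⟩ := hom_power ψ h1
    refine ⟨(N : ℝ)⁻¹ * k, χ, hχ, fun v hv => ?_⟩
    have h2 := hclose v hv
    rwa [hk, linF_zpow, smul_smul] at h2

end hom

/-! ### Support functions -/

section support

variable {V : Type} [AddCommGroup V] [Module ℝ V]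

/-- The support function of a polytope. -/
noncomputable def hh (P : Polytope V) (α : V →ₗ[ℝ] ℝ) : ℝ := sSup (α '' P.1)

theorem hull_le {A : Finset V} {α : V →ₗ[ℝ] ℝ} {c : ℝ} (h : ∀ a ∈ A, α a ≤ c) :
    ∀ x ∈ convexHull ℝ (A : Set V), α x ≤ c := by
  have h1 : convexHull ℝ (A : Set V) ⊆ {x | α x ≤ c} :=
    convexHull_min (fun a ha => h a ha) (convex_halfSpace_le α.isLinear c)
  exact fun x hx => h1 hx

theorem hh_eq_mx {P : Polytope V} {A : Finset V} (hA : A.Nonempty)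
    (hP : P.1 = convexHull ℝ (A : Set V)) (α : V →ₗ[ℝ] ℝ) : hh P α = mx A α := by
  obtain ⟨h1, a, ha, h2⟩ := mx_spec A hA α
  have h : IsGreatest (α '' P.1) (α a) := by
    rw [hP]
    refine ⟨⟨a, subset_convexHull ℝ _ ha, rfl⟩, ?_⟩
    rintro _ ⟨x, hx, rfl⟩
    exact hull_le (fun b hb => by rw [← h2]; exact h1 b hb) x hx
  rw [h2]
  exact h.csSup_eq

theorem hh_spec (P : Polytope V) (α : V →ₗ[ℝ] ℝ) :
    ∃ p ∈ P.1, hh P α = α p ∧ ∀ x ∈ P.1, α x ≤ α p := by
  obtain ⟨A, hA, hP⟩ := P.2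
  obtain ⟨h1, a, ha, h2⟩ := mx_spec A hA α
  refine ⟨a, ?_, ?_, ?_⟩
  · rw [hP]
    exact subset_convexHull ℝ _ ha
  · rw [hh_eq_mx hA hP, h2]
  · intro x hx
    rw [hP] at hx
    exact hull_le (fun b hb => by rw [← h2]; exact h1 b hb) x hx

theorem hh_eq {P : Polytope V} {α : V →ₗ[ℝ] ℝ} {p : V} (hp : p ∈ P.1)
    (h : ∀ x ∈ P.1, α x ≤ α p) : hh P α = α p := by
  have h' : IsGreatest (α '' P.1) (α p) := by
    refine ⟨⟨p, hp, rfl⟩, ?_⟩
    rintro _ ⟨x, hx, rfl⟩
    exact h x hx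
  exact h'.csSup_eq

theorem hh_add {P Q R : Polytope V} (h : R.1 = P.1 + Q.1) (α : V →ₗ[ℝ] ℝ) :
    hh R α = hh P α + hh Q α := by
  obtain ⟨p, hp, h1, h2⟩ := hh_spec P α
  obtain ⟨q, hq, h3, h4⟩ := hh_spec Q α
  rw [h1, h3, ← map_add]
  apply hh_eq
  · rw [h]
    exact Set.add_mem_add hp hq
  · intro x hx
    rw [h] at hx
    obtain ⟨a, ha, b, hb, rfl⟩ := hx
    show α (a + b) ≤ _
    rw [map_add, map_add]
    exact add_le_add (h2 a ha) (h4 b hb)

theorem hh_trans {P Q : Polytope V} {v : V} (h : Q.1 = {v} + P.1) (α : V →ₗ[ℝ] ℝ) :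
    hh Q α = α v + hh P α := by
  obtain ⟨p, hp, h1, h2⟩ := hh_spec P α
  rw [h1, ← map_add]
  apply hh_eq
  · rw [h]
    exact Set.add_mem_add rfl hp
  · intro x hx
    rw [h] at hx
    obtain ⟨a, ha, b, hb, rfl⟩ := hx
    have : a = v := ha
    subst this
    show α (a + b) ≤ _
    rw [map_add, map_add]
    exact add_le_add le_rfl (h2 b hb)

/-- The second difference of the support function. -/
noncomputable def sd (α l : V →ₗ[ℝ] ℝ) (s : ℝ) (P : Polytope V) : ℝ :=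
  (1 - s) * hh P α + s * hh P (α + l) - hh P (α + s • l)

/-- The second difference as a homomorphism. -/
noncomputable def sdH (α l : V →ₗ[ℝ] ℝ) (s : ℝ) : GV V →+ ℝ :=
  QuotientAddGroup.lift _ (FreeAbelianGroup.lift (sd α l s)) (by
    rw [AddSubgroup.closure_le]
    rintro x (⟨P, Q, R, h, rfl⟩ | ⟨v, P, Q, h, rfl⟩)
    · show FreeAbelianGroup.lift (sd α l s) _ = 0
      rw [map_sub, map_add, FreeAbelianGroup.lift_apply_of, FreeAbelianGroup.lift_apply_of,
        FreeAbelianGroup.lift_apply_of]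
      unfold sd
      rw [hh_add h, hh_add h, hh_add h]
      ring
    · show FreeAbelianGroup.lift (sd α l s) _ = 0
      rw [map_sub, FreeAbelianGroup.lift_apply_of, FreeAbelianGroup.lift_apply_of]
      unfold sd
      rw [hh_trans h, hh_trans h, hh_trans h]
      simp only [LinearMap.add_apply, LinearMap.smul_apply, smul_eq_mul]
      ring)

theorem sdH_mk (α l : V →ₗ[ℝ] ℝ) (s : ℝ) (P : Polytope V) :
    sdH α l s (GV.mk P) = sd α l s P := by
  show FreeAbelianGroup.lift (sd α l s) (FreeAbelianGroup.of P) = _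
  rw [FreeAbelianGroup.lift_apply_of]

theorem sd_nonneg (α l : V →ₗ[ℝ] ℝ) {s : ℝ} (h0 : 0 ≤ s) (h1 : s ≤ 1) (P : Polytope V) :
    0 ≤ sd α l s P := by
  obtain ⟨p, hp, h2, -⟩ := hh_spec P (α + s • l)
  obtain ⟨a, ha, h3, h4⟩ := hh_spec P α
  obtain ⟨b, hb, h5, h6⟩ := hh_spec P (α + l)
  unfold sd
  rw [h2, h3, h5]
  have h7 := h4 p hp
  have h8 := h6 p hp
  simp only [LinearMap.add_apply, LinearMap.smul_apply, smul_eq_mul] at h8 ⊢
  nlinarith

theorem sd_zero (α l : V →ₗ[ℝ] ℝ) (s : ℝ) (Q : Polytope V) (hQ : ∀ v ∈ Q.1, l v = 0) :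
    sd α l s Q = 0 := by
  have h1 : hh Q (α + l) = hh Q α := by
    unfold hh
    congr 1
    refine Set.image_congr fun v hv => ?_
    rw [LinearMap.add_apply, hQ v hv, add_zero]
  have h2 : hh Q (α + s • l) = hh Q α := by
    unfold hh
    congr 1
    refine Set.image_congr fun v hv => ?_
    rw [LinearMap.add_apply, LinearMap.smul_apply, hQ v hv, smul_zero, add_zero]
  unfold sd
  rw [h1, h2]
  ring

/-- An element of the group of polytopes which is a difference `[P] - [Q]` with `Q` in the kernel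
of `α`, for a dense set of linear forms `α`, is the class of a polytope. -/
theorem rep_of_dense [Module.Finite ℝ V] (Λ : Set (V →ₗ[ℝ] ℝ))
    (hdens : ∀ (γ : V →ₗ[ℝ] ℝ) (F : Finset V) (ε : ℝ), 0 < ε → ∃ l ∈ Λ, ∀ v ∈ F, |γ v - l v| < ε)
    (x : GV V) (hx : ∀ l ∈ Λ, x ∈ Sf l) : ∃ R : Polytope V, x = GV.mk R := by
  obtain ⟨P, Q, rfl⟩ := gv_cases x
  obtain ⟨A, hA, hPA⟩ := P.2
  obtain ⟨B, hB, hQB⟩ := Q.2
  obtain ⟨R, hR, hRe⟩ := geo A B hA hB Λ hdens (by
    intro l hl α s h0 h1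
    obtain ⟨P', Q', h2, h3⟩ := hx l hl
    have h4 := congrArg (sdH α l s) h2
    rw [map_sub, map_sub, sdH_mk, sdH_mk, sdH_mk, sdH_mk, sd_zero α l s Q' h3, sub_zero] at h4
    have h5 := sd_nonneg α l h0 h1 P'
    rw [← h4] at h5
    unfold sd at h5
    rw [hh_eq_mx hA hPA, hh_eq_mx hA hPA, hh_eq_mx hA hPA, hh_eq_mx hB hQB, hh_eq_mx hB hQB,
      hh_eq_mx hB hQB] at h5
    linarith)
  refine ⟨⟨convexHull ℝ (R : Set V), R, hR, rfl⟩, ?_⟩
  rw [mk_add (P := Q) (Q := ⟨convexHull ℝ (R : Set V), R, hR, rfl⟩) (R := P) (by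
    rw [hPA, hQB]
    exact hRe)]
  rw [add_sub_cancel_left]

end support

end W441PT
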