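import Pool.Agent.W441.PT.TorB
import Pool.Agent.Helper970.TN.P_frac_fam
import Pool.Agent.Helper970.TN.P_linF_tmul

/-! The crossed products `D(N) * ℤ` are Euclidean. -/

set_option autoImplicit false

namespace W441PT

open TN970 H970SH

variable {Γ : Type} [Group Γ] {D : Type} [DivisionRing D] (u : Γ →* Dˣ)

theorem SN_eq (N : Subgroup Γ) : SN u N = RN u N ⊤ := by
  unfold SN RN
  congr 1
  ext x
  constructor
  · rintro ⟨g, rfl⟩
    exact ⟨g, trivial, rfl⟩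
  · rintro ⟨g, _, rfl⟩
    exact ⟨g, rfl⟩

theorem SN_mul (N : Subgroup Γ) (hN : N.Normal) {x y : D} (hx : x ∈ SN u N) (hy : y ∈ SN u N) :
    x * y ∈ SN u N := by
  rw [SN_eq] at hx hy ⊢
  exact RN_mul u N ⊤ hN x y hx hy

theorem SN_u (N : Subgroup Γ) (g : Γ) : ((u g : Dˣ) : D) ∈ SN u N :=
  Submodule.subset_span ⟨g, rfl⟩

theorem SN_one (N : Subgroup Γ) : (1 : D) ∈ SN u N := by
  have := SN_u u N 1
  rwa [map_one, Units.val_one] at this

theorem SN_Dc (N : Subgroup Γ) {d : D} (hd : d ∈ Dc u N) : d ∈ SN u N := by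
  have h : (⟨d, hd⟩ : Dc u N) • (1 : D) ∈ SN u N := Submodule.smul_mem _ _ (SN_one u N)
  have h2 : (⟨d, hd⟩ : Dc u N) • (1 : D) = d * 1 := rfl
  rwa [h2, mul_one] at h

/-- The subring of `D(Γ)` which is the crossed product `D(N) * (Γ / N)`. -/
def EE (N : Subgroup Γ) (hN : N.Normal) : Subring D where
  carrier := {x | x ∈ SN u N}
  mul_mem' := fun {_ _} hx hy => SN_mul u N hN hx hy
  one_mem' := SN_one u N
  add_mem' := fun {_ _} hx hy => (SN u N).add_mem hx hy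
  zero_mem' := (SN u N).zero_mem
  neg_mem' := fun {_} hx => (SN u N).neg_mem hx

theorem mem_EE {N : Subgroup Γ} {hN : N.Normal} {x : D} : x ∈ EE u N hN ↔ x ∈ SN u N := Iff.rfl

/-- The elements with support in the interval `[p, q)`. -/
def WW (N : Subgroup Γ) (t : Γ) (p q : ℤ) : Submodule (Dc u N) D :=
  Submodule.span (Dc u N) {x | ∃ k : ℤ, p ≤ k ∧ k < q ∧ x = ((u (t ^ k) : Dˣ) : D)}

variable {u} {N : Subgroup Γ} {t : Γ}

theorem WW_mono {p p' q q' : ℤ} (hp : p' ≤ p) (hq : q ≤ q') : WW u N t p q ≤ WW u N t p' q' := by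
  apply Submodule.span_mono
  rintro x ⟨k, h1, h2, rfl⟩
  exact ⟨k, by omega, by omega, rfl⟩

theorem WW_le (p q : ℤ) : WW u N t p q ≤ SN u N := by
  apply Submodule.span_mono
  rintro x ⟨k, _, _, rfl⟩
  exact ⟨_, rfl⟩

theorem WW_shift (hN : N.Normal) {p q : ℤ} (j : ℤ) {x : D} (hx : x ∈ WW u N t p q) :
    ((u (t ^ j) : Dˣ) : D) * x ∈ WW u N t (p + j) (q + j) := by
  refine ore_shift u N hN (t ^ j) _ _ ?_ x hx
  rintro x ⟨k, h1, h2, rfl⟩
  refine Submodule.subset_span ⟨j + k, by omega, by omega, ?_⟩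
  rw [zpow_add, map_mul, Units.val_mul]

theorem WW_left {p q : ℤ} (hpq : p < q) {x : D} (hx : x ∈ WW u N t p q) :
    ∃ c ∈ Dc u N, ∃ w ∈ WW u N t (p + 1) q, x = c * ((u (t ^ p) : Dˣ) : D) + w := by
  have hset : {x : D | ∃ k : ℤ, p ≤ k ∧ k < q ∧ x = ((u (t ^ k) : Dˣ) : D)} =
      insert ((u (t ^ p) : Dˣ) : D)
        {x : D | ∃ k : ℤ, p + 1 ≤ k ∧ k < q ∧ x = ((u (t ^ k) : Dˣ) : D)} := by
    ext x
    constructor
    · rintro ⟨k, h1, h2, rfl⟩
      by_cases hk : k = p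
      · exact Or.inl (by rw [hk])
      · exact Or.inr ⟨k, by omega, h2, rfl⟩
    · rintro (rfl | ⟨k, h1, h2, rfl⟩)
      · exact ⟨p, le_rfl, hpq, rfl⟩
      · exact ⟨k, by omega, h2, rfl⟩
  unfold WW at hx
  rw [hset, Submodule.mem_span_insert] at hx
  obtain ⟨c, w, hw, rfl⟩ := hx
  exact ⟨c, c.2, w, hw, rfl⟩

theorem WW_right {p q : ℤ} (hpq : p < q) {x : D} (hx : x ∈ WW u N t p q) :
    ∃ c ∈ Dc u N, ∃ w ∈ WW u N t p (q - 1), x = c * ((u (t ^ (q - 1)) : Dˣ) : D) + w := by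
  have hset : {x : D | ∃ k : ℤ, p ≤ k ∧ k < q ∧ x = ((u (t ^ k) : Dˣ) : D)} =
      insert ((u (t ^ (q - 1)) : Dˣ) : D)
        {x : D | ∃ k : ℤ, p ≤ k ∧ k < q - 1 ∧ x = ((u (t ^ k) : Dˣ) : D)} := by
    ext x
    constructor
    · rintro ⟨k, h1, h2, rfl⟩
      by_cases hk : k = q - 1
      · exact Or.inl (by rw [hk])
      · exact Or.inr ⟨k, h1, by omega, rfl⟩
    · rintro (rfl | ⟨k, h1, h2, rfl⟩)
      · exact ⟨q - 1, by omega, by omega, rfl⟩
      · exact ⟨k, h1, by omega, rfl⟩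
  unfold WW at hx
  rw [hset, Submodule.mem_span_insert] at hx
  obtain ⟨c, w, hw, rfl⟩ := hx
  exact ⟨c, c.2, w, hw, rfl⟩

theorem WW_all (ht : ∀ g : Γ, ∃ k : ℤ, g * (t ^ k)⁻¹ ∈ N) {x : D} (hx : x ∈ SN u N) :
    ∃ p q : ℤ, x ∈ WW u N t p q := by
  unfold SN at hx
  induction hx using Submodule.span_induction with
  | mem x hx =>
    obtain ⟨g, rfl⟩ := hx
    obtain ⟨k, hk⟩ := ht g
    refine ⟨k, k + 1, ?_⟩
    have h1 : ((u (g * (t ^ k)⁻¹) : Dˣ) : D) ∈ Dc u N := Subfield.subset_closure ⟨_, hk, rfl⟩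
    have h2 : (⟨_, h1⟩ : Dc u N) • ((u (t ^ k) : Dˣ) : D) ∈ WW u N t k (k + 1) :=
      Submodule.smul_mem _ _ (Submodule.subset_span ⟨k, le_rfl, by omega, rfl⟩)
    have h3 : (⟨_, h1⟩ : Dc u N) • ((u (t ^ k) : Dˣ) : D) = ((u g : Dˣ) : D) := by
      show ((u (g * (t ^ k)⁻¹) : Dˣ) : D) * ((u (t ^ k) : Dˣ) : D) = _
      rw [← Units.val_mul, ← map_mul, inv_mul_cancel_right]
    rwa [h3] at h2
  | zero => exact ⟨0, 0, Submodule.zero_mem _⟩
  | add x y _ _ hx hy =>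
    obtain ⟨p, q, h1⟩ := hx
    obtain ⟨p', q', h2⟩ := hy
    exact ⟨min p p', max q q', Submodule.add_mem _
      (WW_mono (min_le_left _ _) (le_max_left _ _) h1)
      (WW_mono (min_le_right _ _) (le_max_right _ _) h2)⟩
  | smul c x _ hx =>
    obtain ⟨p, q, h1⟩ := hx
    exact ⟨p, q, Submodule.smul_mem _ _ h1⟩

/-- The length of the support. -/
noncomputable def nu (u : Γ →* Dˣ) (N : Subgroup Γ) (t : Γ) (d : D) : ℕ :=
  sInf {n : ℕ | ∃ p : ℤ, d ∈ WW u N t p (p + n)}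

theorem nu_le {d : D} {p : ℤ} {n : ℕ} (h : d ∈ WW u N t p (p + n)) : nu u N t d ≤ n :=
  Nat.sInf_le ⟨p, h⟩

theorem step_lemma (hN : N.Normal) {b : D} {T : Submodule (Dc u N) D}
    (hT : ∀ q ∈ SN u N, q * b ∈ T) {c w : D} (hc : c ∈ Dc u N) (hc0 : c ≠ 0) (k j : ℤ)
    (hb : b = c * ((u (t ^ k) : Dˣ) : D) + w) (hw : ((u (t ^ j) : Dˣ) : D) * w ∈ T) :
    ((u (t ^ (j + k)) : Dˣ) : D) ∈ T := by
  set g := t ^ j with hg
  have h1 := conj_Dc u N hN g c hc
  set c' := ((u g : Dˣ) : D) * c * ((u g⁻¹ : Dˣ) : D) with hc'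
  have hinv : ((u g⁻¹ : Dˣ) : D) * ((u g : Dˣ) : D) = 1 := by
    rw [← Units.val_mul, ← map_mul, inv_mul_cancel, map_one, Units.val_one]
  have hc'0 : c' ≠ 0 := mul_ne_zero (mul_ne_zero (Units.ne_zero _) hc0) (Units.ne_zero _)
  have h2 : ((u g : Dˣ) : D) * b = c' * ((u (t ^ (j + k)) : Dˣ) : D) +
      ((u g : Dˣ) : D) * w := by
    rw [hb, mul_add, zpow_add, map_mul, Units.val_mul, hc', mul_assoc _ ((u g⁻¹ : Dˣ) : D),
      ← mul_assoc ((u g⁻¹ : Dˣ) : D), ← hg, hinv, one_mul, mul_assoc]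
  have h3 : c' * ((u (t ^ (j + k)) : Dˣ) : D) ∈ T := by
    have h4 : c' * ((u (t ^ (j + k)) : Dˣ) : D) = ((u g : Dˣ) : D) * b -
        ((u g : Dˣ) : D) * w := by rw [h2, add_sub_cancel_right]
    rw [h4]
    exact Submodule.sub_mem _ (hT _ (SN_u u N g)) hw
  have h5 : (⟨c', h1⟩⁻¹ : Dc u N) • (c' * ((u (t ^ (j + k)) : Dˣ) : D)) ∈ T :=
    Submodule.smul_mem _ _ h3
  have h6 : (⟨c', h1⟩⁻¹ : Dc u N) • (c' * ((u (t ^ (j + k)) : Dˣ) : D)) =
      ((u (t ^ (j + k)) : Dˣ) : D) := by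
    show c'⁻¹ * (c' * _) = _
    rw [← mul_assoc, inv_mul_cancel₀ hc'0, one_mul]
  rwa [h6] at h5

/-- Division with remainder. -/
theorem euclid (hN : N.Normal) (ht : ∀ g : Γ, ∃ k : ℤ, g * (t ^ k)⁻¹ ∈ N) :
    ∀ a ∈ EE u N hN, ∀ b ∈ EE u N hN, b ≠ 0 →
      ∃ q ∈ EE u N hN, a - q * b = 0 ∨ nu u N t (a - q * b) < nu u N t b := by
  intro a ha b hb hb0
  -- the support of `b`
  have hne : {n : ℕ | ∃ p : ℤ, b ∈ WW u N t p (p + n)}.Nonempty := by
    obtain ⟨p, q, h⟩ := WW_all ht hb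
    refine ⟨(q - p).toNat, p, WW_mono le_rfl ?_ h⟩
    omega
  obtain ⟨p, hp⟩ := Nat.sInf_mem hne
  set n := nu u N t b with hn
  change b ∈ WW u N t p (p + n) at hp
  have hn0 : n ≠ 0 := by
    intro h0
    rw [h0] at hp
    have : b ∈ Submodule.span (Dc u N) (∅ : Set D) := by
      refine Submodule.span_mono ?_ hp
      rintro x ⟨k, h1, h2, -⟩
      exfalso
      push_cast at h2
      omega
    rw [Submodule.span_empty, Submodule.mem_bot] at this
    exact hb0 this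
  obtain ⟨c0, hc0, w0, hw0, hbl⟩ := WW_left (by omega) hp
  obtain ⟨c1, hc1, w1, hw1, hbr⟩ := WW_right (by omega) hp
  have hc0' : c0 ≠ 0 := by
    intro h
    rw [h, zero_mul, zero_add] at hbl
    rw [← hbl] at hw0
    have h2 : b ∈ WW u N t (p + 1) (p + 1 + ((n - 1 : ℕ) : ℤ)) := WW_mono le_rfl (by omega) hw0
    have h3 := nu_le h2
    omega
  have hc1' : c1 ≠ 0 := by
    intro h
    rw [h, zero_mul, zero_add] at hbr
    rw [← hbr] at hw1
    have h2 : b ∈ WW u N t p (p + ((n - 1 : ℕ) : ℤ)) := WW_mono le_rfl (by omega) hw1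
    have h3 := nu_le h2
    omega
  -- the submodule of the elements which can be divided
  set T : Submodule (Dc u N) D :=
    { carrier := {a | ∃ q ∈ SN u N, ∃ v ∈ WW u N t 0 (n - 1), a = q * b + v}
      add_mem' := by
        rintro x y ⟨q, hq, v, hv, rfl⟩ ⟨q', hq', v', hv', rfl⟩
        exact ⟨q + q', Submodule.add_mem _ hq hq', v + v', Submodule.add_mem _ hv hv', by
          rw [add_mul]; abel⟩
      zero_mem' := ⟨0, Submodule.zero_mem _, 0, Submodule.zero_mem _, by simp⟩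
      smul_mem' := by
        rintro c x ⟨q, hq, v, hv, rfl⟩
        exact ⟨c • q, Submodule.smul_mem _ _ hq, c • v, Submodule.smul_mem _ _ hv, by
          rw [smul_add, smul_mul_assoc]⟩ } with hT
  have hTb : ∀ q ∈ SN u N, q * b ∈ T := fun q hq =>
    ⟨q, hq, 0, Submodule.zero_mem _, by rw [add_zero]⟩
  have hT0 : WW u N t 0 (n - 1) ≤ T := fun v hv =>
    ⟨0, Submodule.zero_mem _, v, hv, by rw [zero_mul, zero_add]⟩
  have hup : ∀ m : ℤ, (n : ℤ) - 1 ≤ m → WW u N t 0 m ≤ T := by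
    intro m hm
    induction m, hm using Int.leInduction with
    | base => exact hT0
    | succ m hm ih =>
      intro x hx
      obtain ⟨c, hc, w, hw, rfl⟩ := WW_right (by omega) hx
      have e1 : m + 1 - 1 = m := by ring
      rw [e1] at hw ⊢
      refine Submodule.add_mem _ ?_ (ih hw)
      have h1 : ((u (t ^ m) : Dˣ) : D) ∈ T := by
        have e2 : m = (m - (p + n - 1)) + (p + n - 1) := by ring
        rw [e2]
        refine step_lemma hN hTb hc1 hc1' _ _ hbr (ih ?_)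
        have h2 := WW_shift hN (m - (p + n - 1)) hw1
        exact WW_mono (by omega) (by omega) h2
      exact Submodule.smul_mem T (⟨c, hc⟩ : Dc u N) h1
  have hdown : ∀ q : ℤ, (n : ℤ) - 1 ≤ q → ∀ m : ℤ, m ≤ 0 → WW u N t m q ≤ T := by
    intro q hq m hm
    induction m, hm using Int.leInductionDown with
    | base => exact hup q hq
    | pred m hm ih =>
      intro x hx
      obtain ⟨c, hc, w, hw, rfl⟩ := WW_left (by omega) hx
      have e1 : m - 1 + 1 = m := by ring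
      rw [e1] at hw
      refine Submodule.add_mem _ ?_ (ih hw)
      have h1 : ((u (t ^ (m - 1)) : Dˣ) : D) ∈ T := by
        have e2 : m - 1 = (m - 1 - p) + p := by ring
        rw [e2]
        refine step_lemma hN hTb hc0 hc0' _ _ hbl (ih ?_)
        have h2 := WW_shift hN (m - 1 - p) hw0
        exact WW_mono (by omega) (by omega) h2
      exact Submodule.smul_mem T (⟨c, hc⟩ : Dc u N) h1
  obtain ⟨p', q', ha'⟩ := WW_all ht ha
  have haT : a ∈ T := hdown (max q' (n - 1)) (le_max_right _ _) (min p' 0) (min_le_right _ _)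
    (WW_mono (min_le_left _ _) (le_max_left _ _) ha')
  obtain ⟨q, hq, v, hv, hav⟩ := haT
  refine ⟨q, hq, Or.inr ?_⟩
  have h1 : a - q * b = v := by rw [hav, add_sub_cancel_left]
  rw [h1]
  have h2 : v ∈ WW u N t 0 (0 + ((n - 1 : ℕ) : ℤ)) := WW_mono le_rfl (by omega) hv
  have h3 := nu_le h2
  omega

end W441PT
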