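import Pool.Agent.Helper970.SH.Defs

/-! Classes in `K₁` of invertible matrices with arbitrary finite index sets. -/

set_option autoImplicit false

namespace W441PT

open Matrix H970SH

section ring

variable {R : Type} [Ring R]

theorem k1_mul {n : ℕ} (M N : (Matrix (Fin n) (Fin n) R)ˣ) :
    K1.mk (M * N) = K1.mk M + K1.mk N := by
  have h : FreeAbelianGroup.of (⟨n, M * N⟩ : Σ n : ℕ, (Matrix (Fin n) (Fin n) R)ˣ) -
      (FreeAbelianGroup.of ⟨n, M⟩ + FreeAbelianGroup.of ⟨n, N⟩) ∈
        AddSubgroup.closure (K1Rel R) := AddSubgroup.subset_closure (Or.inl ⟨n, M, N, rfl⟩)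
  have h1 := (QuotientAddGroup.eq_zero_iff _).2 h
  rw [QuotientAddGroup.mk_sub, QuotientAddGroup.mk_add, sub_eq_zero] at h1
  exact h1

theorem k1_one (n : ℕ) : K1.mk (1 : (Matrix (Fin n) (Fin n) R)ˣ) = 0 := by
  have h := k1_mul (1 : (Matrix (Fin n) (Fin n) R)ˣ) 1
  rw [mul_one] at h
  exact left_eq_add.1 h

theorem k1_stab {n : ℕ} (M : (Matrix (Fin n) (Fin n) R)ˣ)
    (N : (Matrix (Fin (n + 1)) (Fin (n + 1)) R)ˣ)
    (hN : (N : Matrix (Fin (n + 1)) (Fin (n + 1)) R) =
          Matrix.reindex finSumFinEquiv finSumFinEquiv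
            (Matrix.fromBlocks (M : Matrix (Fin n) (Fin n) R) 0 0 (1 : Matrix (Fin 1) (Fin 1) R))) :
    K1.mk N = K1.mk M := by
  have h : FreeAbelianGroup.of (⟨n + 1, N⟩ : Σ n : ℕ, (Matrix (Fin n) (Fin n) R)ˣ) -
      FreeAbelianGroup.of ⟨n, M⟩ ∈
        AddSubgroup.closure (K1Rel R) := AddSubgroup.subset_closure (Or.inr ⟨n, M, N, hN, rfl⟩)
  have h1 := (QuotientAddGroup.eq_zero_iff _).2 h
  rw [QuotientAddGroup.mk_sub, sub_eq_zero] at h1
  exact h1

/-- Reindexing an invertible matrix. -/
def reU {m n : Type} [Fintype m] [Fintype n] [DecidableEq m] [DecidableEq n] (e : m ≃ n)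
    (M : (Matrix m m R)ˣ) : (Matrix n n R)ˣ :=
  Units.map (Matrix.reindexRingEquiv R e : Matrix m m R →* Matrix n n R) M

theorem reU_val {m n : Type} [Fintype m] [Fintype n] [DecidableEq m] [DecidableEq n] (e : m ≃ n)
    (M : (Matrix m m R)ˣ) : ((reU e M : (Matrix n n R)ˣ) : Matrix n n R) =
      Matrix.reindex e e (M : Matrix m m R) := rfl

theorem reU_mul {m n : Type} [Fintype m] [Fintype n] [DecidableEq m] [DecidableEq n] (e : m ≃ n)
    (M N : (Matrix m m R)ˣ) : reU e (M * N) = reU e M * reU e N := map_mul _ _ _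

/-- The permutation matrix of `e`, as an invertible matrix. -/
def permU {n : Type} [Fintype n] [DecidableEq n] (e : n ≃ n) : (Matrix n n R)ˣ where
  val := (1 : Matrix n n R).submatrix e id
  inv := (1 : Matrix n n R).submatrix e.symm id
  val_inv := by
    ext i j
    rw [Matrix.mul_apply, Finset.sum_eq_single (e i)]
    · simp [Matrix.one_apply]
    · intro b _ hb
      simp [Matrix.one_apply, Ne.symm hb]
    · intro h
      exact absurd (Finset.mem_univ _) h
  inv_val := by
    ext i j
    rw [Matrix.mul_apply, Finset.sum_eq_single (e.symm i)]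
    · simp [Matrix.one_apply]
    · intro b _ hb
      simp [Matrix.one_apply, Ne.symm hb]
    · intro h
      exact absurd (Finset.mem_univ _) h

theorem reU_conj {n : Type} [Fintype n] [DecidableEq n] (e : n ≃ n)
    (M : (Matrix n n R)ˣ) : reU e M = permU e.symm * M * (permU e.symm)⁻¹ := by
  rw [eq_mul_inv_iff_mul_eq]
  ext i j
  show (Matrix.reindex e e (M : Matrix n n R) * (1 : Matrix n n R).submatrix e.symm id) i j =
    ((1 : Matrix n n R).submatrix e.symm id * (M : Matrix n n R)) i j
  rw [Matrix.mul_apply, Matrix.mul_apply]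
  simp only [Matrix.reindex_apply, Matrix.submatrix_apply, Matrix.one_apply, id]
  simp only [mul_ite, mul_one, mul_zero, ite_mul, one_mul, zero_mul]
  rw [Finset.sum_ite_eq]
  rw [Finset.sum_eq_single (e j)]
  · simp
  · intro b _ hb
    rw [if_neg]
    intro h
    apply hb
    rw [← h]
    simp
  · intro h
    exact absurd (Finset.mem_univ _) h

theorem k1_perm {n : ℕ} (e : Fin n ≃ Fin n) (M : (Matrix (Fin n) (Fin n) R)ˣ) :
    K1.mk (reU e M) = K1.mk M := by
  have h : ∀ N : (Matrix (Fin n) (Fin n) R)ˣ, K1.mk N⁻¹ = -K1.mk N := by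
    intro N
    have := k1_mul N⁻¹ N
    rw [inv_mul_cancel, k1_one] at this
    exact (neg_eq_of_add_eq_zero_left this.symm).symm
  rw [reU_conj, k1_mul, k1_mul, h]
  abel

/-- The class in `K₁` of an invertible matrix. -/
noncomputable def cls {n : Type} [Fintype n] [DecidableEq n] (M : (Matrix n n R)ˣ) : K1 R :=
  K1.mk (reU (Fintype.equivFin n) M)

theorem reU_trans {m n o : Type} [Fintype m] [Fintype n] [Fintype o] [DecidableEq m]
    [DecidableEq n] [DecidableEq o] (e : m ≃ n) (f : n ≃ o) (M : (Matrix m m R)ˣ) :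
    reU f (reU e M) = reU (e.trans f) M := by
  ext i j
  rfl

theorem k1_cast {k l : ℕ} (h : k = l) (e : Fin k ≃ Fin l) (M : (Matrix (Fin k) (Fin k) R)ˣ) :
    K1.mk (reU e M) = K1.mk M := by
  subst h
  exact k1_perm e M

theorem cls_eq {n : Type} [Fintype n] [DecidableEq n] {k : ℕ} (e : n ≃ Fin k)
    (M : (Matrix n n R)ˣ) : cls M = K1.mk (reU e M) := by
  unfold cls
  have hk : Fintype.card n = k := by rw [Fintype.card_congr e, Fintype.card_fin]
  have h1 : reU e M = reU ((Fintype.equivFin n).symm.trans e) (reU (Fintype.equivFin n) M) := by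
    rw [reU_trans]
    congr 1
    ext x
    simp
  rw [h1, k1_cast hk]

theorem cls_fin {n : ℕ} (M : (Matrix (Fin n) (Fin n) R)ˣ) : cls M = K1.mk M := by
  rw [cls_eq (Equiv.refl _) M]
  congr 1

theorem cls_reU {m n : Type} [Fintype m] [Fintype n] [DecidableEq m] [DecidableEq n] (e : m ≃ n)
    (M : (Matrix m m R)ˣ) : cls (reU e M) = cls M := by
  rw [cls_eq (e.trans (Fintype.equivFin n)) M, ← reU_trans]
  rfl

theorem cls_mul {n : Type} [Fintype n] [DecidableEq n] (M N : (Matrix n n R)ˣ) :
    cls (M * N) = cls M + cls N := by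
  unfold cls
  rw [reU_mul, k1_mul]

theorem cls_one {n : Type} [Fintype n] [DecidableEq n] : cls (1 : (Matrix n n R)ˣ) = 0 := by
  have h := cls_mul (1 : (Matrix n n R)ˣ) 1
  rw [mul_one] at h
  exact left_eq_add.1 h

theorem cls_inv {n : Type} [Fintype n] [DecidableEq n] (M : (Matrix n n R)ˣ) :
    cls M⁻¹ = -cls M := by
  have := cls_mul M⁻¹ M
  rw [inv_mul_cancel, cls_one] at this
  exact (neg_eq_of_add_eq_zero_left this.symm).symm

/-- Block diagonal invertible matrix. -/
def diagU {m n : Type} [Fintype m] [Fintype n] [DecidableEq m] [DecidableEq n]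
    (A : (Matrix m m R)ˣ) (B : (Matrix n n R)ˣ) : (Matrix (m ⊕ n) (m ⊕ n) R)ˣ where
  val := Matrix.fromBlocks A 0 0 B
  inv := Matrix.fromBlocks (A⁻¹ : (Matrix m m R)ˣ) 0 0 (B⁻¹ : (Matrix n n R)ˣ)
  val_inv := by
    rw [Matrix.fromBlocks_multiply]
    simp
  inv_val := by
    rw [Matrix.fromBlocks_multiply]
    simp

theorem diagU_mul {m n : Type} [Fintype m] [Fintype n] [DecidableEq m] [DecidableEq n]
    (A A' : (Matrix m m R)ˣ) (B B' : (Matrix n n R)ˣ) :
    diagU (A * A') (B * B') = diagU A B * diagU A' B' := by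
  apply Units.ext
  show Matrix.fromBlocks ((A * A' : (Matrix m m R)ˣ) : Matrix m m R) 0 0
      ((B * B' : (Matrix n n R)ˣ) : Matrix n n R) =
    Matrix.fromBlocks (A : Matrix m m R) 0 0 (B : Matrix n n R) *
      Matrix.fromBlocks (A' : Matrix m m R) 0 0 (B' : Matrix n n R)
  rw [Matrix.fromBlocks_multiply]
  simp

theorem cls_stab_fin {m : Type} [Fintype m] [DecidableEq m] (A : (Matrix m m R)ˣ) (n : ℕ) :
    cls (diagU A (1 : (Matrix (Fin n) (Fin n) R)ˣ)) = cls A := by
  induction n with
  | zero =>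
    rw [← cls_reU (Equiv.sumEmpty m (Fin 0)) (diagU A 1)]
    have h : reU (Equiv.sumEmpty m (Fin 0)) (diagU A (1 : (Matrix (Fin 0) (Fin 0) R)ˣ)) = A :=
      Units.ext (Matrix.ext fun i j => rfl)
    rw [h]
  | succ n ih =>
    rw [← ih]
    have e : m ⊕ Fin n ≃ Fin (Fintype.card (m ⊕ Fin n)) := Fintype.equivFin _
    rw [cls_eq e]
    let f : m ⊕ Fin (n + 1) ≃ Fin (Fintype.card (m ⊕ Fin n) + 1) :=
      ((Equiv.sumCongr (Equiv.refl m) finSumFinEquiv.symm).trans
        (Equiv.sumAssoc m (Fin n) (Fin 1)).symm).trans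
        ((Equiv.sumCongr e (Equiv.refl (Fin 1))).trans finSumFinEquiv)
    rw [cls_eq f]
    apply k1_stab
    have key : ∀ x y : m ⊕ Fin (n + 1),
        (Matrix.fromBlocks (A : Matrix m m R) 0 0 (1 : Matrix (Fin (n + 1)) (Fin (n + 1)) R)) x y =
        (Matrix.fromBlocks (Matrix.reindex e e (Matrix.fromBlocks (A : Matrix m m R) 0 0
          (1 : Matrix (Fin n) (Fin n) R))) 0 0 (1 : Matrix (Fin 1) (Fin 1) R))
          (finSumFinEquiv.symm (f x)) (finSumFinEquiv.symm (f y)) := by
      have hf : ∀ x, finSumFinEquiv.symm (f x) = (Equiv.sumCongr e (Equiv.refl (Fin 1)))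
          ((Equiv.sumAssoc m (Fin n) (Fin 1)).symm
            (Equiv.sumCongr (Equiv.refl m) finSumFinEquiv.symm x)) := by
        intro x
        simp [f]
      intro x y
      rw [hf, hf]
      rcases x with x | x
      · rcases y with y | y
        · simp
        · obtain ⟨y, rfl⟩ := (finSumFinEquiv (m := n) (n := 1)).surjective y
          rcases y with y | y <;> simp
      · obtain ⟨x, rfl⟩ := (finSumFinEquiv (m := n) (n := 1)).surjective x
        rcases y with y | y
        · rcases x with x | x <;> simp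
        · obtain ⟨y, rfl⟩ := (finSumFinEquiv (m := n) (n := 1)).surjective y
          rcases x with x | x <;> rcases y with y | y
          · have : (finSumFinEquiv (Sum.inl x : Fin n ⊕ Fin 1) = finSumFinEquiv (Sum.inl y)) ↔
              x = y := by simp
            simp [Matrix.one_apply]
          · have h1 : finSumFinEquiv (Sum.inl x : Fin n ⊕ Fin 1) ≠ finSumFinEquiv (Sum.inr y) :=
              finSumFinEquiv.injective.ne Sum.inl_ne_inr
            simp only [Matrix.fromBlocks_apply₂₂, Matrix.one_apply, if_neg h1]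
            simp
          · have h1 : finSumFinEquiv (Sum.inr x : Fin n ⊕ Fin 1) ≠ finSumFinEquiv (Sum.inl y) :=
              finSumFinEquiv.injective.ne Sum.inr_ne_inl
            simp only [Matrix.fromBlocks_apply₂₂, Matrix.one_apply, if_neg h1]
            simp
          · have : (finSumFinEquiv (Sum.inr x : Fin n ⊕ Fin 1) = finSumFinEquiv (Sum.inr y)) ↔
              x = y := by simp
            simp [Matrix.one_apply]
    ext i j
    rw [reU_val]
    show (Matrix.fromBlocks (A : Matrix m m R) 0 0 (1 : Matrix (Fin (n + 1)) (Fin (n + 1)) R))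
      (f.symm i) (f.symm j) = _
    rw [key]
    simp only [Equiv.apply_symm_apply]
    rfl

theorem cls_stab {m n : Type} [Fintype m] [Fintype n] [DecidableEq m] [DecidableEq n]
    (A : (Matrix m m R)ˣ) : cls (diagU A (1 : (Matrix n n R)ˣ)) = cls A := by
  rw [← cls_stab_fin A (Fintype.card n),
    ← cls_reU (Equiv.sumCongr (Equiv.refl m) (Fintype.equivFin n)) (diagU A 1)]
  congr 1
  apply Units.ext
  ext i j
  rw [reU_val]
  show (Matrix.fromBlocks (A : Matrix m m R) 0 0 (1 : Matrix n n R)) _ _ =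
    (Matrix.fromBlocks (A : Matrix m m R) 0 0 (1 : Matrix (Fin _) (Fin _) R)) i j
  rcases i with i | i <;> rcases j with j | j <;> simp [Matrix.one_apply]

theorem cls_stab' {m n : Type} [Fintype m] [Fintype n] [DecidableEq m] [DecidableEq n]
    (B : (Matrix n n R)ˣ) : cls (diagU (1 : (Matrix m m R)ˣ) B) = cls B := by
  rw [← cls_stab (n := m) B, ← cls_reU (Equiv.sumComm m n) (diagU 1 B)]
  congr 1
  apply Units.ext
  ext i j
  rw [reU_val]
  rcases i with i | i <;> rcases j with j | j <;> rfl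

theorem cls_diag {m n : Type} [Fintype m] [Fintype n] [DecidableEq m] [DecidableEq n]
    (A : (Matrix m m R)ˣ) (B : (Matrix n n R)ˣ) : cls (diagU A B) = cls A + cls B := by
  have h : diagU A B = diagU A 1 * diagU 1 B := by
    rw [← diagU_mul, mul_one, one_mul]
  rw [h, cls_mul, cls_stab, cls_stab']

theorem cls_empty {n : Type} [Fintype n] [DecidableEq n] [IsEmpty n] (M : (Matrix n n R)ˣ) :
    cls M = 0 := by
  have : M = 1 := Units.ext (Matrix.ext fun i => isEmptyElim i)
  rw [this, cls_one]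

end ring

end W441PT
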