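import Pool.Agent.W441.PT.K1

/-! Classes in `K₁` of a division ring: unipotent matrices, block triangular matrices and the
reduction of matrices over a Euclidean subring. -/

set_option autoImplicit false

namespace W441PT

open Matrix H970SH

variable {D : Type} [DivisionRing D]

/-- The invertible matrix `1 + Z` for `Z * Z = 0`. -/
def nilU {n : Type} [Fintype n] [DecidableEq n] (Z : Matrix n n D) (h : Z * Z = 0) :
    (Matrix n n D)ˣ where
  val := 1 + Z
  inv := 1 - Z
  val_inv := by rw [mul_sub, mul_one, add_mul, one_mul, h, add_zero, add_sub_cancel_right]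
  inv_val := by rw [sub_mul, one_mul, mul_add, mul_one, h, add_zero, add_sub_cancel_right]

theorem cls_nil {n : Type} [Fintype n] [DecidableEq n] (c : D) (hc1 : c ≠ 1)
    (Z : Matrix n n D) (hZ : Z * Z = 0) (hZ' : ((c - 1)⁻¹ • Z) * ((c - 1)⁻¹ • Z) = 0)
    (δ : (Matrix n n D)ˣ)
    (hδ : (δ : Matrix n n D) * ((c - 1)⁻¹ • Z) = (c • ((c - 1)⁻¹ • Z)) * (δ : Matrix n n D)) :
    cls (nilU Z hZ) = 0 := by
  set Z' := (c - 1)⁻¹ • Z with hZ'def
  have hc : c - 1 ≠ 0 := sub_ne_zero.2 hc1
  have h1 : (c • Z') * (c • Z') = 0 := by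
    have h2 : (δ : Matrix n n D) * (Z' * Z') = (c • Z') * (c • Z') * (δ : Matrix n n D) := by
      rw [← mul_assoc, hδ, mul_assoc, hδ, ← mul_assoc]
    rw [hZ', mul_zero] at h2
    have h3 : (c • Z') * (c • Z') * (δ : Matrix n n D) * ((δ⁻¹ : (Matrix n n D)ˣ) : Matrix n n D)
        = 0 := by rw [← h2, zero_mul]
    rwa [mul_assoc, Units.mul_inv, mul_one] at h3
  have h2 : nilU (c • Z') h1 = δ * nilU Z' hZ' * δ⁻¹ := by
    rw [eq_mul_inv_iff_mul_eq]
    apply Units.ext
    show (1 + c • Z') * (δ : Matrix n n D) = (δ : Matrix n n D) * (1 + Z')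
    rw [add_mul, one_mul, mul_add, mul_one, hδ]
  have h3 : nilU Z hZ = nilU (c • Z') h1 * (nilU Z' hZ')⁻¹ := by
    apply Units.ext
    show 1 + Z = (1 + c • Z') * (1 - Z')
    rw [mul_sub, mul_one, add_mul, one_mul, Matrix.smul_mul, hZ', smul_zero, add_zero]
    have h4 : Z = c • Z' - Z' := by
      have h5 : c • Z' - Z' = (c - 1) • Z' := by rw [sub_smul, one_smul]
      rw [h5, hZ'def, smul_smul, mul_inv_cancel₀ hc, one_smul]
    rw [h4]
    abel
  rw [h3, h2, cls_mul, cls_mul, cls_mul, cls_inv, cls_inv]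
  abel

/-- The matrix with `q` in the column `i` and zeros elsewhere. -/
def Wz {n : Type} [Fintype n] [DecidableEq n] (i : n) (q : n → D) : Matrix n n D :=
  Matrix.of fun j k => if k = i then q j else 0

theorem Wz_mul {n : Type} [Fintype n] [DecidableEq n] (i : n) (p q : n → D) (hq : q i = 0) :
    Wz i p * Wz i q = 0 := by
  ext j k
  rw [Matrix.mul_apply]
  refine Finset.sum_eq_zero fun l _ => ?_
  simp only [Wz, Matrix.of_apply]
  by_cases h : l = i
  · subst h
    rw [hq]
    simp
  · rw [if_neg h, zero_mul]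

theorem Wz_smul {n : Type} [Fintype n] [DecidableEq n] (i : n) (s : D) (q : n → D) :
    s • Wz i q = Wz i (fun j => s * q j) := by
  ext j k
  simp only [Wz, Matrix.smul_apply, Matrix.of_apply, smul_eq_mul, mul_ite, mul_zero]

/-- A diagonal invertible matrix. -/
def dgU {n : Type} [Fintype n] [DecidableEq n] (t : n → D) (ht : ∀ j, t j ≠ 0) :
    (Matrix n n D)ˣ where
  val := Matrix.diagonal t
  inv := Matrix.diagonal fun j => (t j)⁻¹
  val_inv := by
    rw [Matrix.diagonal_mul_diagonal, ← Matrix.diagonal_one]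
    congr 1
    funext j
    exact mul_inv_cancel₀ (ht j)
  inv_val := by
    rw [Matrix.diagonal_mul_diagonal, ← Matrix.diagonal_one]
    congr 1
    funext j
    exact inv_mul_cancel₀ (ht j)

/-- The invertible matrix `1 + Wz i q` for `q i = 0`. -/
def WU {n : Type} [Fintype n] [DecidableEq n] (i : n) (q : n → D) (hq : q i = 0) :
    (Matrix n n D)ˣ := nilU (Wz i q) (Wz_mul i q q hq)

theorem cls_WU {n : Type} [Fintype n] [DecidableEq n] (c : D) (hc0 : c ≠ 0) (hc1 : c ≠ 1) (i : n)
    (q : n → D) (hq : q i = 0) : cls (WU i q hq) = 0 := by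
  refine cls_nil c hc1 (Wz i q) (Wz_mul i q q hq) ?_
    (dgU (fun j => if j = i then 1 else c) (fun j => by split_ifs; exacts [one_ne_zero, hc0])) ?_
  · rw [Wz_smul]
    exact Wz_mul _ _ _ (by rw [hq, mul_zero])
  · rw [Wz_smul, Wz_smul]
    show Matrix.diagonal _ * _ = _ * Matrix.diagonal _
    ext j k
    rw [Matrix.diagonal_mul, Matrix.mul_diagonal]
    simp only [Wz, Matrix.of_apply]
    by_cases hk : k = i
    · rw [if_pos hk, if_pos hk]
      by_cases hj : j = i
      · rw [hj, hq]
        simp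
      · rw [if_neg hj, if_pos hk, mul_one]
    · rw [if_neg hk, if_neg hk]
      simp

theorem WU_mulVec {n : Type} [Fintype n] [DecidableEq n] (i : n) (q : n → D) (hq : q i = 0)
    (a : n → D) (j : n) :
    ((WU i q hq : (Matrix n n D)ˣ) : Matrix n n D).mulVec a j = a j + q j * a i := by
  show ((1 + Wz i q) *ᵥ a) j = _
  rw [Matrix.add_mulVec, Matrix.one_mulVec, Pi.add_apply]
  congr 1
  show ∑ k, Wz i q j k * a k = _
  rw [Finset.sum_eq_single i]
  · simp [Wz]
  · intro b _ hb
    simp [Wz, hb]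
  · intro h
    exact absurd (Finset.mem_univ _) h

theorem WU_mem {n : Type} [Fintype n] [DecidableEq n] (E : Subring D) (i : n) (q : n → D)
    (hq : q i = 0) (hE : ∀ j, q j ∈ E) (j k : n) :
    ((WU i q hq : (Matrix n n D)ˣ) : Matrix n n D) j k ∈ E := by
  show (1 + Wz i q) j k ∈ E
  rw [Matrix.add_apply, Matrix.one_apply]
  refine E.add_mem ?_ ?_
  · split_ifs
    exacts [E.one_mem, E.zero_mem]
  · simp only [Wz, Matrix.of_apply]
    split_ifs
    exacts [hE j, E.zero_mem]

/-- Block upper triangular matrices. -/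
theorem cls_upper {m n : Type} [Fintype m] [Fintype n] [DecidableEq m] [DecidableEq n]
    (c : D) (hc0 : c ≠ 0) (hc1 : c ≠ 1)
    (A : (Matrix m m D)ˣ) (B : Matrix m n D) (C : (Matrix n n D)ˣ) (M : (Matrix (m ⊕ n) (m ⊕ n) D)ˣ)
    (hM : (M : Matrix (m ⊕ n) (m ⊕ n) D) = Matrix.fromBlocks A B 0 C) : cls M = cls A + cls C := by
  set X : Matrix m n D := ((A⁻¹ : (Matrix m m D)ˣ) : Matrix m m D) * B with hX
  have hz : ∀ Y Z : Matrix m n D, Matrix.fromBlocks (0 : Matrix m m D) Y 0 (0 : Matrix n n D) *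
      Matrix.fromBlocks 0 Z 0 0 = 0 := by
    intro Y Z
    rw [Matrix.fromBlocks_multiply]
    simp
  have h1 : cls (nilU (Matrix.fromBlocks (0 : Matrix m m D) X 0 (0 : Matrix n n D)) (hz X X)) =
      0 := by
    refine cls_nil c hc1 _ _ ?_ (dgU (Sum.elim (fun _ => c) (fun _ => 1)) ?_) ?_
    · rw [Matrix.fromBlocks_smul]
      simp only [smul_zero]
      exact hz _ _
    · rintro (j | j)
      exacts [hc0, one_ne_zero]
    · show Matrix.diagonal _ * _ = _ * Matrix.diagonal _
      ext (j | j) (k | k) <;> rw [Matrix.diagonal_mul, Matrix.mul_diagonal] <;> simp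
  have h2 : M = diagU A C *
      nilU (Matrix.fromBlocks (0 : Matrix m m D) X 0 (0 : Matrix n n D)) (hz X X) := by
    apply Units.ext
    rw [hM]
    show _ = Matrix.fromBlocks (A : Matrix m m D) 0 0 (C : Matrix n n D) *
      (1 + Matrix.fromBlocks (0 : Matrix m m D) X 0 (0 : Matrix n n D))
    rw [← Matrix.fromBlocks_one, Matrix.fromBlocks_add, Matrix.fromBlocks_multiply]
    simp only [add_zero, zero_add, mul_one, Matrix.mul_one, Matrix.mul_zero, Matrix.zero_mul]
    rw [hX, ← Matrix.mul_assoc, Units.mul_inv, Matrix.one_mul]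
  rw [h2, cls_mul, h1, add_zero, cls_diag]

/-- Block lower triangular matrices. -/
theorem cls_lower {m n : Type} [Fintype m] [Fintype n] [DecidableEq m] [DecidableEq n]
    (c : D) (hc0 : c ≠ 0) (hc1 : c ≠ 1)
    (A : (Matrix m m D)ˣ) (B : Matrix n m D) (C : (Matrix n n D)ˣ) (M : (Matrix (m ⊕ n) (m ⊕ n) D)ˣ)
    (hM : (M : Matrix (m ⊕ n) (m ⊕ n) D) = Matrix.fromBlocks A 0 B C) : cls M = cls A + cls C := by
  rw [← cls_reU (Equiv.sumComm m n) M, cls_upper c hc0 hc1 C B A, add_comm]
  rw [reU_val, hM]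
  ext (i | i) (j | j) <;> rfl

/-- The `1 × 1` matrix with entry `d`. -/
def oneU (d : D) (hd : d ≠ 0) : (Matrix (Fin 1) (Fin 1) D)ˣ where
  val := Matrix.of fun _ _ => d
  inv := Matrix.of fun _ _ => d⁻¹
  val_inv := by
    ext i j
    rw [Matrix.mul_apply, Subsingleton.elim i 0, Subsingleton.elim j 0]
    simp [hd]
  inv_val := by
    ext i j
    rw [Matrix.mul_apply, Subsingleton.elim i 0, Subsingleton.elim j 0]
    simp [hd]

/-- The class in `K₁` of a non-zero element. -/
noncomputable def el (d : D) (hd : d ≠ 0) : K1 D := K1.mk (oneU d hd)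

theorem el_mul (a b : D) (ha : a ≠ 0) (hb : b ≠ 0) :
    el (a * b) (mul_ne_zero ha hb) = el a ha + el b hb := by
  unfold el
  rw [← k1_mul]
  congr 1
  apply Units.ext
  ext i j
  show a * b = ((Matrix.of fun _ _ => a : Matrix (Fin 1) (Fin 1) D) *
    (Matrix.of fun _ _ => b : Matrix (Fin 1) (Fin 1) D)) i j
  rw [Matrix.mul_apply]
  simp

theorem el_of {M : (Matrix (Fin 1) (Fin 1) D)ˣ} (hd : (M : Matrix (Fin 1) (Fin 1) D) 0 0 ≠ 0) :
    K1.mk M = el _ hd := by
  unfold el
  congr 1
  apply Units.ext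
  ext i j
  rw [Subsingleton.elim i 0, Subsingleton.elim j 0]
  rfl

theorem cls_unique {n : Type} [Fintype n] [DecidableEq n] [Unique n] (M : (Matrix n n D)ˣ)
    (d : D) (hd : d ≠ 0) (h : (M : Matrix n n D) default default = d) : cls M = el d hd := by
  rw [cls_eq (Equiv.ofUnique n (Fin 1)) M]
  unfold el
  congr 1
  apply Units.ext
  ext i j
  rw [reU_val]
  show (M : Matrix n n D) _ _ = d
  rw [← h]
  congr 1

/-- Column reduction by a Euclidean algorithm. -/
theorem col_red {n : Type} [Fintype n] [DecidableEq n] (c : D) (hc0 : c ≠ 0) (hc1 : c ≠ 1)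
    (E : Subring D) (ν : D → ℕ)
    (hE : ∀ a ∈ E, ∀ b ∈ E, b ≠ 0 → ∃ q ∈ E, a - q * b = 0 ∨ ν (a - q * b) < ν b) (i0 : n) :
    ∀ (k : ℕ) (a : n → D), (∀ j, a j ∈ E) → ∀ i, a i ≠ 0 → ν (a i) = k →
      ∃ P : (Matrix n n D)ˣ, cls P = 0 ∧ (∀ i j, (P : Matrix n n D) i j ∈ E) ∧
        ∃ d ∈ E, d ≠ 0 ∧ (P : Matrix n n D).mulVec a = Pi.single i0 d := by
  intro k
  induction k using Nat.strong_induction_on with
  | _ k ih =>
    intro a ha i hi hk
    choose q hqE hq using fun j => hE (a j) (ha j) (a i) (ha i) hi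
    set p : n → D := fun j => if j = i then 0 else -q j with hp
    have hpi : p i = 0 := if_pos rfl
    have hpE : ∀ j, p j ∈ E := by
      intro j
      rw [hp]
      dsimp only
      split_ifs
      exacts [E.zero_mem, E.neg_mem (hqE j)]
    set a' : n → D := ((WU i p hpi : (Matrix n n D)ˣ) : Matrix n n D).mulVec a with ha'
    have ha'j : ∀ j, j ≠ i → a' j = a j - q j * a i := by
      intro j hj
      rw [ha', WU_mulVec, hp]
      dsimp only
      rw [if_neg hj]
      noncomm_ring
    have ha'i : a' i = a i := by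
      rw [ha', WU_mulVec, hpi, zero_mul, add_zero]
    have ha'E : ∀ j, a' j ∈ E := by
      intro j
      rw [ha', WU_mulVec]
      exact E.add_mem (ha j) (E.mul_mem (hpE j) (ha i))
    have hmulE : ∀ P Q : Matrix n n D, (∀ i j, P i j ∈ E) → (∀ i j, Q i j ∈ E) →
        ∀ i j, (P * Q) i j ∈ E := by
      intro P Q hP hQ i j
      rw [Matrix.mul_apply]
      exact E.sum_mem fun l _ => E.mul_mem (hP _ _) (hQ _ _)
    by_cases hall : ∀ j, j ≠ i → a' j = 0
    · -- all other entries vanish
      have hsingle : a' = Pi.single i (a i) := by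
        funext j
        by_cases hj : j = i
        · subst hj
          rw [ha'i, Pi.single_eq_same]
        · rw [hall j hj, Pi.single_eq_of_ne hj]
      by_cases hii : i = i0
      · subst hii
        exact ⟨WU i p hpi, cls_WU c hc0 hc1 _ _ _, WU_mem E _ _ _ hpE, a i, ha i, hi, hsingle⟩
      · have h1 : (Pi.single i0 (1 : D) : n → D) i = 0 := Pi.single_eq_of_ne hii _
        have h2 : (Pi.single i (-1 : D) : n → D) i0 = 0 := Pi.single_eq_of_ne (Ne.symm hii) _
        refine ⟨WU i0 (Pi.single i (-1)) h2 * WU i (Pi.single i0 1) h1 * WU i p hpi, ?_, ?_, a i,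
          ha i, hi, ?_⟩
        · rw [cls_mul, cls_mul, cls_WU c hc0 hc1, cls_WU c hc0 hc1, cls_WU c hc0 hc1]
          simp
        · have hs : ∀ (x y : n) (t : D), t ∈ E → (Pi.single x t : n → D) y ∈ E := by
            intro x y t ht
            by_cases hxy : y = x
            · subst hxy
              rwa [Pi.single_eq_same]
            · rw [Pi.single_eq_of_ne hxy]
              exact E.zero_mem
          exact hmulE _ _ (hmulE _ _ (WU_mem E _ _ _ fun j => hs _ _ _ (E.neg_mem E.one_mem))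
            (WU_mem E _ _ _ fun j => hs _ _ _ E.one_mem)) (WU_mem E _ _ _ hpE)
        · rw [Units.val_mul, Units.val_mul, ← Matrix.mulVec_mulVec, ← Matrix.mulVec_mulVec, ← ha',
            hsingle]
          have h3 : ((WU i (Pi.single i0 1) h1 : (Matrix n n D)ˣ) : Matrix n n D).mulVec
              (Pi.single i (a i)) = Pi.single i (a i) + Pi.single i0 (a i) := by
            funext j
            rw [WU_mulVec, Pi.add_apply, Pi.single_eq_same]
            congr 1
            by_cases hj : j = i0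
            · subst hj
              rw [Pi.single_eq_same, Pi.single_eq_same, one_mul]
            · rw [Pi.single_eq_of_ne hj, Pi.single_eq_of_ne hj, zero_mul]
          rw [h3]
          have h4 : (Pi.single i (a i) : n → D) i0 = 0 := Pi.single_eq_of_ne (Ne.symm hii) _
          funext j
          rw [WU_mulVec, Pi.add_apply, Pi.add_apply, Pi.single_eq_same, h4, zero_add]
          by_cases hj : j = i
          · subst hj
            rw [Pi.single_eq_same, Pi.single_eq_same, Pi.single_eq_of_ne hii]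
            noncomm_ring
          · rw [Pi.single_eq_of_ne hj, Pi.single_eq_of_ne hj, zero_mul, add_zero, zero_add]
    · push Not at hall
      obtain ⟨j, hj, hj0⟩ := hall
      have hlt : ν (a' j) < k := by
        rw [ha'j j hj] at hj0 ⊢
        rcases hq j with h | h
        · exact absurd h hj0
        · rw [← hk]
          exact h
      obtain ⟨P, hP1, hP2, d, hd, hd0, hP3⟩ := ih _ hlt a' ha'E j hj0 rfl
      refine ⟨P * WU i p hpi, ?_, ?_, d, hd, hd0, ?_⟩
      · rw [cls_mul, hP1, cls_WU c hc0 hc1, add_zero]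
      · exact hmulE _ _ hP2 (WU_mem E _ _ _ hpE)
      · rw [Units.val_mul, ← Matrix.mulVec_mulVec, ← ha', hP3]

/-- The class of an invertible matrix over `D` with entries in a Euclidean subring `E` is a sum of
classes of non-zero elements of `E`. -/
theorem reduce {A : Type} [AddCommGroup A] (S : AddSubmonoid A) (h : K1 D →+ A)
    (c : D) (hc0 : c ≠ 0) (hc1 : c ≠ 1)
    (E : Subring D) (ν : D → ℕ)
    (hE : ∀ a ∈ E, ∀ b ∈ E, b ≠ 0 → ∃ q ∈ E, a - q * b = 0 ∨ ν (a - q * b) < ν b)
    (hS : ∀ d ∈ E, ∀ hd : d ≠ 0, h (el d hd) ∈ S) :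
    ∀ (k : ℕ) (n : Type) [Fintype n] [DecidableEq n] (_ : Fintype.card n = k)
      (N : (Matrix n n D)ˣ), (∀ i j, (N : Matrix n n D) i j ∈ E) → h (cls N) ∈ S := by
  intro k
  induction k with
  | zero =>
    intro n _ _ hn N _
    have : IsEmpty n := Fintype.card_eq_zero_iff.1 hn
    rw [cls_empty, map_zero]
    exact S.zero_mem
  | succ k ih =>
    intro n _ _ hn N hN
    have hne : Nonempty n := Fintype.card_pos_iff.1 (by omega)
    obtain ⟨i0⟩ := hne
    -- the column `i0`
    set a : n → D := fun j => (N : Matrix n n D) j i0 with ha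
    have ha0 : ∃ i, a i ≠ 0 := by
      by_contra hcon
      push Not at hcon
      have h1 : (((N⁻¹ : (Matrix n n D)ˣ) : Matrix n n D) * (N : Matrix n n D)) i0 i0 = 0 := by
        rw [Matrix.mul_apply]
        refine Finset.sum_eq_zero fun l _ => ?_
        have := hcon l
        rw [ha] at this
        dsimp only at this
        rw [this, mul_zero]
      rw [Units.inv_mul, Matrix.one_apply_eq] at h1
      exact one_ne_zero h1
    obtain ⟨i, hi⟩ := ha0
    obtain ⟨P, hP1, hP2, d, hd, hd0, hP3⟩ :=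
      col_red c hc0 hc1 E ν hE i0 _ a (fun j => hN j i0) i hi rfl
    set N' := P * N with hN'
    have hcls : cls N' = cls N := by rw [hN', cls_mul, hP1, zero_add]
    rw [← hcls]
    have hN'E : ∀ i j, (N' : Matrix n n D) i j ∈ E := by
      intro i j
      rw [hN', Units.val_mul, Matrix.mul_apply]
      exact E.sum_mem fun l _ => E.mul_mem (hP2 _ _) (hN _ _)
    have hcol : ∀ j, (N' : Matrix n n D) j i0 = (Pi.single i0 d : n → D) j := by
      intro j
      rw [← hP3]
      rfl
    -- blocks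
    let e := Equiv.sumCompl (fun x : n => x = i0)
    let N2 := reU e.symm N'
    have hN2 : cls N2 = cls N' := cls_reU _ _
    rw [← hN2]
    let G := N2.inv
    have hGN : G * N2.val = 1 := N2.inv_val
    have hNG : N2.val * G = 1 := N2.val_inv
    have hb21 : N2.val.toBlocks₂₁ = 0 := by
      ext x y
      show (N' : Matrix n n D) (e (Sum.inr x)) (e (Sum.inl y)) = 0
      have hy : e (Sum.inl y) = i0 := y.2
      rw [hy, hcol]
      exact Pi.single_eq_of_ne x.2 _
    have hb11 : ∀ x y, N2.val.toBlocks₁₁ x y = d := by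
      intro x y
      show (N' : Matrix n n D) (e (Sum.inl x)) (e (Sum.inl y)) = d
      have hx : e (Sum.inl x) = i0 := x.2
      have hy : e (Sum.inl y) = i0 := y.2
      rw [hx, hy, hcol, Pi.single_eq_same]
    have hblk : N2.val = Matrix.fromBlocks N2.val.toBlocks₁₁
        N2.val.toBlocks₁₂ 0 N2.val.toBlocks₂₂ := by
      rw [← hb21]
      exact (Matrix.fromBlocks_toBlocks _).symm
    have hGblk : G = Matrix.fromBlocks G.toBlocks₁₁ G.toBlocks₁₂ G.toBlocks₂₁ G.toBlocks₂₂ :=
      (Matrix.fromBlocks_toBlocks _).symm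
    have hu : Unique {x : n // x = i0} := ⟨⟨⟨i0, rfl⟩⟩, fun y => Subtype.ext y.2⟩
    have hm1 : G.toBlocks₁₁ * N2.val.toBlocks₁₁ = 1 ∧
        G.toBlocks₂₁ * N2.val.toBlocks₁₁ = 0 ∧
        G.toBlocks₂₁ * N2.val.toBlocks₁₂ +
          G.toBlocks₂₂ * N2.val.toBlocks₂₂ = 1 := by
      have h1 := hGN
      rw [hGblk, hblk, Matrix.fromBlocks_multiply, ← Matrix.fromBlocks_one,
        Matrix.fromBlocks_inj] at h1
      simp only [Matrix.mul_zero, add_zero, Matrix.toBlocks_fromBlocks₁₁,
        Matrix.toBlocks_fromBlocks₁₂, Matrix.toBlocks_fromBlocks₂₁,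
        Matrix.toBlocks_fromBlocks₂₂] at h1
      exact ⟨h1.1, h1.2.2.1, h1.2.2.2⟩
    have hm2 : N2.val.toBlocks₂₂ * G.toBlocks₂₂ = 1 := by
      have h1 := hNG
      rw [hGblk, hblk, Matrix.fromBlocks_multiply, ← Matrix.fromBlocks_one,
        Matrix.fromBlocks_inj] at h1
      simp only [Matrix.zero_mul, zero_add, Matrix.toBlocks_fromBlocks₁₁,
        Matrix.toBlocks_fromBlocks₁₂, Matrix.toBlocks_fromBlocks₂₁,
        Matrix.toBlocks_fromBlocks₂₂] at h1
      exact h1.2.2.2
    have hG21 : G.toBlocks₂₁ = 0 := by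
      ext x y
      have h1 := congrFun (congrFun hm1.2.1 x) y
      rw [Matrix.mul_apply, Fintype.sum_unique, hb11] at h1
      rw [Subsingleton.elim y default]
      exact (mul_eq_zero.1 h1).resolve_right hd0
    have hm3 : G.toBlocks₂₂ * N2.val.toBlocks₂₂ = 1 := by
      have h1 := hm1.2.2
      rwa [hG21, Matrix.zero_mul, zero_add] at h1
    let C : (Matrix {x : n // ¬x = i0} {x : n // ¬x = i0} D)ˣ := ⟨N2.val.toBlocks₂₂, G.toBlocks₂₂, hm2, hm3⟩
    let A11 : (Matrix {x : n // x = i0} {x : n // x = i0} D)ˣ :=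
      ⟨Matrix.of fun _ _ => d, Matrix.of fun _ _ => d⁻¹, by
        ext x y
        rw [Matrix.mul_apply, Fintype.sum_unique, Subsingleton.elim x default,
          Subsingleton.elim y default]
        simp [hd0], by
        ext x y
        rw [Matrix.mul_apply, Fintype.sum_unique, Subsingleton.elim x default,
          Subsingleton.elim y default]
        simp [hd0]⟩
    have hA11 : N2.val.toBlocks₁₁ = A11.val := by
      ext x y
      exact hb11 x y
    rw [hA11] at hblk
    rw [cls_upper c hc0 hc1 A11 _ C N2 hblk, map_add, cls_unique A11 d hd0 rfl]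
    refine S.add_mem (hS d hd hd0) (ih _ ?_ C ?_)
    · have h0 : Fintype.card {x : n // x = i0} = 1 := Fintype.card_subtype_eq i0
      have h1 : Fintype.card {x : n // ¬x = i0} = Fintype.card n - 1 := by
        rw [Fintype.card_subtype_compl, h0]
      omega
    · intro x y
      exact hN'E _ _

end W441PT
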