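import Pool.Agent.W441.PT.Dens
import Pool.Agent.W441.PT.Brg
import Pool.Agent.W441.PT.Cd

attribute [local instance] L2B.instRingN

/-! The polytope invariant of groups of cohomological dimension at most two. -/

set_option autoImplicit false

open scoped ENNReal TensorProduct

namespace W441PT

open TN970 H970SH CategoryTheory

section

variable {Γ : Type} [Group Γ] {D : Type} [DivisionRing D] {u : Γ →* Dˣ}

theorem ev_mem (N : Subgroup Γ) (a : MonoidAlgebra ℤ Γ) : ev u a ∈ SN u N := by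
  have hof : ∀ g : Γ, ev u (MonoidAlgebra.of ℤ Γ g) = ((u g : Dˣ) : D) := fun g =>
    MonoidAlgebra.lift_of (R := ℤ) ((Units.coeHom D).comp u) g
  induction a using MonoidAlgebra.induction_on with
  | of g =>
    rw [hof]
    exact SN_u u N g
  | add a b ha hb =>
    rw [map_add]
    exact (SN u N).add_mem ha hb
  | smul r a ha =>
    rw [map_zsmul]
    exact zsmul_mem ha r

theorem ev_single (g : Γ) : ev u (MonoidAlgebra.single g 1) = ((u g : Dˣ) : D) :=
  MonoidAlgebra.lift_of (R := ℤ) ((Units.coeHom D).comp u) g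

theorem res_dd (C : V7N.FreeRes Γ) (n : ℕ) : C.d (n + 1) * C.d n = 0 := by
  apply Matrix.ext
  intro i j
  have h1 := (C.exact_succ n ((C.d (n + 1)) i)).2 ⟨Pi.single i 1, by
    rw [Matrix.single_one_vecMul]
    rfl⟩
  exact congrFun h1 j

theorem map_mul_ev {a b c : ℕ} (A : Matrix (Fin a) (Fin b) (MonoidAlgebra ℤ Γ))
    (B : Matrix (Fin b) (Fin c) (MonoidAlgebra ℤ Γ)) :
    (A * B).map (ev u) = A.map (ev u) * B.map (ev u) := Matrix.map_mul

/-- Linnell's property for the trivial subgroup. -/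
theorem u_ne_one (hL : Linnell u) {g : Γ} (hg : g ≠ 1) : ((u g : Dˣ) : D) ≠ 1 := by
  classical
  intro h
  have h1 := hL ⊥ inferInstance {g, 1} (by
    intro a ha b hb hab
    rw [Subgroup.mem_bot]
    intro h2
    exact hab (mul_inv_eq_one.1 h2))
  have hg1 : g ∈ ({g, 1} : Finset Γ) := by simp
  have hg2 : (1 : Γ) ∈ ({g, 1} : Finset Γ) := by simp
  have h2 := h1.injective (a₁ := ⟨g, hg1⟩) (a₂ := ⟨1, hg2⟩) (by
    show ((u g : Dˣ) : D) = ((u 1 : Dˣ) : D)
    rw [h, map_one, Units.val_one])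
  exact hg (congrArg Subtype.val h2)

/-- The first differential becomes surjective over `D(N) * (Γ / N)` for `N ≠ 1`. -/
theorem surj_zero (hL : Linnell u) (C : V7N.FreeRes Γ) (N : Subgroup Γ) (hN : N.Normal)
    {g : Γ} (hg : g ∈ N) (hg1 : g ≠ 1) (x : Fin (C.r 0) → D) (hx : ∀ i, x i ∈ SN u N) :
    ∃ y : Fin (C.r 1) → D, (∀ i, y i ∈ SN u N) ∧ x = Matrix.vecMul y ((C.d 0).map (ev u)) := by
  classical
  -- the relations
  have h1 : ∀ i, ∃ w : Fin (C.r 1) → MonoidAlgebra ℤ Γ,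
      (Pi.single i (MonoidAlgebra.single g (1 : ℤ) - 1) : Fin (C.r 0) → MonoidAlgebra ℤ Γ) =
        Matrix.vecMul w (C.d 0) := by
    intro i
    rw [← C.exact_zero]
    have h2 : (Pi.single i (MonoidAlgebra.single g (1 : ℤ) - 1) :
        Fin (C.r 0) → MonoidAlgebra ℤ Γ) =
        (fun j => MonoidAlgebra.single g (1 : ℤ) *
          (Pi.single i 1 : Fin (C.r 0) → MonoidAlgebra ℤ Γ) j) -
          (Pi.single i 1 : Fin (C.r 0) → MonoidAlgebra ℤ Γ) := by
      funext j
      rw [Pi.sub_apply]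
      by_cases hj : j = i
      · subst hj
        rw [Pi.single_eq_same, Pi.single_eq_same, mul_one]
      · rw [Pi.single_eq_of_ne hj, Pi.single_eq_of_ne hj, mul_zero, sub_zero]
    rw [h2, map_sub, C.ε_smul, sub_self]
  choose W hW using h1
  have hWm : Matrix.of W * C.d 0 = Matrix.diagonal fun _ => (MonoidAlgebra.single g (1 : ℤ) - 1) := by
    apply Matrix.ext
    intro i j
    have h2 := congrFun (hW i) j
    have h3 : (Matrix.of W * C.d 0) i j = Matrix.vecMul (W i) (C.d 0) j := rfl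
    rw [h3, ← h2, Matrix.diagonal_apply]
    by_cases hij : j = i
    · subst hij
      rw [Pi.single_eq_same, if_pos rfl]
    · rw [Pi.single_eq_of_ne hij, if_neg (Ne.symm hij)]
  have hc0 : ((u g : Dˣ) : D) - 1 ≠ 0 := sub_ne_zero.2 (u_ne_one hL hg1)
  have hcm : (((u g : Dˣ) : D) - 1)⁻¹ ∈ SN u N := by
    apply SN_Dc
    exact (Dc u N).inv_mem ((Dc u N).sub_mem (Subfield.subset_closure ⟨g, hg, rfl⟩)
      (Dc u N).one_mem)
  refine ⟨Matrix.vecMul (fun i => x i * (((u g : Dˣ) : D) - 1)⁻¹) ((Matrix.of W).map (ev u)),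
    ?_, ?_⟩
  · intro j
    rw [Matrix.vecMul, dotProduct]
    refine Submodule.sum_mem _ fun i _ => ?_
    exact SN_mul u N hN (SN_mul u N hN (hx i) hcm) (ev_mem N _)
  · rw [Matrix.vecMul_vecMul, ← map_mul_ev, hWm]
    funext j
    have h4 : (Matrix.diagonal fun _ : Fin (C.r 0) =>
        (MonoidAlgebra.single g (1 : ℤ) - 1 : MonoidAlgebra ℤ Γ)).map (ev u) =
        Matrix.diagonal fun _ => (((u g : Dˣ) : D) - 1) := by
      rw [Matrix.diagonal_map (map_zero _)]
      congr 1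
      funext i
      show ev u (MonoidAlgebra.single g (1 : ℤ) - 1) = _
      rw [map_sub, ev_single, map_one]
    rw [h4, Matrix.vecMul_diagonal, mul_assoc, inv_mul_cancel₀ hc0, mul_one]

/-- The value of the torsion is a difference `[P] - [Q]` with `Q` in the kernel of `φ`. -/
theorem good_dir (hD : IsDG u) (C : V7N.FreeRes Γ) (m : ℕ) (hm : ∀ n, m ≤ n → C.r n = 0)
    (hcd : HasProjectiveDimensionLE (V7N.trivG Γ) 2) (hl2 : ∀ n, L2B.l2Betti Γ n = 0)
    (hZ : IsEmpty (Γ ≃* Multiplicative ℤ)) (φ : Γ →* Multiplicative ℤ)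
    (hφ : Function.Surjective φ) (pol : K1 D →+ GV (H1R Γ)) (hpol : IsPol u pol) (τ : K1 D)
    (hτ : IsTorsion C.r (fun n => (C.d n).map (ev u)) τ) : -pol τ ∈ Sf (linF φ) := by
  obtain ⟨-, -, -, -, -, -, -, -, hL⟩ := dg_facts hD
  obtain ⟨hex0, hex⟩ := d_exact hD C hl2
  -- an element of the kernel
  have hne : ∃ g ∈ φ.ker, g ≠ 1 := by
    by_contra hcon
    push Not at hcon
    have hinj : Function.Injective φ := by
      rw [injective_iff_map_eq_one]
      intro g hg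
      exact hcon g hg
    exact hZ.false (MulEquiv.ofBijective φ ⟨hinj, hφ⟩)
  obtain ⟨g, hg, hg1⟩ := hne
  obtain ⟨t, ht⟩ := hφ (Multiplicative.ofAdd 1)
  have ht' : ∀ h : Γ, ∃ k : ℤ, h * (t ^ k)⁻¹ ∈ φ.ker := by
    intro h
    refine ⟨Multiplicative.toAdd (φ h), ?_⟩
    rw [MonoidHom.mem_ker, map_mul, map_inv, map_zpow, ht, ← ofAdd_zsmul, smul_eq_mul, mul_one,
      ofAdd_toAdd, mul_inv_cancel]
  have ht1 : t ≠ 1 := by
    rintro rfl
    rw [map_one] at ht
    have := congrArg Multiplicative.toAdd ht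
    rw [toAdd_one, toAdd_ofAdd] at this
    exact zero_ne_one this
  have hN : φ.ker.Normal := inferInstance
  refine torsion_good (Sf (linF φ)) (pol_kills hpol ((u t : Dˣ) : D) (Units.ne_zero _)
    (u_ne_one hL ht1)) ((u t : Dˣ) : D) (Units.ne_zero _) (u_ne_one hL ht1) (EE u φ.ker hN)
    (nu u φ.ker t) (euclid hN ht') (fun d hd hd0 => pol_mem hL hpol φ hd hd0) C.r
    (fun n => (C.d n).map (ev u)) (fun n i j => ev_mem _ _) ?_ m hm ?_ ?_ ?_ τ hτ
  · intro n
    rw [← map_mul_ev, res_dd]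
    exact Matrix.map_zero _ (map_zero _)
  · intro x hx
    exact surj_zero hL C φ.ker hN hg hg1 x hx
  · exact hex 0
  · intro n x hx hx0
    obtain ⟨y, hy⟩ := hex (n + 1) x hx0
    obtain ⟨S, hS⟩ := reg C hcd n
    refine ⟨Matrix.vecMul x (S.map (ev u)), ?_, ?_⟩
    · intro j
      rw [Matrix.vecMul, dotProduct]
      refine (EE u φ.ker hN).sum_mem fun i _ => ?_
      exact (EE u φ.ker hN).mul_mem (hx i) (ev_mem _ _)
    · have h1 : (C.d (n + 2)).map (ev u) * S.map (ev u) * (C.d (n + 2)).map (ev u) =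
          (C.d (n + 2)).map (ev u) := by
        rw [← map_mul_ev, ← map_mul_ev, hS]
      have h2 : x = Matrix.vecMul y ((C.d (n + 2)).map (ev u)) := hy
      show x = Matrix.vecMul (Matrix.vecMul x (S.map (ev u))) ((C.d (n + 2)).map (ev u))
      rw [h2, Matrix.vecMul_vecMul, Matrix.vecMul_vecMul, ← Matrix.mul_assoc, h1]

/-- The polytope invariant is represented by a polytope. -/
theorem main_rep [Group.FG Γ] (hD : IsDG u) (C : V7N.FreeRes Γ) (m : ℕ)
    (hm : ∀ n, m ≤ n → C.r n = 0)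
    (hcd : HasProjectiveDimensionLE (V7N.trivG Γ) 2) (hl2 : ∀ n, L2B.l2Betti Γ n = 0)
    (hZ : IsEmpty (Γ ≃* Multiplicative ℤ)) (pol : K1 D →+ GV (H1R Γ)) (hpol : IsPol u pol)
    (τ : K1 D) (hτ : IsTorsion C.r (fun n => (C.d n).map (ev u)) τ) :
    ∃ P : Polytope (H1R Γ), -pol τ = GV.mk P := by
  haveI : Module.Finite ℝ (H1R Γ) := finite_H1R
  by_cases h : ∃ φ : Γ →* Multiplicative ℤ, Function.Surjective φ
  · obtain ⟨φ0, hφ0⟩ := h
    refine rep_of_dense {l | ∃ (c : ℝ) (φ : Γ →* Multiplicative ℤ), Function.Surjective φ ∧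
      l = c • linF φ} ?_ _ ?_
    · intro γ F ε hε
      obtain ⟨c, φ, hφ, h1⟩ := dense_dir φ0 hφ0 γ F ε hε
      exact ⟨_, ⟨c, φ, hφ, rfl⟩, h1⟩
    · rintro l ⟨c, φ, hφ, rfl⟩
      obtain ⟨P, Q, h1, h2⟩ := good_dir hD C m hm hcd hl2 hZ φ hφ pol hpol τ hτ
      refine ⟨P, Q, h1, fun v hv => ?_⟩
      rw [LinearMap.smul_apply, h2 v hv, smul_zero]
  · have hz : ∀ γ : H1R Γ →ₗ[ℝ] ℝ, γ = 0 := by
      intro γ
      obtain ⟨ι, hι, c, φ, rfl⟩ := dual_span γ
      refine Finset.sum_eq_zero fun i _ => ?_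
      have h1 : φ i = 1 := by
        by_contra hcon
        obtain ⟨χ, k, hχ, -⟩ := hom_power (φ i) hcon
        exact h ⟨χ, hχ⟩
      rw [h1, linF_one, smul_zero]
    have hV : ∀ v : H1R Γ, v = 0 := by
      intro v
      rw [← Module.forall_dual_apply_eq_zero_iff ℝ v]
      intro γ
      rw [hz γ, LinearMap.zero_apply]
    obtain ⟨P, Q, h1⟩ := gv_cases (-pol τ)
    refine ⟨pzero, ?_⟩
    have h2 : P = Q := by
      apply Subtype.ext
      obtain ⟨A, ⟨a, ha⟩, hA⟩ := P.2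
      obtain ⟨B, ⟨b, hb⟩, hB⟩ := Q.2
      have h3 : a ∈ P.1 := by
        rw [hA]
        exact subset_convexHull ℝ _ ha
      have h4 : b ∈ Q.1 := by
        rw [hB]
        exact subset_convexHull ℝ _ hb
      ext x
      rw [hV x]
      rw [hV a] at h3
      rw [hV b] at h4
      exact ⟨fun _ => h4, fun _ => h3⟩
    rw [h1, h2, sub_self, mk_pzero]

/-- Existence of the torsion. -/
theorem main_tor (hD : IsDG u) (C : V7N.FreeRes Γ) (m : ℕ)
    (hm : ∀ n, m ≤ n → C.r n = 0) (hl2 : ∀ n, L2B.l2Betti Γ n = 0) :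
    ∃ τ, IsTorsion C.r (fun n => (C.d n).map (ev u)) τ := by
  obtain ⟨hex0, hex⟩ := d_exact hD C hl2
  refine torsion_exists C.r (fun n => (C.d n).map (ev u)) ?_ m hm hex0 hex
  intro n
  rw [← map_mul_ev, res_dd]
  exact Matrix.map_zero _ (map_zero _)

/-- The value of `pol` on the torsion does not depend on the choices. -/
theorem main_uniq [Group.FG Γ] (hD : IsDG u) (C : V7N.FreeRes Γ) (pol : K1 D →+ GV (H1R Γ))
    (hpol : IsPol u pol) (τ τ' : K1 D)
    (hτ : IsTorsion C.r (fun n => (C.d n).map (ev u)) τ)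
    (hτ' : IsTorsion C.r (fun n => (C.d n).map (ev u)) τ') : pol τ = pol τ' := by
  obtain ⟨-, -, -, -, -, -, -, -, hL⟩ := dg_facts hD
  by_cases h : ∃ t : Γ, t ≠ 1
  · obtain ⟨t, ht1⟩ := h
    refine torsion_unique (pol_kills hpol ((u t : Dˣ) : D) (Units.ne_zero _)
      (u_ne_one hL ht1)) ((u t : Dˣ) : D) (Units.ne_zero _) (u_ne_one hL ht1) C.r
      (fun n => (C.d n).map (ev u)) ?_ τ τ' hτ hτ'
    intro n
    rw [← map_mul_ev, res_dd]
    exact Matrix.map_zero _ (map_zero _)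
  · push Not at h
    have hV : ∀ v : H1R Γ, v = 0 := by
      intro v
      have h1 : (LinearMap.id : H1R Γ →ₗ[ℝ] H1R Γ) = 0 := by
        apply cl_ext
        intro g
        rw [h g, cl_one, map_zero, map_zero]
      exact LinearMap.congr_fun h1 v
    have hz : ∀ P : Polytope (H1R Γ), P = pzero := by
      intro P
      apply Subtype.ext
      obtain ⟨A, ⟨a, ha⟩, hA⟩ := P.2
      have h3 : a ∈ P.1 := by
        rw [hA]
        exact subset_convexHull ℝ _ ha
      ext x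
      rw [hV x]
      rw [hV a] at h3
      exact ⟨fun _ => rfl, fun _ => h3⟩
    obtain ⟨P, Q, h1⟩ := gv_cases (pol τ)
    obtain ⟨P', Q', h2⟩ := gv_cases (pol τ')
    rw [h1, h2, hz P, hz Q, hz P', hz Q']

end

end W441PT
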