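import Pool.Agent.W441.PT.De
import Pool.Agent.W441.PT.Dens

/-! Existence and uniqueness of the polytope homomorphism. -/

set_option autoImplicit false

open scoped Pointwise Classical

namespace W441PT

open TN970 H970SH

variable {Γ : Type} [Group Γ] {D : Type} [DivisionRing D] {u : Γ →* Dˣ}

theorem u_mul_inv (g h : Γ) : ((u (g * h⁻¹) : Dˣ) : D) * ((u h : Dˣ) : D) = ((u g : Dˣ) : D) := by
  rw [← Units.val_mul, ← map_mul, inv_mul_cancel_right]

/-- Comparison of the homogeneous components. -/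
theorem comp (hu : Linnell u) {κ : Type} (I : Finset κ) (k : κ → Γ) (e : κ → D)
    (he : ∀ i ∈ I, e i ∈ Dc u (KK Γ)) (h0 : ∑ i ∈ I, e i * ((u (k i) : Dˣ) : D) = 0) (x : H1R Γ) :
    ∑ i ∈ I.filter (fun i => cl (k i) = x), e i * ((u (k i) : Dˣ) : D) = 0 := by
  -- representatives
  have hrep : ∀ y : H1R Γ, ∃ g : Γ, (∃ i ∈ I, cl (k i) = y) → cl g = y := by
    intro y
    by_cases hy : ∃ i ∈ I, cl (k i) = y
    · obtain ⟨i, hi, h⟩ := hy
      exact ⟨k i, fun _ => h⟩
    · exact ⟨1, fun h => absurd h hy⟩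
  choose ρ hρ using hrep
  let X : Finset (H1R Γ) := I.image (fun i => cl (k i))
  have hX : ∀ y ∈ X, cl (ρ y) = y := by
    intro y hy
    obtain ⟨i, hi, h⟩ := Finset.mem_image.1 hy
    exact hρ y ⟨i, hi, h⟩
  let E : H1R Γ → D := fun y => ∑ i ∈ I.filter (fun i => cl (k i) = y),
    e i * ((u (k i * (ρ y)⁻¹) : Dˣ) : D)
  have hEm : ∀ y ∈ X, E y ∈ Dc u (KK Γ) := by
    intro y hy
    refine (Dc u (KK Γ)).sum_mem fun i hi => ?_
    rw [Finset.mem_filter] at hi
    refine (Dc u (KK Γ)).mul_mem (he i hi.1) (Subfield.subset_closure ⟨_, KK_mem ?_, rfl⟩)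
    rw [hi.2, hX y hy]
  have hE : ∀ y, E y * ((u (ρ y) : Dˣ) : D) =
      ∑ i ∈ I.filter (fun i => cl (k i) = y), e i * ((u (k i) : Dˣ) : D) := by
    intro y
    rw [Finset.sum_mul]
    refine Finset.sum_congr rfl fun i _ => ?_
    rw [mul_assoc, u_mul_inv]
  have hsum : ∑ y ∈ X, E y * ((u (ρ y) : Dˣ) : D) = 0 := by
    rw [← h0, ← Finset.sum_fiberwise_of_maps_to (g := fun i => cl (k i)) (t := X)
      (fun i hi => Finset.mem_image_of_mem _ hi)]
    exact Finset.sum_congr rfl fun y _ => hE y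
  have hinj : Set.InjOn ρ (X : Set (H1R Γ)) := by
    intro y hy z hz hyz
    rw [← hX y hy, ← hX z hz, hyz]
  have hlin := hu (KK Γ) KK_normal (X.image ρ) (by
    intro g hg h hh hgh hmem
    obtain ⟨y, hy, rfl⟩ := Finset.mem_image.1 hg
    obtain ⟨z, hz, rfl⟩ := Finset.mem_image.1 hh
    have h1 : cl (ρ y * (ρ z)⁻¹) = 0 := hmem
    rw [cl_mul, cl_inv, hX y hy, hX z hz] at h1
    apply hgh
    rw [add_neg_eq_zero.1 h1])
  by_cases hx : x ∈ X
  · rw [← hE x]
    have hz : ∀ y ∈ X, E y = 0 := by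
      rw [linearIndependent_iff'] at hlin
      let c : {g : Γ // g ∈ X.image ρ} → Dc u (KK Γ) := fun g =>
        if h : cl (g : Γ) ∈ X then ⟨E (cl (g : Γ)), hEm _ h⟩ else 0
      have hc : ∑ g ∈ Finset.univ, c g • ((u (g : Γ) : Dˣ) : D) = 0 := by
        have h1 : ∀ g : {g : Γ // g ∈ X.image ρ}, c g • ((u (g : Γ) : Dˣ) : D) =
            E (cl (g : Γ)) * ((u (g : Γ) : Dˣ) : D) := by
          intro g
          obtain ⟨y, hy, hyg⟩ := Finset.mem_image.1 g.2
          have h1 : cl (g : Γ) ∈ X := by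
            rw [← hyg, hX y hy]
            exact hy
          show (c g : D) * _ = _
          simp only [c, dif_pos h1]
        rw [Finset.sum_congr rfl (fun g _ => h1 g),
          Finset.sum_coe_sort (X.image ρ) (fun g => E (cl g) * ((u g : Dˣ) : D)),
          Finset.sum_image hinj, ← hsum]
        exact Finset.sum_congr rfl fun y hy => by rw [hX y hy]
      intro y hy
      have h1 := hlin Finset.univ c hc ⟨ρ y, Finset.mem_image_of_mem _ hy⟩ (Finset.mem_univ _)
      have h2 : cl (ρ y) ∈ X := by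
        rw [hX y hy]
        exact hy
      have h3 : c ⟨ρ y, Finset.mem_image_of_mem _ hy⟩ = ⟨E (cl (ρ y)), hEm _ h2⟩ := dif_pos h2
      rw [h3] at h1
      have h4 := congrArg Subtype.val h1
      have h5 : E (cl (ρ y)) = 0 := h4
      rwa [hX y hy] at h5
    rw [hz x hx, zero_mul]
  · have : I.filter (fun i => cl (k i) = x) = ∅ := by
      rw [Finset.filter_eq_empty_iff]
      intro i hi h
      exact hx (Finset.mem_image.2 ⟨i, hi, h⟩)
    rw [this, Finset.sum_empty]

/-- Comparison of the homogeneous components of two representations. -/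
theorem comp2 (hu : Linnell u) {κ κ' : Type} (I : Finset κ) (k : κ → Γ) (e : κ → D)
    (he : ∀ i ∈ I, e i ∈ Dc u (KK Γ)) (J : Finset κ') (l : κ' → Γ) (f : κ' → D)
    (hf : ∀ j ∈ J, f j ∈ Dc u (KK Γ))
    (h0 : ∑ i ∈ I, e i * ((u (k i) : Dˣ) : D) = ∑ j ∈ J, f j * ((u (l j) : Dˣ) : D)) (x : H1R Γ) :
    ∑ i ∈ I.filter (fun i => cl (k i) = x), e i * ((u (k i) : Dˣ) : D) =
      ∑ j ∈ J.filter (fun j => cl (l j) = x), f j * ((u (l j) : Dˣ) : D) := by
  have h := comp hu (I.disjSum J) (Sum.elim k l) (Sum.elim e (fun j => -f j)) (by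
    intro i hi
    rcases i with i | j
    · exact he i (Finset.inl_mem_disjSum.1 hi)
    · exact (Dc u (KK Γ)).neg_mem (hf j (Finset.inr_mem_disjSum.1 hi))) (by
    rw [Finset.sum_disjSum]
    simp only [Sum.elim_inl, Sum.elim_inr, neg_mul]
    rw [Finset.sum_neg_distrib, h0, add_neg_cancel]) x
  rw [Finset.sum_filter, Finset.sum_disjSum] at h
  simp only [Sum.elim_inl, Sum.elim_inr, neg_mul] at h
  rw [Finset.sum_filter, Finset.sum_filter]
  have h2 : ∑ j ∈ J, (if cl (l j) = x then -(f j * ((u (l j) : Dˣ) : D)) else 0) =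
      -∑ j ∈ J, (if cl (l j) = x then f j * ((u (l j) : Dˣ) : D) else 0) := by
    rw [← Finset.sum_neg_distrib]
    refine Finset.sum_congr rfl fun j _ => ?_
    split_ifs
    · rfl
    · rw [neg_zero]
  rw [h2] at h
  exact add_neg_eq_zero.1 h

theorem newton_mem {f : D} {P : Polytope (H1R Γ)} (h : IsNewton u f P) : f ∈ SN u (KK Γ) := by
  obtain ⟨s, a, hs, hinj, ha, rfl, hP⟩ := h
  refine Submodule.sum_mem _ fun g hg => ?_
  exact SN_mul u _ KK_normal (SN_Dc u _ (ha g hg).1) (SN_u u _ g)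

theorem filter_single {s : Finset Γ} (hinj : Set.InjOn cl (s : Set Γ)) {g : Γ} (hg : g ∈ s) :
    s.filter (fun i => cl i = cl g) = {g} := by
  ext h
  rw [Finset.mem_filter, Finset.mem_singleton]
  constructor
  · rintro ⟨h1, h2⟩
    exact hinj h1 hg h2
  · rintro rfl
    exact ⟨hg, rfl⟩

theorem newton_ne (hu : Linnell u) {f : D} {P : Polytope (H1R Γ)} (h : IsNewton u f P) :
    f ≠ 0 := by
  obtain ⟨s, a, ⟨g, hg⟩, hinj, ha, hf, hP⟩ := h
  rintro rfl
  have h1 := comp hu s id a (fun i hi => (ha i hi).1) hf.symm (cl g)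
  have h2 : s.filter (fun i => cl (id i) = cl g) = {g} := filter_single hinj hg
  rw [h2, Finset.sum_singleton] at h1
  exact mul_ne_zero (ha g hg).2 (Units.ne_zero _) h1

theorem strict_max {V : Type} [AddCommGroup V] [Module ℝ V] (C : Finset V) (hC : C.Nonempty)
    (α : V →ₗ[ℝ] ℝ) (hα : ∀ x ∈ C, ∀ y ∈ C, x ≠ y → α x ≠ α y) :
    ∃ p ∈ C, ∀ a ∈ C, a ≠ p → α a < α p := by
  obtain ⟨p, hp, hpm⟩ := C.exists_max_image α hC
  exact ⟨p, hp, fun a ha hap => lt_of_le_of_ne (hpm a ha) (hα a ha p hp hap)⟩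

/-- Newton polytopes are multiplicative. -/
theorem newton_mul [Group.FG Γ] (hu : Linnell u) {f f' : D} {P P' Q : Polytope (H1R Γ)}
    (h : IsNewton u f P) (h' : IsNewton u f' P') (h'' : IsNewton u (f * f') Q) :
    Q.1 = P.1 + P'.1 := by
  haveI : Module.Finite ℝ (H1R Γ) := finite_H1R
  obtain ⟨s, a, hs, hinj, ha, hf, hP⟩ := h
  obtain ⟨s', b, hs', hinj', hb, hf', hP'⟩ := h'
  obtain ⟨s'', c, hs'', hinj'', hc, hf'', hQ⟩ := h''
  let e : Γ × Γ → D := fun x => a x.1 * (((u x.1 : Dˣ) : D) * b x.2 * ((u x.1⁻¹ : Dˣ) : D))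
  have he : ∀ x ∈ s ×ˢ s', e x ∈ Dc u (KK Γ) := by
    intro x hx
    rw [Finset.mem_product] at hx
    exact (Dc u (KK Γ)).mul_mem (ha _ hx.1).1 (conj_Dc u _ KK_normal _ _ (hb _ hx.2).1)
  have he0 : ∀ x ∈ s ×ˢ s', e x ≠ 0 := by
    intro x hx
    rw [Finset.mem_product] at hx
    exact mul_ne_zero (ha _ hx.1).2 (mul_ne_zero (mul_ne_zero (Units.ne_zero _) (hb _ hx.2).2)
      (Units.ne_zero _))
  have hprod : ∑ x ∈ s ×ˢ s', e x * ((u (x.1 * x.2) : Dˣ) : D) =
      ∑ g ∈ s'', c g * ((u g : Dˣ) : D) := by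
    rw [← hf'', hf, hf', Finset.sum_mul_sum, Finset.sum_product]
    refine Finset.sum_congr rfl fun g _ => Finset.sum_congr rfl fun h _ => ?_
    have h1 : ((u g⁻¹ : Dˣ) : D) * ((u g : Dˣ) : D) = 1 := by
      rw [← Units.val_mul, ← map_mul, inv_mul_cancel, map_one, Units.val_one]
    show a g * (((u g : Dˣ) : D) * b h * ((u g⁻¹ : Dˣ) : D)) * ((u (g * h) : Dˣ) : D) = _
    rw [map_mul, Units.val_mul, mul_assoc (a g), mul_assoc (((u g : Dˣ) : D) * b h),
      ← mul_assoc ((u g⁻¹ : Dˣ) : D), h1, one_mul]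
    simp only [mul_assoc]
  have hcomp := comp2 hu (s ×ˢ s') (fun x => x.1 * x.2) e he s'' id c (fun i hi => (hc i hi).1)
    hprod
  set S := s.image cl with hS
  set S' := s'.image cl with hS'
  set S'' := s''.image cl with hS''
  have hPS : P.1 = convexHull ℝ (S : Set (H1R Γ)) := by rw [hP, hS, Finset.coe_image]
  have hPS' : P'.1 = convexHull ℝ (S' : Set (H1R Γ)) := by rw [hP', hS', Finset.coe_image]
  have hQS : Q.1 = convexHull ℝ (S'' : Set (H1R Γ)) := by rw [hQ, hS'', Finset.coe_image]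
  rw [hPS, hPS', hQS, ← convexHull_add, ← Finset.coe_add]
  apply Set.Subset.antisymm
  · apply convexHull_mono
    intro x hx
    obtain ⟨k, hk, rfl⟩ := Finset.mem_image.1 (Finset.mem_coe.1 hx)
    have h1 := hcomp (cl k)
    have h2 : s''.filter (fun i => cl (id i) = cl k) = {k} := filter_single hinj'' hk
    rw [h2, Finset.sum_singleton] at h1
    have h3 : ((s ×ˢ s').filter (fun x => cl (x.1 * x.2) = cl k)).Nonempty := by
      rw [Finset.nonempty_iff_ne_empty]
      intro h4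
      rw [h4, Finset.sum_empty] at h1
      exact mul_ne_zero (hc k hk).2 (Units.ne_zero _) h1.symm
    obtain ⟨x, hx⟩ := h3
    rw [Finset.mem_filter, Finset.mem_product] at hx
    rw [Finset.mem_coe, ← hx.2, cl_mul]
    exact Finset.add_mem_add (Finset.mem_image_of_mem _ hx.1.1) (Finset.mem_image_of_mem _ hx.1.2)
  · apply convexHull_min _ (convex_convexHull ℝ _)
    intro x hx
    by_contra hcon
    obtain ⟨α0, hα0⟩ := sep S'' x hcon
    obtain ⟨α, hα1, hα2⟩ := gen_pert α0 (S ∪ S') (S''.image fun y => (y, x)) (by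
      intro y hy
      obtain ⟨z, hz, rfl⟩ := Finset.mem_image.1 hy
      exact hα0 z hz)
    obtain ⟨p, hp, hpm⟩ := strict_max S (hs.image _) α fun x hx y hy =>
      hα2 x (Finset.mem_union_left _ hx) y (Finset.mem_union_left _ hy)
    obtain ⟨q, hq, hqm⟩ := strict_max S' (hs'.image _) α fun x hx y hy =>
      hα2 x (Finset.mem_union_right _ hx) y (Finset.mem_union_right _ hy)
    have hpm' : ∀ a ∈ S, α a ≤ α p := by
      intro a ha
      by_cases hap : a = p
      · rw [hap]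
      · exact (hpm a ha hap).le
    have hqm' : ∀ a ∈ S', α a ≤ α q := by
      intro a ha
      by_cases hap : a = q
      · rw [hap]
      · exact (hqm a ha hap).le
    have hpq : p + q ∈ S'' := by
      obtain ⟨g0, hg0, rfl⟩ := Finset.mem_image.1 hp
      obtain ⟨h0, hh0, rfl⟩ := Finset.mem_image.1 hq
      have h1 := hcomp (cl g0 + cl h0)
      have h2 : (s ×ˢ s').filter (fun x => cl (x.1 * x.2) = cl g0 + cl h0) = {(g0, h0)} := by
        ext ⟨g, h⟩
        rw [Finset.mem_filter, Finset.mem_product, Finset.mem_singleton]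
        constructor
        · rintro ⟨⟨h3, h4⟩, h5⟩
          dsimp only at h3 h4 h5
          rw [cl_mul] at h5
          have h6 := congrArg α h5
          rw [map_add, map_add] at h6
          have h7 := hpm' _ (Finset.mem_image_of_mem cl h3)
          have h8 := hqm' _ (Finset.mem_image_of_mem cl h4)
          have h9 : cl g = cl g0 := by
            by_contra hne
            have := hpm _ (Finset.mem_image_of_mem cl h3) hne
            linarith
          have h10 : cl h = cl h0 := by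
            by_contra hne
            have := hqm _ (Finset.mem_image_of_mem cl h4) hne
            linarith
          rw [hinj h3 hg0 h9, hinj' h4 hh0 h10]
        · intro h3
          rw [Prod.mk.injEq] at h3
          obtain ⟨rfl, rfl⟩ := h3
          exact ⟨⟨hg0, hh0⟩, cl_mul _ _⟩
      rw [h2, Finset.sum_singleton] at h1
      have h3 : (s''.filter (fun i => cl (id i) = cl g0 + cl h0)).Nonempty := by
        rw [Finset.nonempty_iff_ne_empty]
        intro h4
        rw [h4, Finset.sum_empty] at h1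
        exact mul_ne_zero (he0 (g0, h0) (Finset.mem_product.2 ⟨hg0, hh0⟩)) (Units.ne_zero _) h1
      obtain ⟨k, hk⟩ := h3
      rw [Finset.mem_filter] at hk
      exact Finset.mem_image.2 ⟨k, hk.1, hk.2⟩
    have h1 := hα1 (p + q, x) (Finset.mem_image.2 ⟨_, hpq, rfl⟩)
    obtain ⟨y, hy, z, hz, rfl⟩ := Finset.mem_add.1 (Finset.mem_coe.1 hx)
    dsimp only at h1
    rw [map_add, map_add] at h1
    have h2 := hpm' y hy
    have h3 := hqm' z hz
    linarith

theorem ext_val {V : Type} [AddCommGroup V] [Module ℝ V] {P Q : Polytope V} (h : P.1 = Q.1) :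
    P = Q := Subtype.ext h

/-- `{0}` is the Newton polytope of the non-zero elements of `D(K)`. -/
theorem newton_Dc {d : D} (hd : d ∈ Dc u (KK Γ)) (hd0 : d ≠ 0) : IsNewton u d pzero := by
  refine ⟨{1}, fun _ => d, Finset.singleton_nonempty _, ?_, ?_, ?_, ?_⟩
  · rw [Finset.coe_singleton]
    exact Set.injOn_singleton _ _
  · intro g _
    exact ⟨hd, hd0⟩
  · rw [Finset.sum_singleton, map_one, Units.val_one, mul_one]
  · rw [Finset.coe_singleton, Set.image_singleton, cl_one, convexHull_singleton]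
    rfl

theorem newton_one : IsNewton u (1 : D) pzero := newton_Dc (Dc u (KK Γ)).one_mem one_ne_zero

theorem newton_ex {f : D} (hf : f ∈ SN u (KK Γ)) (hf0 : f ≠ 0) :
    ∃ P : Polytope (H1R Γ), IsNewton u f P := by
  rw [SN_eq] at hf
  obtain ⟨P, hP, -⟩ := exists_newton ⊤ hf hf0
  exact ⟨P, hP⟩

theorem newton_mul' [Group.FG Γ] (hu : Linnell u) {f f' : D} {P P' : Polytope (H1R Γ)}
    (h : IsNewton u f P) (h' : IsNewton u f' P') : IsNewton u (f * f') (padd P P') := by
  obtain ⟨Q, hQ⟩ := newton_ex (SN_mul u _ KK_normal (newton_mem h) (newton_mem h'))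
    (mul_ne_zero (newton_ne hu h) (newton_ne hu h'))
  have h1 : Q = padd P P' := ext_val (newton_mul hu h h' hQ)
  rw [← h1]
  exact hQ

theorem newton_uniq [Group.FG Γ] (hu : Linnell u) {f : D} {P Q : Polytope (H1R Γ)}
    (h : IsNewton u f P) (h' : IsNewton u f Q) : P = Q := by
  have h1 : IsNewton u (f * 1) Q := by rwa [mul_one]
  have h2 := newton_mul hu h newton_one h1
  apply ext_val
  rw [h2]
  show P.1 = P.1 + {0}
  simp

/-- The value of the polytope homomorphism on a non-zero element. -/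
def NR (u : Γ →* Dˣ) (d : D) (x : GV (H1R Γ)) : Prop :=
  ∃ (a : D) (P Q : Polytope (H1R Γ)), IsNewton u a P ∧ IsNewton u (a * d) Q ∧
    x = GV.mk Q - GV.mk P

theorem ore' (hu : Linnell u) {a c : D} (ha : a ∈ SN u (KK Γ)) (hc : c ∈ SN u (KK Γ))
    (ha0 : a ≠ 0) : ∃ a' ∈ SN u (KK Γ), ∃ c' ∈ SN u (KK Γ), a' ≠ 0 ∧ a' * c = c' * a := by
  rw [SN_eq] at ha hc ⊢
  exact ore u hu (KK Γ) ⊤ KK_normal le_top (fun x _ y _ => KK_comm x y) a c ha hc ha0

theorem mk_sub_eq {V : Type} [AddCommGroup V] [Module ℝ V] {P Q R S : Polytope V}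
    (h : padd P Q = padd R S) : GV.mk P + GV.mk Q = GV.mk R + GV.mk S := by
  rw [← mk_padd, ← mk_padd, h]

theorem NR_uniq [Group.FG Γ] (hu : Linnell u) {d : D} {x y : GV (H1R Γ)} (hx : NR u d x)
    (hy : NR u d y) : x = y := by
  obtain ⟨a, P, Q, h1, h2, rfl⟩ := hx
  obtain ⟨b, R, S, h3, h4, rfl⟩ := hy
  obtain ⟨c, hc, c', hc', hc0, hcc⟩ := ore' hu (newton_mem h3) (newton_mem h1) (newton_ne hu h3)
  -- `c * a = c' * b`
  have hc'0 : c' ≠ 0 := by
    rintro rfl
    rw [zero_mul] at hcc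
    exact mul_ne_zero hc0 (newton_ne hu h1) hcc
  obtain ⟨T, hT⟩ := newton_ex hc hc0
  obtain ⟨T', hT'⟩ := newton_ex hc' hc'0
  have e1 : padd T P = padd T' R := by
    apply newton_uniq hu (newton_mul' hu hT h1)
    rw [hcc]
    exact newton_mul' hu hT' h3
  have e2 : padd T Q = padd T' S := by
    apply newton_uniq hu (newton_mul' hu hT h2)
    rw [← mul_assoc, hcc, mul_assoc]
    exact newton_mul' hu hT' h4
  have e3 := mk_sub_eq e1
  have e4 := mk_sub_eq e2
  have e5 : GV.mk Q - GV.mk P = (GV.mk T + GV.mk Q) - (GV.mk T + GV.mk P) := by abel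
  rw [e5, e3, e4]
  abel

theorem NR_ex (hu : Linnell u) (htop : Dc u ⊤ = ⊤) {d : D} (hd : d ≠ 0) : ∃ x, NR u d x := by
  obtain ⟨a, ha, ha0, had⟩ := frac_Dc u hu (KK Γ) ⊤ KK_normal le_top
    (fun x _ y _ => KK_comm x y) d (by rw [htop]; trivial)
  rw [← SN_eq] at ha had
  obtain ⟨P, hP⟩ := newton_ex ha ha0
  obtain ⟨Q, hQ⟩ := newton_ex had (mul_ne_zero ha0 hd)
  exact ⟨_, a, P, Q, hP, hQ, rfl⟩

theorem NR_mul [Group.FG Γ] (hu : Linnell u) {d d' : D} {x y : GV (H1R Γ)} (hx : NR u d x)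
    (hy : NR u d' y) : NR u (d * d') (x + y) := by
  obtain ⟨a, P, Q, h1, h2, rfl⟩ := hx
  obtain ⟨a', R, S, h3, h4, rfl⟩ := hy
  obtain ⟨e, he, c, hc, he0, hec⟩ := ore' hu (newton_mem h3) (newton_mem h2) (newton_ne hu h3)
  -- `e * (a * d) = c * a'`
  have hc0 : c ≠ 0 := by
    rintro rfl
    rw [zero_mul] at hec
    exact mul_ne_zero he0 (newton_ne hu h2) hec
  obtain ⟨T, hT⟩ := newton_ex he he0
  obtain ⟨T', hT'⟩ := newton_ex hc hc0
  have e1 : padd T Q = padd T' R := by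
    apply newton_uniq hu (newton_mul' hu hT h2)
    rw [hec]
    exact newton_mul' hu hT' h3
  refine ⟨e * a, padd T P, padd T' S, newton_mul' hu hT h1, ?_, ?_⟩
  · have h5 : e * a * (d * d') = c * (a' * d') := by
      rw [← mul_assoc, mul_assoc e a d, hec, mul_assoc]
    rw [h5]
    exact newton_mul' hu hT' h4
  · have e2 := mk_sub_eq e1
    rw [mk_padd, mk_padd]
    have e3 : GV.mk Q - GV.mk P + (GV.mk S - GV.mk R) =
        (GV.mk T + GV.mk Q) - GV.mk T - GV.mk P + GV.mk S - GV.mk R := by abel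
    rw [e3, e2]
    abel

theorem NR_newton {f : D} {P : Polytope (H1R Γ)} (h : IsNewton u f P) :
    NR u f (GV.mk P) :=
  ⟨1, pzero, P, newton_one, by rwa [one_mul], by rw [mk_pzero, sub_zero]⟩

/-- Existence of the polytope homomorphism. -/
theorem pol_ex [Group.FG Γ] (hu : Linnell u) (htop : Dc u ⊤ = ⊤) :
    ∃ pol : K1 D →+ GV (H1R Γ), IsPol u pol := by
  let Nm : D → GV (H1R Γ) := fun d => if h : ∃ x, NR u d x then h.choose else 0
  have hNm : ∀ d, d ≠ 0 → NR u d (Nm d) := by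
    intro d hd
    have h := NR_ex hu htop hd
    show NR u d (if h : ∃ x, NR u d x then h.choose else 0)
    rw [dif_pos h]
    exact h.choose_spec
  have hN : ∀ a b : D, a ≠ 0 → b ≠ 0 → Nm (a * b) = Nm a + Nm b := fun a b ha hb =>
    NR_uniq hu (hNm _ (mul_ne_zero ha hb)) (NR_mul hu (hNm a ha) (hNm b hb))
  have hm1 : Nm (-1) = 0 := by
    have h1 : NR u (-1 : D) (GV.mk pzero) := NR_newton
      (newton_Dc ((Dc u (KK Γ)).neg_mem (Dc u (KK Γ)).one_mem) (neg_ne_zero.2 one_ne_zero))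
    rw [mk_pzero] at h1
    exact NR_uniq hu (hNm _ (neg_ne_zero.2 one_ne_zero)) h1
  obtain ⟨h, hh⟩ := exists_K1_hom hN hm1
  refine ⟨h, ?_⟩
  intro f P hP M hM
  have hf0 := newton_ne hu hP
  have hM0 : (M : Matrix (Fin 1) (Fin 1) D) 0 0 ≠ 0 := by
    rw [hM]
    exact hf0
  rw [el_of hM0, hh]
  rw [hM]
  exact NR_uniq hu (hNm f hf0) (NR_newton hP)

/-- Uniqueness of the polytope homomorphism. -/
theorem pol_uniq (hu : Linnell u) (htop : Dc u ⊤ = ⊤) {t : Γ} (ht : ((u t : Dˣ) : D) ≠ 1)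
    (pol pol' : K1 D →+ GV (H1R Γ)) (h : IsPol u pol) (h' : IsPol u pol') : pol = pol' := by
  have hel : ∀ d (hd : d ≠ 0), pol (el d hd) = pol' (el d hd) := by
    intro d hd
    obtain ⟨x, a, P, Q, hP, hQ, rfl⟩ := NR_ex hu htop hd
    have ha0 := newton_ne hu hP
    have h1 := el_mul a d ha0 hd
    have h2 := pol_el h (mul_ne_zero ha0 hd) hQ
    have h3 := pol_el h' (mul_ne_zero ha0 hd) hQ
    rw [h1, map_add, pol_el h ha0 hP] at h2
    rw [h1, map_add, pol_el h' ha0 hP] at h3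
    exact add_left_cancel (h2.trans h3.symm)
  have hE : ∀ a ∈ (⊤ : Subring D), ∀ b ∈ (⊤ : Subring D), b ≠ 0 →
      ∃ q ∈ (⊤ : Subring D), a - q * b = 0 ∨ (0 : ℕ) < 0 := by
    intro a _ b _ hb
    refine ⟨a * b⁻¹, Subring.mem_top _, Or.inl ?_⟩
    rw [mul_assoc, inv_mul_cancel₀ hb, mul_one, sub_self]
  have key : ∀ (n : ℕ) (M : (Matrix (Fin n) (Fin n) D)ˣ), (pol - pol') (K1.mk M) = 0 := by
    intro n M
    have h1 := reduce (⊥ : AddSubmonoid (GV (H1R Γ))) (pol - pol') ((u t : Dˣ) : D)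
      (Units.ne_zero _) ht ⊤ (fun _ => 0) hE (fun d _ hd => by
        rw [AddSubmonoid.mem_bot, AddMonoidHom.sub_apply, hel, sub_self]) _ (Fin n) rfl M
      (fun _ _ => Subring.mem_top _)
    rwa [AddSubmonoid.mem_bot, cls_fin] at h1
  apply AddMonoidHom.ext
  intro x
  obtain ⟨y, rfl⟩ := QuotientAddGroup.mk'_surjective _ x
  rw [← sub_eq_zero, ← AddMonoidHom.sub_apply]
  induction y using FreeAbelianGroup.induction_on with
  | zero => rw [map_zero, map_zero]
  | of p => exact key p.1 p.2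
  | neg p hp => rw [map_neg, map_neg, hp, neg_zero]
  | add x y hx hy => rw [map_add, map_add, hx, hy, add_zero]

end W441PT
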