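import Pool.Agent.W441.PT.Main
import Pool.Agent.W441.PT.Pol

attribute [local instance] L2B.instRingN

/-! Existence and uniqueness of the polytope homomorphism of `D(Γ)`. -/

set_option autoImplicit false

namespace W441PT

open TN970 H970SH

variable {Γ : Type} [Group Γ] {D : Type} [DivisionRing D] {u : Γ →* Dˣ}

theorem exists_unique_pol [Group.FG Γ] (hD : IsDG u) :
    ∃! pol : K1 D →+ GV (H1R Γ), IsPol u pol := by
  obtain ⟨-, -, -, -, -, -, -, htop, hL⟩ := dg_facts hD
  obtain ⟨pol, hpol⟩ := pol_ex hL htop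
  refine ⟨pol, hpol, ?_⟩
  intro pol' hpol'
  by_cases h : ∃ t : Γ, t ≠ 1
  · obtain ⟨t, ht1⟩ := h
    exact pol_uniq hL htop (u_ne_one hL ht1) pol' pol hpol' hpol
  · push Not at h
    have hV : ∀ v : H1R Γ, v = 0 := by
      intro v
      have h1 : (LinearMap.id : H1R Γ →ₗ[ℝ] H1R Γ) = 0 := by
        apply cl_ext
        intro g
        rw [h g, cl_one, map_zero, map_zero]
      exact LinearMap.congr_fun h1 v
    have hz : ∀ P : Polytope (H1R Γ), P = pzero := by
      intro P
      apply Subtype.ext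
      obtain ⟨A, ⟨a, ha⟩, hA⟩ := P.2
      have h3 : a ∈ P.1 := by
        rw [hA]
        exact subset_convexHull ℝ _ ha
      ext x
      rw [hV x]
      rw [hV a] at h3
      exact ⟨fun _ => rfl, fun _ => h3⟩
    apply AddMonoidHom.ext
    intro x
    obtain ⟨P, Q, h1⟩ := gv_cases (pol x)
    obtain ⟨P', Q', h2⟩ := gv_cases (pol' x)
    rw [h1, h2, hz P, hz Q, hz P', hz Q']

end W441PT
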