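import Pool.Agent.W441.PT.Eu

/-! Newton polytopes. -/

set_option autoImplicit false

open scoped Pointwise

namespace W441PT

open TN970 H970SH

/-! ### The group of polytopes -/

section GVsec

variable {V : Type} [AddCommGroup V] [Module ℝ V]

theorem mk_add {P Q R : Polytope V} (h : R.1 = P.1 + Q.1) : GV.mk R = GV.mk P + GV.mk Q := by
  have h1 : FreeAbelianGroup.of R - (FreeAbelianGroup.of P + FreeAbelianGroup.of Q) ∈
      AddSubgroup.closure (GRel V) := AddSubgroup.subset_closure (Or.inl ⟨P, Q, R, h, rfl⟩)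
  have h2 := (QuotientAddGroup.eq_zero_iff _).2 h1
  rw [QuotientAddGroup.mk_sub, QuotientAddGroup.mk_add, sub_eq_zero] at h2
  exact h2

theorem isPolytope_add {P Q : Set V} (hP : IsPolytope P) (hQ : IsPolytope Q) :
    IsPolytope (P + Q) := by
  classical
  obtain ⟨s, hs, rfl⟩ := hP
  obtain ⟨t, ht, rfl⟩ := hQ
  exact ⟨s + t, hs.add ht, by rw [Finset.coe_add, convexHull_add]⟩

/-- Minkowski sum of polytopes. -/
def padd (P Q : Polytope V) : Polytope V := ⟨P.1 + Q.1, isPolytope_add P.2 Q.2⟩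

theorem mk_padd (P Q : Polytope V) : GV.mk (padd P Q) = GV.mk P + GV.mk Q := mk_add rfl

/-- The polytope `{0}`. -/
def pzero : Polytope V := ⟨{0}, {0}, Finset.singleton_nonempty 0, by simp⟩

theorem mk_pzero : GV.mk (pzero : Polytope V) = 0 := by
  have h : GV.mk (pzero : Polytope V) = GV.mk pzero + GV.mk pzero :=
    mk_add (by show ({0} : Set V) = {0} + {0}; simp)
  exact left_eq_add.1 h

theorem gv_cases (x : GV V) : ∃ P Q : Polytope V, x = GV.mk P - GV.mk Q := by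
  obtain ⟨y, rfl⟩ := QuotientAddGroup.mk'_surjective _ x
  induction y using FreeAbelianGroup.induction_on with
  | zero => exact ⟨pzero, pzero, by rw [sub_self, map_zero]⟩
  | of P => exact ⟨P, pzero, by rw [mk_pzero, sub_zero]; rfl⟩
  | neg P _ => exact ⟨pzero, P, by rw [mk_pzero, zero_sub, map_neg]; rfl⟩
  | add x y hx hy =>
    obtain ⟨P, Q, h1⟩ := hx
    obtain ⟨P', Q', h2⟩ := hy
    refine ⟨padd P P', padd Q Q', ?_⟩
    rw [map_add, h1, h2, mk_padd, mk_padd]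
    abel

/-- Differences `[P] - [Q]` with `Q` in the kernel of `α`. -/
def Sf (α : V →ₗ[ℝ] ℝ) : AddSubmonoid (GV V) where
  carrier := {x | ∃ P Q : Polytope V, x = GV.mk P - GV.mk Q ∧ ∀ v ∈ Q.1, α v = 0}
  add_mem' := by
    rintro x y ⟨P, Q, rfl, hQ⟩ ⟨P', Q', rfl, hQ'⟩
    refine ⟨padd P P', padd Q Q', ?_, ?_⟩
    · rw [mk_padd, mk_padd]
      abel
    · rintro v ⟨a, ha, b, hb, rfl⟩
      show α (a + b) = 0
      rw [map_add, hQ a ha, hQ' b hb, add_zero]
  zero_mem' := by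
    refine ⟨pzero, pzero, by rw [sub_self], ?_⟩
    rintro v hv
    have : v = 0 := hv
    rw [this, map_zero]

end GVsec

section

variable {Γ : Type} [Group Γ] {D : Type} [DivisionRing D] {u : Γ →* Dˣ}

theorem linF_cl (φ : Γ →* Multiplicative ℤ) (g : Γ) :
    linF φ (cl g) = ((Multiplicative.toAdd (φ g) : ℤ) : ℝ) := by
  unfold cl
  rw [linF_tmul, one_mul]

theorem KK_normal : (KK Γ).Normal where
  conj_mem := by
    intro k hk g
    have hk' : cl k = 0 := hk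
    show cl (g * k * g⁻¹) = 0
    rw [cl_mul, cl_mul, hk', cl_inv, add_zero, add_neg_cancel]

theorem KK_comm (x y : Γ) : x * y * x⁻¹ * y⁻¹ ∈ KK Γ := by
  show cl (x * y * x⁻¹ * y⁻¹) = 0
  rw [cl_mul, cl_mul, cl_mul, cl_inv, cl_inv]
  abel

theorem KK_le (φ : Γ →* Multiplicative ℤ) : KK Γ ≤ φ.ker := by
  intro g hg
  have hg' : cl g = 0 := hg
  have h := linF_cl φ g
  rw [hg', map_zero] at h
  rw [MonoidHom.mem_ker]
  have h2 : Multiplicative.toAdd (φ g) = 0 := by exact_mod_cast h.symm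
  exact Multiplicative.toAdd.injective (by rw [h2, toAdd_one])

theorem KK_mem {g h : Γ} (hgh : cl g = cl h) : g * h⁻¹ ∈ KK Γ := by
  show cl (g * h⁻¹) = 0
  rw [cl_mul, cl_inv, hgh, add_neg_cancel]

/-- Representation of the elements of the crossed product. -/
theorem exists_rep (N : Subgroup Γ) {f : D} (hf : f ∈ RN u (KK Γ) N) (hf0 : f ≠ 0) :
    ∃ (s : Finset Γ) (a : Γ → D), s.Nonempty ∧ (∀ g ∈ s, g ∈ N) ∧ Set.InjOn cl (s : Set Γ) ∧
      (∀ g ∈ s, a g ∈ Dc u (KK Γ) ∧ a g ≠ 0) ∧ f = ∑ g ∈ s, a g * ((u g : Dˣ) : D) := by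
  classical
  -- coset representatives
  let X : Type := {x : H1R Γ // x ∈ cl '' (N : Set Γ)}
  have hrep : ∀ x : X, ∃ g ∈ N, cl g = x.1 := fun x => by
    obtain ⟨g, hg, h⟩ := x.2
    exact ⟨g, hg, h⟩
  choose ρ hρN hρ using hrep
  have hinj : Function.Injective ρ := by
    intro x y hxy
    exact Subtype.ext (by rw [← hρ x, ← hρ y, hxy])
  have hmem : f ∈ Submodule.span (Dc u (KK Γ)) (Set.range fun x : X => ((u (ρ x) : Dˣ) : D)) := by
    have hle : RN u (KK Γ) N ≤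
        Submodule.span (Dc u (KK Γ)) (Set.range fun x : X => ((u (ρ x) : Dˣ) : D)) := by
      unfold RN
      rw [Submodule.span_le]
      rintro x ⟨g, hg, rfl⟩
      let y : X := ⟨cl g, g, hg, rfl⟩
      have h1 : g * (ρ y)⁻¹ ∈ KK Γ := KK_mem (hρ y).symm
      have h2 := ore_rep u (KK Γ) g (ρ y) h1
      refine Submodule.span_mono ?_ h2
      rw [Set.singleton_subset_iff]
      exact ⟨y, rfl⟩
    exact hle hf
  obtain ⟨c, hc⟩ := (Finsupp.mem_span_range_iff_exists_finsupp).1 hmem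
  refine ⟨c.support.image ρ, fun g => if h : cl g ∈ cl '' (N : Set Γ) then
    ((c ⟨cl g, h⟩ : Dc u (KK Γ)) : D) else 0, ?_, ?_, ?_, ?_, ?_⟩
  · rw [Finset.image_nonempty, Finsupp.support_nonempty_iff]
    rintro rfl
    rw [Finsupp.sum_zero_index] at hc
    exact hf0 hc.symm
  · intro g hg
    obtain ⟨x, _, rfl⟩ := Finset.mem_image.1 hg
    exact hρN x
  · intro g hg h hh hgh
    obtain ⟨x, _, rfl⟩ := Finset.mem_image.1 (Finset.mem_coe.1 hg)
    obtain ⟨y, _, rfl⟩ := Finset.mem_image.1 (Finset.mem_coe.1 hh)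
    rw [hρ, hρ] at hgh
    rw [Subtype.ext hgh]
  · intro g hg
    obtain ⟨x, hx, rfl⟩ := Finset.mem_image.1 hg
    have h1 : cl (ρ x) ∈ cl '' (N : Set Γ) := ⟨_, hρN x, rfl⟩
    have h2 : (⟨cl (ρ x), h1⟩ : X) = x := Subtype.ext (hρ x)
    dsimp only
    rw [dif_pos h1, h2]
    refine ⟨(c x).2, ?_⟩
    intro h
    exact (Finsupp.mem_support_iff.1 hx) (Subtype.ext h)
  · rw [Finset.sum_image (fun x _ y _ h => hinj h), ← hc]
    refine Finset.sum_congr rfl fun x _ => ?_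
    have h1 : cl (ρ x) ∈ cl '' (N : Set Γ) := ⟨_, hρN x, rfl⟩
    have h2 : (⟨cl (ρ x), h1⟩ : X) = x := Subtype.ext (hρ x)
    dsimp only
    rw [dif_pos h1, h2]
    rfl

/-- Newton polytopes exist. -/
theorem exists_newton (N : Subgroup Γ) {f : D} (hf : f ∈ RN u (KK Γ) N) (hf0 : f ≠ 0) :
    ∃ P : Polytope (H1R Γ), IsNewton u f P ∧
      ∀ α : H1R Γ →ₗ[ℝ] ℝ, (∀ g ∈ N, α (cl g) = 0) → ∀ v ∈ P.1, α v = 0 := by
  classical
  obtain ⟨s, a, hs, hN, hinj, ha, hsum⟩ := exists_rep N hf hf0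
  refine ⟨⟨convexHull ℝ (cl '' (s : Set Γ)), s.image cl, hs.image _, by rw [Finset.coe_image]⟩,
    ⟨s, a, hs, hinj, ha, hsum, rfl⟩, ?_⟩
  intro α hα v hv
  have h1 : cl '' (s : Set Γ) ⊆ (LinearMap.ker α : Set (H1R Γ)) := by
    rintro x ⟨g, hg, rfl⟩
    exact hα g (hN g hg)
  exact convexHull_min h1 (LinearMap.ker α).convex hv

theorem pol_el {pol : K1 D →+ GV (H1R Γ)} (hpol : IsPol u pol) {f : D} (hf0 : f ≠ 0)
    {P : Polytope (H1R Γ)} (hP : IsNewton u f P) : pol (el f hf0) = GV.mk P :=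
  hpol f P hP (oneU f hf0) rfl

/-- The values of `pol` on the elements of the crossed product `D(ker φ) * ℤ`. -/
theorem pol_mem (hu : Linnell u) {pol : K1 D →+ GV (H1R Γ)} (hpol : IsPol u pol)
    (φ : Γ →* Multiplicative ℤ) {d : D} (hd : d ∈ SN u φ.ker) (hd0 : d ≠ 0) :
    pol (el d hd0) ∈ Sf (linF φ) := by
  obtain ⟨a, ha, ha0, -, had⟩ := frac_fam u hu (KK Γ) φ.ker KK_normal (KK_le φ)
    (fun x _ y _ => KK_comm x y) (ι := PEmpty) (κ := Unit) PEmpty.elim (fun i => i.elim)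
    (fun _ => d) (fun _ => hd)
  obtain ⟨P, hP, -⟩ := exists_newton ⊤ (f := a * d) (by
    have := had ()
    rwa [SN_eq] at this) (mul_ne_zero ha0 hd0)
  obtain ⟨Q, hQ, hQ'⟩ := exists_newton φ.ker ha ha0
  refine ⟨P, Q, ?_, hQ' _ ?_⟩
  · rw [← pol_el hpol (mul_ne_zero ha0 hd0) hP, ← pol_el hpol ha0 hQ, el_mul a d ha0 hd0, map_add, add_sub_cancel_left]
  · intro g hg
    rw [linF_cl, (MonoidHom.mem_ker).1 hg, toAdd_one, Int.cast_zero]

/-- The non-zero elements of `D(K)` have trivial Newton polytope. -/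
theorem pol_KK {pol : K1 D →+ GV (H1R Γ)} (hpol : IsPol u pol) {d : D} (hd : d ∈ Dc u (KK Γ))
    (hd0 : d ≠ 0) : pol (el d hd0) = 0 := by
  classical
  rw [← mk_pzero]
  refine pol_el hpol hd0 ⟨{1}, fun _ => d, Finset.singleton_nonempty _, ?_, ?_, ?_, ?_⟩
  · rw [Finset.coe_singleton]
    exact Set.injOn_singleton _ _
  · intro g _
    exact ⟨hd, hd0⟩
  · rw [Finset.sum_singleton, map_one, Units.val_one, mul_one]
  · rw [Finset.coe_singleton, Set.image_singleton, cl_one, convexHull_singleton]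
    rfl

theorem pol_kills {pol : K1 D →+ GV (H1R Γ)} (hpol : IsPol u pol) (c : D) (hc0 : c ≠ 0)
    (hc1 : c ≠ 1) : KillsPerm pol := by
  intro n _ _ e
  have hE : ∀ a ∈ (Dc u (KK Γ)).toSubring, ∀ b ∈ (Dc u (KK Γ)).toSubring, b ≠ 0 →
      ∃ q ∈ (Dc u (KK Γ)).toSubring, a - q * b = 0 ∨ (0 : ℕ) < 0 := by
    intro a ha b hb hb0
    refine ⟨a * b⁻¹, (Dc u (KK Γ)).mul_mem ha ((Dc u (KK Γ)).inv_mem hb), Or.inl ?_⟩
    rw [mul_assoc, inv_mul_cancel₀ hb0, mul_one, sub_self]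
  have h := reduce (⊥ : AddSubmonoid (GV (H1R Γ))) pol c hc0 hc1 (Dc u (KK Γ)).toSubring
    (fun _ => 0) hE (fun d hd hd0 => by
      rw [AddSubmonoid.mem_bot]
      exact pol_KK hpol hd hd0) _ n rfl (permU e) (by
      intro i j
      show (1 : Matrix n n D).submatrix e id i j ∈ _
      rw [Matrix.submatrix_apply, Matrix.one_apply]
      split_ifs
      exacts [Subring.one_mem _, Subring.zero_mem _])
  rwa [AddSubmonoid.mem_bot] at h

end

end W441PT
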