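import Pool.Agent.W441.PT.K1b
import Pool.Agent.W441.PT.Defs

/-! Independence of the torsion of an acyclic complex of the choices. -/

set_option autoImplicit false

namespace W441PT

open Matrix H970SH

variable {D : Type} [DivisionRing D]

/-- A homomorphism on `K₁` which kills the permutation matrices. -/
def KillsPerm {A : Type} [AddCommGroup A] (h : K1 D →+ A) : Prop :=
  ∀ (n : Type) [Fintype n] [DecidableEq n] (e : n ≃ n), h (cls (permU e : (Matrix n n D)ˣ)) = 0

theorem change {A : Type} [AddCommGroup A] {h : K1 D →+ A} (hp : KillsPerm h)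
    {a b : Type} [Fintype a] [Fintype b] [DecidableEq a] [DecidableEq b]
    (T T' : Matrix a b D) (G : (Matrix a a D)ˣ) (hG : T' = (G : Matrix a a D) * T)
    (e e' : b ≃ a) (M M' : (Matrix b b D)ˣ) (hM : (M : Matrix b b D) = T.submatrix e id)
    (hM' : (M' : Matrix b b D) = T'.submatrix e' id) :
    h (cls M') = h (cls G) + h (cls M) := by
  have h1 : M' = permU (e'.trans e.symm) * reU e.symm G * M := by
    apply Units.ext
    show (M' : Matrix b b D) = (1 : Matrix b b D).submatrix (e'.trans e.symm) id *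
      (Matrix.reindex e.symm e.symm (G : Matrix a a D)) * (M : Matrix b b D)
    rw [hM, hM', hG]
    ext i j
    rw [Matrix.submatrix_apply, Matrix.mul_apply, Matrix.mul_apply]
    rw [← Equiv.sum_comp e]
    refine Finset.sum_congr rfl fun k _ => ?_
    rw [Matrix.mul_apply, Finset.sum_eq_single (e.symm (e' i))]
    · rw [Matrix.submatrix_apply]
      show _ = (1 : Matrix b b D) (e.symm (e' i)) (e.symm (e' i)) *
        (Matrix.reindex e.symm e.symm (G : Matrix a a D)) _ _ * _
      rw [Matrix.one_apply_eq, one_mul]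
      simp
    · intro l _ hl
      rw [Matrix.submatrix_apply, Matrix.one_apply, if_neg, zero_mul]
      intro hh
      exact hl hh.symm
    · intro hh
      exact absurd (Finset.mem_univ _) hh
  rw [h1, cls_mul, cls_mul, cls_reU, map_add, map_add, hp, zero_add]

theorem alt_sum {A : Type} [AddCommGroup A] (t : ℕ → A) (h0 : t 0 = 0) (m : ℕ) :
    ∑ n ∈ Finset.range m, (-1 : ℤ) ^ n • (t (n + 1) + t n) = -((-1 : ℤ) ^ m • t m) := by
  induction m with
  | zero => simp [h0]
  | succ m ih =>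
    rw [Finset.sum_range_succ, ih, pow_succ, smul_add]
    have : ((-1 : ℤ) ^ m * -1) • t (m + 1) = -((-1 : ℤ) ^ m • t (m + 1)) := by
      rw [mul_neg_one, neg_smul]
    rw [this]
    abel

/-- The two-sided inverse of `c n`, split in two. -/
theorem split_inv {a a' b : Type} [Fintype a] [Fintype a'] [Fintype b] [DecidableEq a]
    [DecidableEq a'] [DecidableEq b] (B : Matrix a b D) (L : Matrix a' b D) (e : b ≃ a ⊕ a')
    (M : (Matrix b b D)ˣ) (hM : (M : Matrix b b D) = (Matrix.fromRows B L).submatrix e id) :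
    ∃ (P : Matrix b a D) (Q : Matrix b a' D), B * P = 1 ∧ B * Q = 0 ∧ L * P = 0 ∧ L * Q = 1 ∧
      P * B + Q * L = 1 := by
  set W : Matrix b (a ⊕ a') D := (M.inv).submatrix id e.symm with hW
  have h1 : Matrix.fromRows B L * W = 1 := by
    have h2 : (M : Matrix b b D) * M.inv = 1 := M.val_inv
    rw [hM] at h2
    ext i j
    have h3 := congrFun (congrFun h2 (e.symm i)) (e.symm j)
    rw [Matrix.mul_apply] at h3 ⊢
    simp only [Matrix.submatrix_apply, Equiv.apply_symm_apply, id] at h3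
    rw [hW]
    simp only [Matrix.submatrix_apply, id]
    rw [h3, Matrix.one_apply, Matrix.one_apply]
    simp
  have h4 : W * Matrix.fromRows B L = 1 := by
    have h2 : M.inv * (M : Matrix b b D) = 1 := M.inv_val
    rw [hM] at h2
    rw [← h2]
    ext i j
    rw [Matrix.mul_apply, Matrix.mul_apply, ← Equiv.sum_comp e]
    refine Finset.sum_congr rfl fun k _ => ?_
    rw [hW]
    simp
  have hWc : W = Matrix.fromCols W.toCols₁ W.toCols₂ := (Matrix.fromCols_toCols W).symm
  refine ⟨W.toCols₁, W.toCols₂, ?_⟩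
  rw [hWc, Matrix.fromRows_mul_fromCols, ← Matrix.fromBlocks_one, Matrix.fromBlocks_inj] at h1
  rw [hWc, Matrix.fromCols_mul_fromRows] at h4
  exact ⟨h1.1, h1.2.1, h1.2.2.1, h1.2.2.2, h4⟩

theorem tor_beta {r : ℕ → ℕ} {β β' : ℕ → ℕ} (h0 : β 0 = 0) (h0' : β' 0 = 0)
    (e : ∀ n, Fin (r n) ≃ Fin (β (n + 1)) ⊕ Fin (β n))
    (e' : ∀ n, Fin (r n) ≃ Fin (β' (n + 1)) ⊕ Fin (β' n)) : β = β' := by
  funext n
  induction n with
  | zero => rw [h0, h0']
  | succ n ih =>
    have h1 := Fintype.card_congr (e n)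
    have h2 := Fintype.card_congr (e' n)
    simp only [Fintype.card_fin, Fintype.card_sum] at h1 h2
    omega

/-- The torsion does not depend on the choices, up to signs. -/
theorem torsion_unique {A : Type} [AddCommGroup A] {h : K1 D →+ A} (hp : KillsPerm h)
    (c : D) (hc0 : c ≠ 0) (hc1 : c ≠ 1)
    (r : ℕ → ℕ) (d : ∀ n, Matrix (Fin (r (n + 1))) (Fin (r n)) D)
    (hdd : ∀ n, d (n + 1) * d n = 0) (τ τ' : K1 D) (h1 : IsTorsion r d τ)
    (h2 : IsTorsion r d τ') : h τ = h τ' := by
  obtain ⟨β, L, x, m, hβ0, hm, hx, rfl⟩ := h1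
  obtain ⟨β', L', x', m', hβ0', hm', hx', rfl⟩ := h2
  choose e M hM hx using hx
  choose e' M' hM' hx' using hx'
  obtain rfl : β = β' := tor_beta hβ0 hβ0' e e'
  -- the inverse matrices
  choose P Q hBP hBQ hLP hLQ hPQ using fun n => split_inv (L (n + 1) * d n) (L n) (e n) (M n) (hM n)
  choose P' Q' hBP' hBQ' hLP' hLQ' hPQ' using fun n =>
    split_inv (L' (n + 1) * d n) (L' n) (e' n) (M' n) (hM' n)
  obtain ⟨g, hg⟩ : ∃ g : ∀ n, Matrix (Fin (β (n + 1))) (Fin (β (n + 1))) D,
    g = fun n => L' (n + 1) * Q (n + 1) := ⟨_, rfl⟩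
  obtain ⟨g', hg'⟩ : ∃ g' : ∀ n, Matrix (Fin (β (n + 1))) (Fin (β (n + 1))) D,
    g' = fun n => L (n + 1) * Q' (n + 1) := ⟨_, rfl⟩
  obtain ⟨y, hy⟩ : ∃ y : ∀ n, Matrix (Fin (β (n + 1))) (Fin (β (n + 1 + 1))) D,
    y = fun n => L' (n + 1) * P (n + 1) := ⟨_, rfl⟩
  obtain ⟨y', hy'⟩ : ∃ y' : ∀ n, Matrix (Fin (β (n + 1))) (Fin (β (n + 1 + 1))) D,
    y' = fun n => L (n + 1) * P' (n + 1) := ⟨_, rfl⟩
  have hL' : ∀ n, L' (n + 1) = y n * (L (n + 1 + 1) * d (n + 1)) + g n * L (n + 1) := by
    intro n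
    rw [hy, hg]
    dsimp only
    rw [Matrix.mul_assoc, Matrix.mul_assoc (L' (n + 1)) (Q (n + 1)), ← Matrix.mul_add, hPQ,
      Matrix.mul_one]
  have hL : ∀ n, L (n + 1) = y' n * (L' (n + 1 + 1) * d (n + 1)) + g' n * L' (n + 1) := by
    intro n
    rw [hy', hg']
    dsimp only
    rw [Matrix.mul_assoc, Matrix.mul_assoc (L (n + 1)) (Q' (n + 1)), ← Matrix.mul_add, hPQ',
      Matrix.mul_one]
  have hb' : ∀ n, L' (n + 1) * d n = g n * (L (n + 1) * d n) := by
    intro n
    rw [hL', Matrix.add_mul, Matrix.mul_assoc, Matrix.mul_assoc (L (n + 1 + 1)), hdd,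
      Matrix.mul_zero, Matrix.mul_zero, zero_add, Matrix.mul_assoc]
  have hb : ∀ n, L (n + 1) * d n = g' n * (L' (n + 1) * d n) := by
    intro n
    rw [hL, Matrix.add_mul, Matrix.mul_assoc, Matrix.mul_assoc (L' (n + 1 + 1)), hdd,
      Matrix.mul_zero, Matrix.mul_zero, zero_add, Matrix.mul_assoc]
  have hgg : ∀ n, g' n * g n = 1 := by
    intro n
    have h3 : L (n + 1) * d n = g' n * (g n * (L (n + 1) * d n)) := by
      rw [← hb']
      exact hb n
    have h4 : L (n + 1) * d n * P n = g' n * (g n * (L (n + 1) * d n)) * P n := by rw [← h3]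
    rw [Matrix.mul_assoc (g' n), Matrix.mul_assoc (g n), hBP, Matrix.mul_one] at h4
    exact h4.symm
  have hgg' : ∀ n, g n * g' n = 1 := by
    intro n
    have h3 : L' (n + 1) * d n = g n * (g' n * (L' (n + 1) * d n)) := by
      rw [← hb]
      exact hb' n
    have h4 : L' (n + 1) * d n * P' n = g n * (g' n * (L' (n + 1) * d n)) * P' n := by rw [← h3]
    rw [Matrix.mul_assoc (g n), Matrix.mul_assoc (g' n), hBP', Matrix.mul_one] at h4
    exact h4.symm
  set gU : ∀ n, (Matrix (Fin (β (n + 1))) (Fin (β (n + 1))) D)ˣ := fun n =>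
    ⟨g n, g' n, hgg' n, hgg n⟩ with hgU
  set t : ℕ → A := fun n => Nat.casesOn n 0 (fun n => h (cls (gU n))) with ht
  have key : ∀ n, h (x' n) = (t (n + 1) + t n) + h (x n) := by
    intro n
    rw [hx, hx', ← cls_fin, ← cls_fin]
    rcases n with _ | n
    · -- n = 0
      have hemp : IsEmpty (Fin (β 0)) := by rw [hβ0]; infer_instance
      have h5 := change hp (Matrix.fromRows (L (0 + 1) * d 0) (L 0))
        (Matrix.fromRows (L' (0 + 1) * d 0) (L' 0)) (diagU (gU 0) 1) (by
          have h6 : (diagU (gU 0) (1 : (Matrix (Fin (β 0)) (Fin (β 0)) D)ˣ)).val =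
              Matrix.fromBlocks (g 0) 0 0 1 := rfl
          rw [h6, Matrix.fromBlocks_mul_fromRows, ← hb', Matrix.zero_mul, add_zero]
          congr 1
          ext i j
          exact isEmptyElim i) (e 0) (e' 0) (M 0) (M' 0) (hM 0) (hM' 0)
      rw [h5, cls_stab]
      simp [ht]
    · -- successor
      set GU : (Matrix (Fin (β (n + 1 + 1)) ⊕ Fin (β (n + 1)))
          (Fin (β (n + 1 + 1)) ⊕ Fin (β (n + 1))) D)ˣ :=
        ⟨Matrix.fromBlocks (g (n + 1)) 0 (y n) (g n),
          Matrix.fromBlocks (g' (n + 1)) 0 (-(g' n * y n * g' (n + 1))) (g' n), by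
            rw [Matrix.fromBlocks_multiply, ← Matrix.fromBlocks_one, Matrix.fromBlocks_inj]
            refine ⟨?_, ?_, ?_, ?_⟩
            · rw [hgg', Matrix.zero_mul, add_zero]
            · rw [Matrix.mul_zero, Matrix.zero_mul, add_zero]
            · rw [Matrix.mul_neg, ← Matrix.mul_assoc, ← Matrix.mul_assoc, hgg', Matrix.one_mul,
                add_neg_cancel]
            · rw [Matrix.mul_zero, zero_add, hgg'], by
            rw [Matrix.fromBlocks_multiply, ← Matrix.fromBlocks_one, Matrix.fromBlocks_inj]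
            refine ⟨?_, ?_, ?_, ?_⟩
            · rw [hgg, Matrix.zero_mul, add_zero]
            · rw [Matrix.mul_zero, Matrix.zero_mul, add_zero]
            · rw [Matrix.neg_mul, Matrix.mul_assoc, Matrix.mul_assoc, hgg, Matrix.mul_one,
                neg_add_cancel]
            · rw [Matrix.mul_zero, zero_add, hgg]⟩ with hGU
      have h5 := change hp (Matrix.fromRows (L (n + 1 + 1) * d (n + 1)) (L (n + 1)))
        (Matrix.fromRows (L' (n + 1 + 1) * d (n + 1)) (L' (n + 1))) GU (by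
          have h6 : GU.val = Matrix.fromBlocks (g (n + 1)) 0 (y n) (g n) := rfl
          rw [h6, Matrix.fromBlocks_mul_fromRows, ← hb', Matrix.zero_mul, add_zero, ← hL'])
          (e (n + 1)) (e' (n + 1)) (M (n + 1)) (M' (n + 1)) (hM (n + 1)) (hM' (n + 1))
      rw [h5, cls_lower c hc0 hc1 (gU (n + 1)) (y n) (gU n) GU rfl, map_add]
  -- sums
  have hz : ∀ n, m ≤ n → h (x n) = 0 := by
    intro n hn
    have : IsEmpty (Fin (r n)) := by rw [hm n hn]; infer_instance
    rw [hx, ← cls_fin, cls_empty, map_zero]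
  have hz' : ∀ n, m' ≤ n → h (x' n) = 0 := by
    intro n hn
    have : IsEmpty (Fin (r n)) := by rw [hm' n hn]; infer_instance
    rw [hx', ← cls_fin, cls_empty, map_zero]
  have hs1 : ∀ k, m ≤ k → h (∑ n ∈ Finset.range m, (-1 : ℤ) ^ n • x n) =
      ∑ n ∈ Finset.range k, (-1 : ℤ) ^ n • h (x n) := by
    intro k hk
    rw [map_sum]
    simp only [map_zsmul]
    refine Finset.sum_subset (Finset.range_mono hk) ?_
    intro n _ hn
    rw [hz n (by simpa using hn), smul_zero]
  have hs2 : ∀ k, m' ≤ k → h (∑ n ∈ Finset.range m', (-1 : ℤ) ^ n • x' n) =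
      ∑ n ∈ Finset.range k, (-1 : ℤ) ^ n • h (x' n) := by
    intro k hk
    rw [map_sum]
    simp only [map_zsmul]
    refine Finset.sum_subset (Finset.range_mono hk) ?_
    intro n _ hn
    rw [hz' n (by simpa using hn), smul_zero]
  rw [hs1 (max m m') (le_max_left _ _), hs2 (max m m') (le_max_right _ _)]
  have h6 : ∑ n ∈ Finset.range (max m m'), (-1 : ℤ) ^ n • h (x' n) =
      ∑ n ∈ Finset.range (max m m'), (-1 : ℤ) ^ n • (t (n + 1) + t n) +
        ∑ n ∈ Finset.range (max m m'), (-1 : ℤ) ^ n • h (x n) := by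
    rw [← Finset.sum_add_distrib]
    refine Finset.sum_congr rfl fun n _ => ?_
    rw [key, smul_add]
  have h7 : t (max m m') = 0 := by
    rcases hk : max m m' with _ | k
    · rfl
    · have h8 : r (k + 1) = 0 := hm _ (by rw [← hk]; exact le_max_left _ _)
      have h9 := Fintype.card_congr (e (k + 1))
      simp only [Fintype.card_fin, Fintype.card_sum] at h9
      have h10 : β (k + 1) = 0 := by omega
      have : IsEmpty (Fin (β (k + 1))) := by rw [h10]; infer_instance
      show h (cls (gU k)) = 0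
      rw [cls_empty, map_zero]
  rw [h6, alt_sum t rfl, h7, smul_zero, neg_zero, zero_add]

end W441PT
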