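import Pool.Agent.W441.PT.TorA

/-! Bases over a Euclidean subring and the torsion. -/

set_option autoImplicit false

namespace W441PT

open Matrix H970SH

variable {D : Type} [DivisionRing D]

/-- Submodules of `E ^ n` over a Euclidean subring `E` have bases which are independent over
`D`. -/
theorem euclid_basis {n : Type} [Fintype n] [DecidableEq n] (E : Subring D) (ν : D → ℕ)
    (hE : ∀ a ∈ E, ∀ b ∈ E, b ≠ 0 → ∃ q ∈ E, a - q * b = 0 ∨ ν (a - q * b) < ν b)
    (s : Finset n) : ∀ (M : AddSubgroup (n → D)), (∀ x ∈ M, ∀ j, x j ∈ E) →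
      (∀ a ∈ E, ∀ x ∈ M, a • x ∈ M) → (∀ x ∈ M, ∀ j, j ∉ s → x j = 0) →
      ∃ (k : ℕ) (B : Matrix (Fin k) n D), (∀ i, B i ∈ M) ∧
        (∀ x ∈ M, ∃ z : Fin k → D, (∀ i, z i ∈ E) ∧ x = z ᵥ* B) ∧
        ∀ z : Fin k → D, z ᵥ* B = 0 → z = 0 := by
  induction s using Finset.induction_on with
  | empty =>
    intro M _ _ h0
    refine ⟨0, 0, fun i => i.elim0, fun x hx => ⟨fun i => i.elim0, fun i => i.elim0, ?_⟩,
      fun z _ => funext fun i => i.elim0⟩
    have hx0 : x = 0 := funext fun j => h0 x hx j (by simp)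
    rw [hx0, Matrix.vecMul_zero]
  | insert i s hi ih =>
    intro M hM hsm h0
    -- the submodule of the elements with vanishing coordinate `i`
    set M' : AddSubgroup (n → D) :=
      { carrier := {x | x ∈ M ∧ x i = 0}
        add_mem' := by
          rintro x y ⟨hx, hx0⟩ ⟨hy, hy0⟩
          exact ⟨M.add_mem hx hy, by rw [Pi.add_apply, hx0, hy0, add_zero]⟩
        zero_mem' := ⟨M.zero_mem, rfl⟩
        neg_mem' := by
          rintro x ⟨hx, hx0⟩
          exact ⟨M.neg_mem hx, by rw [Pi.neg_apply, hx0, neg_zero]⟩ } with hM'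
    obtain ⟨k, B, hB1, hB2, hB3⟩ := ih M' (fun x hx => hM x hx.1)
      (fun a ha x hx => ⟨hsm a ha x hx.1, by
        show a * x i = 0
        rw [hx.2, mul_zero]⟩) (fun x hx j hj => by
        by_cases hji : j = i
        · rw [hji]
          exact hx.2
        · exact h0 x hx.1 j (by
            rw [Finset.mem_insert]
            push Not
            exact ⟨hji, hj⟩))
    by_cases hall : ∀ x ∈ M, x i = 0
    · exact ⟨k, B, fun j => (hB1 j).1, fun x hx => hB2 x ⟨hx, hall x hx⟩, hB3⟩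
    · push Not at hall
      obtain ⟨x0, hx0, hx0i⟩ := hall
      -- an element with non-zero coordinate of least size
      have hne : ∃ k : ℕ, ∃ x ∈ M, x i ≠ 0 ∧ ν (x i) = k := ⟨_, x0, hx0, hx0i, rfl⟩
      classical
      obtain ⟨b, hb, hbi, hbν⟩ := Nat.find_spec hne
      have hmin : ∀ x ∈ M, x i ≠ 0 → ν (b i) ≤ ν (x i) := by
        intro x hx hxi
        rw [hbν]
        exact Nat.find_min' hne ⟨x, hx, hxi, rfl⟩
      have hdiv : ∀ x ∈ M, ∃ q ∈ E, x i = q * b i := by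
        intro x hx
        obtain ⟨q, hq, hq'⟩ := hE (x i) (hM x hx i) (b i) (hM b hb i) hbi
        refine ⟨q, hq, ?_⟩
        rcases hq' with h | h
        · exact sub_eq_zero.1 h
        · by_contra hcon
          have h1 : x - q • b ∈ M := M.sub_mem hx (hsm q hq b hb)
          have h2 : (x - q • b) i = x i - q * b i := rfl
          have h3 := hmin _ h1 (by rw [h2]; exact sub_ne_zero.2 hcon)
          rw [h2] at h3
          omega
      have hvec : ∀ z : Fin (k + 1) → D, z ᵥ* (Matrix.of (Fin.cons b B : Fin (k + 1) → n → D)) =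
          z 0 • b + (fun j => z j.succ) ᵥ* B := by
        intro z
        ext j
        rw [Matrix.vecMul, dotProduct, Fin.sum_univ_succ]
        rfl
      refine ⟨k + 1, Matrix.of (Fin.cons b B : Fin (k + 1) → n → D), ?_, ?_, ?_⟩
      · intro j
        refine Fin.cases ?_ (fun j => ?_) j
        · exact hb
        · exact (hB1 j).1
      · intro x hx
        obtain ⟨q, hq, hqx⟩ := hdiv x hx
        obtain ⟨z, hz, hzx⟩ := hB2 (x - q • b) ⟨M.sub_mem hx (hsm q hq b hb), by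
          show x i - q * b i = 0
          rw [hqx, sub_self]⟩
        refine ⟨Fin.cons q z, ?_, ?_⟩
        · intro j
          refine Fin.cases ?_ (fun j => ?_) j
          · exact hq
          · exact hz j
        · rw [hvec]
          show x = q • b + z ᵥ* B
          rw [← hzx, add_sub_cancel]
      · intro z hz
        rw [hvec] at hz
        have hBi : ((fun j => z j.succ) ᵥ* B) i = 0 := by
          rw [Matrix.vecMul, dotProduct]
          refine Finset.sum_eq_zero fun j _ => ?_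
          have : B j i = 0 := (hB1 j).2
          rw [this, mul_zero]
        have h1 : z 0 * b i = 0 := by
          have := congrFun hz i
          rw [Pi.add_apply, hBi, add_zero] at this
          exact this
        have h2 : z 0 = 0 := (mul_eq_zero.1 h1).resolve_right hbi
        rw [h2, zero_smul, zero_add] at hz
        have h3 := hB3 _ hz
        funext j
        refine Fin.cases ?_ (fun j => ?_) j
        · exact h2
        · exact congrFun h3 j

/-- Row vectors and matrices. -/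
theorem vecMul_ext {k n : Type} [Fintype k] [DecidableEq k] {A B : Matrix k n D}
    (h : ∀ i, A i = B i) : A = B := funext h

theorem mul_row {l k n : Type} [Fintype k] (A : Matrix l k D) (B : Matrix k n D) (i : l) :
    (A * B) i = A i ᵥ* B := by
  ext j
  rw [Matrix.mul_apply]
  rfl

/-- Independent rows can be cancelled. -/
theorem cancel_right {l k n : Type} [Fintype k] {B : Matrix k n D}
    (hB : ∀ z : k → D, z ᵥ* B = 0 → z = 0) {A A' : Matrix l k D} (h : A * B = A' * B) : A = A' := by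
  have h1 : (A - A') * B = 0 := by rw [Matrix.sub_mul, h, sub_self]
  have h2 : A - A' = 0 := by
    funext i
    apply hB
    rw [← mul_row, h1]
    rfl
  exact sub_eq_zero.1 h2

/-- Data over a Euclidean subring. -/
theorem euclid_data (E : Subring D) (ν : D → ℕ)
    (hE : ∀ a ∈ E, ∀ b ∈ E, b ≠ 0 → ∃ q ∈ E, a - q * b = 0 ∨ ν (a - q * b) < ν b)
    {p q : ℕ} (d : Matrix (Fin p) (Fin q) D) (hd : ∀ i j, d i j ∈ E) :
    ∃ (k : ℕ) (X : Matrix (Fin k) (Fin p) D) (Z : Matrix (Fin p) (Fin k) D),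
      (∀ i j, X i j ∈ E) ∧ (∀ i j, Z i j ∈ E) ∧ X * Z = 1 ∧ d = Z * (X * d) ∧
      ∀ z : Fin k → D, z ᵥ* (X * d) = 0 → z = 0 := by
  set M : AddSubgroup (Fin q → D) :=
    { carrier := {x | ∃ y : Fin p → D, (∀ i, y i ∈ E) ∧ x = y ᵥ* d}
      add_mem' := by
        rintro x y ⟨x', hx', rfl⟩ ⟨y', hy', rfl⟩
        exact ⟨x' + y', fun i => E.add_mem (hx' i) (hy' i), by rw [Matrix.add_vecMul]⟩
      zero_mem' := ⟨0, fun i => E.zero_mem, by rw [Matrix.zero_vecMul]⟩
      neg_mem' := by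
        rintro x ⟨x', hx', rfl⟩
        exact ⟨-x', fun i => E.neg_mem (hx' i), by rw [Matrix.neg_vecMul]⟩ } with hM
  obtain ⟨k, B, hB1, hB2, hB3⟩ := euclid_basis E ν hE Finset.univ M (by
    rintro x ⟨y, hy, rfl⟩ j
    rw [Matrix.vecMul, dotProduct]
    exact E.sum_mem fun i _ => E.mul_mem (hy i) (hd i j)) (by
    rintro a ha x ⟨y, hy, rfl⟩
    exact ⟨a • y, fun i => E.mul_mem ha (hy i), by rw [Matrix.smul_vecMul]⟩) (by
    intro x _ j hj
    exact absurd (Finset.mem_univ _) hj)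
  choose X hX1 hX2 using hB1
  have hXd : (Matrix.of X) * d = B := by
    funext i
    rw [mul_row, hX2]
    rfl
  have hrow : ∀ i, d i ∈ M := by
    intro i
    refine ⟨Pi.single i 1, ?_, ?_⟩
    · intro j
      by_cases hj : j = i
      · subst hj
        rw [Pi.single_eq_same]
        exact E.one_mem
      · rw [Pi.single_eq_of_ne hj]
        exact E.zero_mem
    · rw [Matrix.single_one_vecMul]
      rfl
  choose Z hZ1 hZ2 using fun i => hB2 (d i) (hrow i)
  have hZB : d = (Matrix.of Z) * B := by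
    funext i
    rw [mul_row]
    exact hZ2 i
  refine ⟨k, Matrix.of X, Matrix.of Z, hX1, hZ1, ?_, ?_, ?_⟩
  · apply cancel_right hB3
    rw [Matrix.mul_assoc, ← hZB, hXd, Matrix.one_mul]
  · rw [hXd]
    exact hZB
  · rw [hXd]
    exact hB3

/-- The invertible matrices in the definition of the torsion. -/
theorem unit_of {r0 b1 b0 r1 : ℕ} (X1 : Matrix (Fin b1) (Fin r1) D) (Z1 : Matrix (Fin r1) (Fin b1) D)
    (d : Matrix (Fin r1) (Fin r0) D) (X0 : Matrix (Fin b0) (Fin r0) D)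
    (Z0 : Matrix (Fin r0) (Fin b0) D) (hd : d = Z1 * (X1 * d))
    (hind : ∀ z : Fin b1 → D, z ᵥ* (X1 * d) = 0 → z = 0) (h0 : X0 * Z0 = 1)
    (hz : X1 * d * Z0 = 0) (Y : Matrix (Fin r0) (Fin r1) D) (hY : 1 - Z0 * X0 = Y * d) :
    ∃ (e : Fin r0 ≃ Fin b1 ⊕ Fin b0) (M : (Matrix (Fin r0) (Fin r0) D)ˣ),
      (M : Matrix (Fin r0) (Fin r0) D) = (Matrix.fromRows (X1 * d) X0).submatrix e id ∧
      (M⁻¹).val = (Matrix.fromCols (Y * Z1) Z0).submatrix id e := by
  have h1 : (Y * Z1) * (X1 * d) + Z0 * X0 = 1 := by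
    rw [Matrix.mul_assoc, ← hd, ← hY, sub_add_cancel]
  have h2 : (X1 * d) * (Y * Z1) = 1 := by
    apply cancel_right hind
    rw [Matrix.one_mul, Matrix.mul_assoc (X1 * d)]
    have h3 : X1 * d * ((Y * Z1) * (X1 * d) + Z0 * X0) = X1 * d := by rw [h1, Matrix.mul_one]
    rw [Matrix.mul_add, ← Matrix.mul_assoc (X1 * d) Z0, hz, Matrix.zero_mul, add_zero] at h3
    exact h3
  have h4 : X0 * (Y * Z1) = 0 := by
    apply cancel_right hind
    rw [Matrix.zero_mul, Matrix.mul_assoc X0]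
    have h3 : X0 * ((Y * Z1) * (X1 * d) + Z0 * X0) = X0 := by rw [h1, Matrix.mul_one]
    rw [Matrix.mul_add, ← Matrix.mul_assoc X0 Z0, h0, Matrix.one_mul] at h3
    exact add_eq_right.1 h3
  have h5 : Matrix.fromRows (X1 * d) X0 * Matrix.fromCols (Y * Z1) Z0 = 1 := by
    rw [Matrix.fromRows_mul_fromCols, h2, hz, h4, h0, Matrix.fromBlocks_one]
  have h6 : Matrix.fromCols (Y * Z1) Z0 * Matrix.fromRows (X1 * d) X0 = 1 := by
    rw [Matrix.fromCols_mul_fromRows, h1]
  have hcard : Fintype.card (Fin r0) = Fintype.card (Fin b1 ⊕ Fin b0) :=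
    card_eq_of_linearEquiv D (Matrix.toLinearEquivRight'OfInv h5 h6)
  obtain ⟨e⟩ := Fintype.card_eq.1 hcard
  refine ⟨e, ⟨(Matrix.fromRows (X1 * d) X0).submatrix e id,
    (Matrix.fromCols (Y * Z1) Z0).submatrix id e, ?_, ?_⟩, rfl, rfl⟩
  · have := Matrix.submatrix_mul (Matrix.fromRows (X1 * d) X0) (Matrix.fromCols (Y * Z1) Z0) e id e
      Function.bijective_id
    rw [h5] at this
    rw [← this, Matrix.submatrix_one_equiv]
  · have := Matrix.submatrix_mul (Matrix.fromCols (Y * Z1) Z0) (Matrix.fromRows (X1 * d) X0) id e id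
      e.bijective
    rw [h6] at this
    rw [← this, Matrix.submatrix_id_id]

/-- The data for all differentials. -/
theorem all_data (E : Subring D) (ν : D → ℕ)
    (hE : ∀ a ∈ E, ∀ b ∈ E, b ≠ 0 → ∃ q ∈ E, a - q * b = 0 ∨ ν (a - q * b) < ν b)
    (r : ℕ → ℕ) (d : ∀ n, Matrix (Fin (r (n + 1))) (Fin (r n)) D) (hd : ∀ n i j, d n i j ∈ E)
    (hdd : ∀ n, d (n + 1) * d n = 0) :
    ∃ (β : ℕ → ℕ) (X : ∀ n, Matrix (Fin (β n)) (Fin (r n)) D)
      (Z : ∀ n, Matrix (Fin (r n)) (Fin (β n)) D), β 0 = 0 ∧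
      (∀ n i j, X n i j ∈ E) ∧ (∀ n i j, Z n i j ∈ E) ∧ (∀ n, X n * Z n = 1) ∧
      (∀ n, d n = Z (n + 1) * (X (n + 1) * d n)) ∧
      (∀ n, ∀ z : Fin (β (n + 1)) → D, z ᵥ* (X (n + 1) * d n) = 0 → z = 0) ∧
      (∀ n, X (n + 1) * d n * Z n = 0) ∧
      ((1 : Matrix (Fin (r 0)) (Fin (r 0)) D) - Z 0 * X 0 = 1) ∧
      ∀ n, ((1 : Matrix (Fin (r (n + 1))) (Fin (r (n + 1))) D) - Z (n + 1) * X (n + 1)) * d n = 0 := by
  choose k X Z hX hZ hXZ hdZ hind using fun n => euclid_data E ν hE (d n) (hd n)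
  let β : ℕ → ℕ := fun n => Nat.casesOn n 0 k
  let X' : ∀ n, Matrix (Fin (β n)) (Fin (r n)) D := fun n => match n with
    | 0 => fun i => i.elim0
    | n + 1 => X n
  let Z' : ∀ n, Matrix (Fin (r n)) (Fin (β n)) D := fun n => match n with
    | 0 => fun _ i => i.elim0
    | n + 1 => Z n
  refine ⟨β, X', Z', rfl, ?_, ?_, ?_, fun n => hdZ n, fun n => hind n, ?_, ?_, ?_⟩
  · intro n
    rcases n with _ | n
    · intro i
      exact i.elim0
    · exact hX n
  · intro n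
    rcases n with _ | n
    · intro i j
      exact j.elim0
    · exact hZ n
  · intro n
    rcases n with _ | n
    · ext i
      exact i.elim0
    · exact hXZ n
  · intro n
    rcases n with _ | n
    · ext i j
      exact j.elim0
    · show X (n + 1) * d (n + 1) * Z n = 0
      apply cancel_right (hind n)
      rw [Matrix.zero_mul, Matrix.mul_assoc, ← hdZ n, Matrix.mul_assoc, hdd, Matrix.mul_zero]
  · have key : ∀ (a b : ℕ) (_ : b = 0) (X : Matrix (Fin b) (Fin a) D) (Z : Matrix (Fin a) (Fin b) D),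
        (1 : Matrix (Fin a) (Fin a) D) - Z * X = 1 := by
      intro a b hb X Z
      subst hb
      have : Z * X = 0 := by
        ext i j
        rw [Matrix.mul_apply]
        exact Finset.sum_eq_zero fun l _ => l.elim0
      rw [this, sub_zero]
    exact key (r 0) (β 0) rfl (X' 0) (Z' 0)
  · intro n
    show (1 - Z n * X n) * d n = 0
    rw [Matrix.sub_mul, Matrix.one_mul, Matrix.mul_assoc, ← hdZ n, sub_self]

/-- Rows in the kernel. -/
theorem rows_exact {p q s : ℕ} (E : Subring D) (d' : Matrix (Fin p) (Fin q) D)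
    (d : Matrix (Fin q) (Fin s) D)
    (hex : ∀ x : Fin q → D, (∀ i, x i ∈ E) → x ᵥ* d = 0 → ∃ y : Fin p → D, (∀ i, y i ∈ E) ∧
      x = y ᵥ* d') {l : ℕ} (A : Matrix (Fin l) (Fin q) D) (hA : ∀ i j, A i j ∈ E)
    (h0 : A * d = 0) : ∃ Y : Matrix (Fin l) (Fin p) D, (∀ i j, Y i j ∈ E) ∧ A = Y * d' := by
  choose Y hY1 hY2 using fun i => hex (A i) (hA i) (by rw [← mul_row, h0]; rfl)
  refine ⟨Matrix.of Y, hY1, ?_⟩
  funext i
  rw [mul_row]
  exact hY2 i

theorem mem_mul (E : Subring D) {l m n : Type} [Fintype m] {P : Matrix l m D} {Q : Matrix m n D}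
    (hP : ∀ i j, P i j ∈ E) (hQ : ∀ i j, Q i j ∈ E) : ∀ i j, (P * Q) i j ∈ E := by
  intro i j
  rw [Matrix.mul_apply]
  exact E.sum_mem fun l _ => E.mul_mem (hP _ _) (hQ _ _)

theorem mem_one_sub (E : Subring D) {m : Type} [DecidableEq m] {P : Matrix m m D}
    (hP : ∀ i j, P i j ∈ E) : ∀ i j, (1 - P) i j ∈ E := by
  intro i j
  rw [Matrix.sub_apply, Matrix.one_apply]
  refine E.sub_mem ?_ (hP i j)
  split_ifs
  exacts [E.one_mem, E.zero_mem]

/-- Existence of the torsion of an acyclic complex. -/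
theorem torsion_exists (r : ℕ → ℕ) (d : ∀ n, Matrix (Fin (r (n + 1))) (Fin (r n)) D)
    (hdd : ∀ n, d (n + 1) * d n = 0) (m : ℕ) (hm : ∀ n, m ≤ n → r n = 0)
    (hex0 : ∀ x : Fin (r 0) → D, ∃ y : Fin (r 1) → D, x = y ᵥ* d 0)
    (hex : ∀ n, ∀ x : Fin (r (n + 1)) → D, x ᵥ* d n = 0 →
      ∃ y : Fin (r (n + 1 + 1)) → D, x = y ᵥ* d (n + 1)) :
    ∃ τ, IsTorsion r d τ := by
  have hE : ∀ a ∈ (⊤ : Subring D), ∀ b ∈ (⊤ : Subring D), b ≠ 0 →
      ∃ q ∈ (⊤ : Subring D), a - q * b = 0 ∨ (0 : ℕ) < 0 := by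
    intro a _ b _ hb
    refine ⟨a * b⁻¹, Subring.mem_top _, Or.inl ?_⟩
    rw [mul_assoc, inv_mul_cancel₀ hb, mul_one, sub_self]
  obtain ⟨β, X, Z, hβ, -, -, hXZ, hd, hind, hz, hZ0, hZn⟩ :=
    all_data ⊤ (fun _ => 0) hE r d (fun _ _ _ => Subring.mem_top _) hdd
  have hY : ∀ n, ∃ Y : Matrix (Fin (r n)) (Fin (r (n + 1))) D, 1 - Z n * X n = Y * d n := by
    intro n
    rcases n with _ | n
    · choose Y hY using fun i => hex0 ((1 : Matrix (Fin (r 0)) (Fin (r 0)) D) i)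
      refine ⟨Matrix.of Y, ?_⟩
      rw [hZ0]
      funext i
      rw [mul_row]
      exact hY i
    · obtain ⟨Y, -, hY⟩ := rows_exact ⊤ (d (n + 1)) (d n) (fun x _ hx => by
        obtain ⟨y, hy⟩ := hex n x hx
        exact ⟨y, fun _ => Subring.mem_top _, hy⟩) (1 - Z (n + 1) * X (n + 1))
        (fun _ _ => Subring.mem_top _) (hZn n)
      exact ⟨Y, hY⟩
  choose Y hY using hY
  choose e M hM _ using fun n => unit_of (X (n + 1)) (Z (n + 1)) (d n) (X n) (Z n) (hd n) (hind n)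
    (hXZ n) (hz n) (Y n) (hY n)
  exact ⟨_, β, X, fun n => K1.mk (M n), m, hβ, hm, fun n => ⟨e n, M n, hM n, rfl⟩, rfl⟩

theorem neg_pow_cases (n : ℕ) : (-1 : ℤ) ^ n = 1 ∨ (-1 : ℤ) ^ n = -1 := neg_one_pow_eq_or ℤ n

/-- The key property of the torsion. -/
theorem torsion_good {A : Type} [AddCommGroup A] (S : AddSubmonoid A) {h : K1 D →+ A}
    (hp : KillsPerm h) (c : D) (hc0 : c ≠ 0) (hc1 : c ≠ 1) (E : Subring D) (ν : D → ℕ)
    (hE : ∀ a ∈ E, ∀ b ∈ E, b ≠ 0 → ∃ q ∈ E, a - q * b = 0 ∨ ν (a - q * b) < ν b)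
    (hS : ∀ d ∈ E, ∀ hd : d ≠ 0, h (el d hd) ∈ S)
    (r : ℕ → ℕ) (d : ∀ n, Matrix (Fin (r (n + 1))) (Fin (r n)) D) (hdE : ∀ n i j, d n i j ∈ E)
    (hdd : ∀ n, d (n + 1) * d n = 0) (m : ℕ) (hm : ∀ n, m ≤ n → r n = 0)
    (hex0 : ∀ x : Fin (r 0) → D, (∀ i, x i ∈ E) → ∃ y : Fin (r 1) → D, (∀ i, y i ∈ E) ∧
      x = y ᵥ* d 0)
    (hex1 : ∀ x : Fin (r 1) → D, x ᵥ* d 0 = 0 → ∃ y : Fin (r 2) → D, x = y ᵥ* d 1)
    (hex2 : ∀ n, ∀ x : Fin (r (n + 1 + 1)) → D, (∀ i, x i ∈ E) → x ᵥ* d (n + 1) = 0 →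
      ∃ y : Fin (r (n + 1 + 1 + 1)) → D, (∀ i, y i ∈ E) ∧ x = y ᵥ* d (n + 1 + 1))
    (τ : K1 D) (hτ : IsTorsion r d τ) : -h τ ∈ S := by
  obtain ⟨β, X, Z, hβ, hX, hZ, hXZ, hd, hind, hz, hZ0, hZn⟩ := all_data E ν hE r d hdE hdd
  have hY : ∀ n, ∃ Y : Matrix (Fin (r n)) (Fin (r (n + 1))) D, 1 - Z n * X n = Y * d n ∧
      (n ≠ 1 → ∀ i j, Y i j ∈ E) := by
    intro n
    rcases n with _ | n
    · choose Y hY' hY using fun i => hex0 ((1 : Matrix (Fin (r 0)) (Fin (r 0)) D) i) (by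
        intro j
        rw [Matrix.one_apply]
        split_ifs
        exacts [E.one_mem, E.zero_mem])
      refine ⟨Matrix.of Y, ?_, fun _ => hY'⟩
      rw [hZ0]
      funext i
      rw [mul_row]
      exact hY i
    · rcases n with _ | n
      · obtain ⟨Y, -, hY⟩ := rows_exact ⊤ (d (0 + 1)) (d 0) (fun x _ hx => by
          obtain ⟨y, hy⟩ := hex1 x hx
          exact ⟨y, fun _ => Subring.mem_top _, hy⟩) (1 - Z (0 + 1) * X (0 + 1))
          (fun _ _ => Subring.mem_top _) (hZn 0)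
        exact ⟨Y, hY, fun h => absurd rfl h⟩
      · obtain ⟨Y, hY', hY⟩ := rows_exact E (d (n + 1 + 1)) (d (n + 1)) (fun x hxE hx => hex2 n x hxE hx)
          (1 - Z (n + 1 + 1) * X (n + 1 + 1))
          (mem_one_sub E (mem_mul E (hZ _) (hX _))) (hZn (n + 1))
        exact ⟨Y, hY, fun _ => hY'⟩
  choose Y hY hYE using hY
  choose e M hM hMi using fun n => unit_of (X (n + 1)) (Z (n + 1)) (d n) (X n) (Z n) (hd n) (hind n)
    (hXZ n) (hz n) (Y n) (hY n)
  have hτ' : IsTorsion r d (∑ n ∈ Finset.range m, (-1 : ℤ) ^ n • K1.mk (M n)) :=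
    ⟨β, X, fun n => K1.mk (M n), m, hβ, hm, fun n => ⟨e n, M n, hM n, rfl⟩, rfl⟩
  rw [torsion_unique hp c hc0 hc1 r d hdd τ _ hτ hτ', map_sum, ← Finset.sum_neg_distrib]
  refine S.sum_mem fun n _ => ?_
  rw [map_zsmul, ← cls_fin]
  have hpos : h (cls (M n)) ∈ S := by
    refine reduce S h c hc0 hc1 E ν hE hS _ _ rfl (M n) ?_
    intro i j
    rw [hM n, Matrix.submatrix_apply]
    rcases e n i with k | k
    · exact mem_mul E (hX (n + 1)) (hdE n) k j
    · exact hX n k j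
  by_cases hn : n = 1
  · subst hn
    simpa using hpos
  · have hneg : -h (cls (M n)) ∈ S := by
      rw [← map_neg, ← cls_inv]
      refine reduce S h c hc0 hc1 E ν hE hS _ _ rfl ((M n)⁻¹) ?_
      intro i j
      rw [hMi n, Matrix.submatrix_apply]
      rcases e n j with k | k
      · exact mem_mul E (hYE n hn) (hZ (n + 1)) i k
      · exact hZ n i k
    rcases neg_pow_cases n with h1 | h1
    · rw [h1, one_smul]
      exact hneg
    · rw [h1, neg_smul, one_smul, neg_neg]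
      exact hpos

end W441PT
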